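import Pool.Agent.Lib.MP_5e7226_co.RG.Sys0

set_option autoImplicit false

/-! The simple system of a finite irreducible reflection group. -/

namespace Pool.Agent.Lib.MP_5e7226_co.RG

open Finset

section Basis

variable {V : Type*} [AddCommGroup V] [Module ℝ V]

/-- A basis of simple roots. -/
theorem exists_simple_basis {B : V →ₗ[ℝ] V →ₗ[ℝ] ℝ} (hs : ∀ x y, B x y = B y x) (hp : ∀ x, x ≠ 0 → 0 < B x x)
    {Φ : Set V} (hfin : Φ.Finite) (hst : ∀ r ∈ Φ, ∀ x ∈ Φ, x - (2 * B r x) • r ∈ Φ) (hneg : ∀ r ∈ Φ, -r ∈ Φ)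
    (h1 : ∀ r ∈ Φ, B r r = 1) (hspan : Submodule.span ℝ Φ = ⊤) {d : ℕ} (hd : Module.finrank ℝ V = d) :
    ∃ (b : Module.Basis (Fin d) ℝ V) (f : V →ₗ[ℝ] ℝ), (∀ i, b i ∈ Φ) ∧ (∀ i j, i ≠ j → B (b i) (b j) ≤ 0) ∧
      (∀ r ∈ Φ, f r ≠ 0) ∧ (∀ i, 0 < f (b i)) ∧ (∀ r ∈ Φ, 0 < f r → ∀ i, 0 ≤ b.repr r i) ∧
        ∀ r ∈ Φ, f r < 0 → ∀ i, b.repr r i ≤ 0 := by
  classical
  have hne : ∀ r ∈ Φ, r ≠ 0 := by
    rintro r hr rfl
    have h2 := h1 _ hr
    rw [map_zero] at h2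
    simp at h2
  have hfi : Finite Φ := hfin
  obtain ⟨f, hf⟩ := Module.exists_dual_forall_apply_ne_zero (K := ℝ) (fun r : Φ => (r : V))
    (fun r => hne _ r.2)
  have hf' : ∀ r ∈ Φ, f r ≠ 0 := fun r hr => hf ⟨r, hr⟩
  obtain ⟨D, hD1, hD2, hD3⟩ := exists_simple_set B hs hfin hst hneg f hf'
  have hli : LinearIndependent ℝ (fun v : D => (v : V)) := by
    refine LinearMap.BilinForm.linearIndependent_of_pairwise_le_zero B ?_ f _ (fun v => (hD1 v v.2).2) ?_
    · intro x hx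
      exact hp x hx
    · intro v w hvw
      exact hD3 v v.2 w w.2 fun h => hvw (Subtype.ext h)
  have hcone : ∀ x, InCone D x → x ∈ Submodule.span ℝ (Set.range fun v : D => (v : V)) := by
    rintro x ⟨c, hc, rfl⟩
    exact Submodule.sum_mem _ fun v hv => Submodule.smul_mem _ _ (Submodule.subset_span ⟨⟨v, hv⟩, rfl⟩)
  have hsp : (⊤ : Submodule ℝ V) ≤ Submodule.span ℝ (Set.range fun v : D => (v : V)) := by
    rw [← hspan, Submodule.span_le]
    intro r hr
    rcases lt_or_gt_of_ne (hf' r hr) with h | h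
    · have h2 := hcone _ (hD2 (-r) (hneg r hr) (by rw [map_neg]; linarith))
      have h3 := Submodule.neg_mem _ h2
      rwa [neg_neg] at h3
    · exact hcone _ (hD2 r hr h)
  let b0 : Module.Basis D ℝ V := Module.Basis.mk hli hsp
  have hb0 : ∀ v : D, b0 v = (v : V) := fun v => Module.Basis.mk_apply hli hsp v
  have hcard : Fintype.card D = d := by
    rw [← hd, Module.finrank_eq_card_basis b0]
  let e : D ≃ Fin d := Fintype.equivFinOfCardEq hcard
  let b : Module.Basis (Fin d) ℝ V := b0.reindex e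
  have hb : ∀ i, b i = ((e.symm i : D) : V) := by
    intro i
    rw [Module.Basis.reindex_apply, hb0]
  have hrep : ∀ x, InCone D x → ∀ i, 0 ≤ b.repr x i := by
    rintro x ⟨c, hc, rfl⟩ i
    have h2 : ∑ v ∈ D, c v • v = ∑ j, c (b j) • b j := by
      rw [← sum_coe_sort D (fun v => c v • v), ← e.symm.sum_comp]
      exact sum_congr rfl fun j _ => by rw [hb j]
    rw [h2, b.repr_sum_self]
    exact hc _
  refine ⟨b, f, ?_, ?_, hf', ?_, ?_, ?_⟩
  · intro i
    rw [hb]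
    exact (hD1 _ (e.symm i).2).1
  · intro i j hij
    rw [hb, hb]
    refine hD3 _ (e.symm i).2 _ (e.symm j).2 fun h => hij ?_
    exact e.symm.injective (Subtype.ext h)
  · intro i
    rw [hb]
    exact (hD1 _ (e.symm i).2).2
  · intro r hr hfr
    exact hrep r (hD2 r hr hfr)
  · intro r hr hfr i
    have h2 := hrep (-r) (hD2 (-r) (hneg r hr) (by rw [map_neg]; linarith)) i
    rw [map_neg, Finsupp.neg_apply] at h2
    linarith

/-- No root has coordinates on both sides of an orthogonal decomposition of the basis. -/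
theorem not_mixed {B : V →ₗ[ℝ] V →ₗ[ℝ] ℝ} (hs : ∀ x y, B x y = B y x)
    {Φ : Set V} (hfin : Φ.Finite) (hst : ∀ r ∈ Φ, ∀ x ∈ Φ, x - (2 * B r x) • r ∈ Φ) (hneg : ∀ r ∈ Φ, -r ∈ Φ)
    (h1 : ∀ r ∈ Φ, B r r = 1) {d : ℕ} {b : Module.Basis (Fin d) ℝ V} {f : V →ₗ[ℝ] ℝ}
    (hb : ∀ i, b i ∈ Φ) (hf : ∀ r ∈ Φ, f r ≠ 0) (hfb : ∀ i, 0 < f (b i))
    (hpos : ∀ r ∈ Φ, 0 < f r → ∀ i, 0 ≤ b.repr r i) (hnp : ∀ r ∈ Φ, f r < 0 → ∀ i, b.repr r i ≤ 0)
    (S : Set (Fin d)) (hS : ∀ i ∈ S, ∀ j, j ∉ S → B (b i) (b j) = 0) :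
    ∀ r ∈ Φ, (∀ i ∈ S, b.repr r i = 0) ∨ ∀ j, j ∉ S → b.repr r j = 0 := by
  classical
  have hS' : ∀ i, i ∉ S → ∀ j ∈ S, B (b i) (b j) = 0 := fun i hi j hj => by rw [hs]; exact hS j hj i hi
  -- positive roots first
  have hmain : ∀ r ∈ Φ, 0 < f r → (∀ i ∈ S, b.repr r i = 0) ∨ ∀ j, j ∉ S → b.repr r j = 0 := by
    by_contra hcon
    push Not at hcon
    obtain ⟨r1, hr1, hfr1, hmx1⟩ := hcon
    obtain ⟨Q, hQ⟩ : ∃ Q : Finset V, ∀ v, v ∈ Q ↔ (v ∈ Φ ∧ 0 < f v ∧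
        (∃ i ∈ S, b.repr v i ≠ 0) ∧ ∃ j, j ∉ S ∧ b.repr v j ≠ 0) := by
      refine ⟨hfin.toFinset.filter fun v => 0 < f v ∧ (∃ i ∈ S, b.repr v i ≠ 0) ∧ ∃ j, j ∉ S ∧ b.repr v j ≠ 0,
        fun v => ?_⟩
      rw [mem_filter, Set.Finite.mem_toFinset]
    obtain ⟨r, hrQ, hmin⟩ := exists_min_image Q f ⟨r1, (hQ r1).2 ⟨hr1, hfr1, hmx1.1, hmx1.2⟩⟩
    obtain ⟨hr, hfr, ⟨i0, hi0, hi0r⟩, j0, hj0, hj0r⟩ := (hQ r).1 hrQ
    have hexp : r = ∑ i, b.repr r i • b i := (b.sum_repr r).symm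
    obtain ⟨i, hi⟩ : ∃ i, 0 < B (b i) r := by
      by_contra hno
      push Not at hno
      have h2 : B r r = ∑ i, b.repr r i * B (b i) r := by
        have h3 : B r (∑ i, b.repr r i • b i) = ∑ i, b.repr r i * B (b i) r := by
          rw [map_sum]
          refine sum_congr rfl fun k _ => ?_
          rw [map_smul, smul_eq_mul, hs]
        rwa [← hexp] at h3
      have h3 : ∑ i, b.repr r i * B (b i) r ≤ 0 :=
        sum_nonpos fun k _ => mul_nonpos_of_nonneg_of_nonpos (hpos r hr hfr k) (hno k)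
      rw [← h2, h1 r hr] at h3
      linarith
    have hs' : r - (2 * B (b i) r) • b i ∈ Φ := hst _ (hb i) _ hr
    have hrep : ∀ j, j ≠ i → b.repr (r - (2 * B (b i) r) • b i) j = b.repr r j := by
      intro j hj
      rw [map_sub, map_smul, Finsupp.sub_apply, Finsupp.smul_apply, b.repr_self, Finsupp.single_apply,
        if_neg (fun h => hj h.symm), smul_zero, sub_zero]
    have hBi : B (b i) (r - (2 * B (b i) r) • b i) = -B (b i) r := by
      rw [map_sub, map_smul, smul_eq_mul, h1 _ (hb i)]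
      ring
    -- the reflected root is again mixed
    have hmix : (∃ k ∈ S, b.repr (r - (2 * B (b i) r) • b i) k ≠ 0) ∧
        ∃ k, k ∉ S ∧ b.repr (r - (2 * B (b i) r) • b i) k ≠ 0 := by
      have hBexp : B (b i) (r - (2 * B (b i) r) • b i) =
          ∑ k, b.repr (r - (2 * B (b i) r) • b i) k * B (b i) (b k) := by
        conv_lhs => rw [← b.sum_repr (r - (2 * B (b i) r) • b i)]
        rw [map_sum]
        exact sum_congr rfl fun k _ => by rw [map_smul, smul_eq_mul]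
      by_cases hiS : i ∈ S
      · refine ⟨?_, j0, hj0, ?_⟩
        · by_contra hno
          push Not at hno
          have h2 : ∑ k, b.repr (r - (2 * B (b i) r) • b i) k * B (b i) (b k) = 0 := by
            refine sum_eq_zero fun k _ => ?_
            by_cases hk : k ∈ S
            · rw [hno k hk, zero_mul]
            · rw [hS i hiS k hk, mul_zero]
          rw [← hBexp, hBi] at h2
          linarith
        · rw [hrep j0 fun h => hj0 (h ▸ hiS)]
          exact hj0r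
      · refine ⟨⟨i0, hi0, ?_⟩, ?_⟩
        · rw [hrep i0 fun h => hiS (h ▸ hi0)]
          exact hi0r
        · by_contra hno
          push Not at hno
          have h2 : ∑ k, b.repr (r - (2 * B (b i) r) • b i) k * B (b i) (b k) = 0 := by
            refine sum_eq_zero fun k _ => ?_
            by_cases hk : k ∈ S
            · rw [hS' i hiS k hk, mul_zero]
            · rw [hno k hk, zero_mul]
          rw [← hBexp, hBi] at h2
          linarith
    -- it is positive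
    have hfs : 0 < f (r - (2 * B (b i) r) • b i) := by
      rcases lt_or_gt_of_ne (hf _ hs') with h | h
      · exfalso
        have h3 := hnp _ hs' h
        by_cases hiS : i ∈ S
        · have h4 := h3 j0
          rw [hrep j0 fun h => hj0 (h ▸ hiS)] at h4
          exact hj0r (le_antisymm h4 (hpos r hr hfr j0))
        · have h4 := h3 i0
          rw [hrep i0 fun h => hiS (h ▸ hi0)] at h4
          exact hi0r (le_antisymm h4 (hpos r hr hfr i0))
      · exact h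
    have h5 := hmin _ ((hQ _).2 ⟨hs', hfs, hmix.1, hmix.2⟩)
    rw [map_sub, map_smul, smul_eq_mul] at h5
    have h6 : 0 < 2 * B (b i) r * f (b i) := mul_pos (by linarith) (hfb i)
    linarith
  intro r hr
  rcases lt_or_gt_of_ne (hf r hr) with h | h
  · have h2 := hmain (-r) (hneg r hr) (by rw [map_neg]; linarith)
    rcases h2 with h2 | h2
    · left
      intro i hi
      have h3 := h2 i hi
      rw [map_neg, Finsupp.neg_apply] at h3
      linarith
    · right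
      intro i hi
      have h3 := h2 i hi
      rw [map_neg, Finsupp.neg_apply] at h3
      linarith
  · exact hmain r hr h

end Basis

section Form2

/-- The invariant form. -/
theorem exists_form {d : ℕ} (W : Subgroup (EuclideanSpace ℝ (Fin d) ≃ₗ[ℝ] EuclideanSpace ℝ (Fin d))) [Finite W] :
    ∃ B : EuclideanSpace ℝ (Fin d) →ₗ[ℝ] EuclideanSpace ℝ (Fin d) →ₗ[ℝ] ℝ, IsForm B W := by
  classical
  obtain ⟨hW⟩ := nonempty_fintype W
  obtain ⟨I, hI⟩ : ∃ I : EuclideanSpace ℝ (Fin d) →ₗ[ℝ] EuclideanSpace ℝ (Fin d) →ₗ[ℝ] ℝ,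
      ∀ x y, I x y = inner ℝ x y := ⟨innerₗ _, fun x y => rfl⟩
  obtain ⟨B, hB⟩ : ∃ B : EuclideanSpace ℝ (Fin d) →ₗ[ℝ] EuclideanSpace ℝ (Fin d) →ₗ[ℝ] ℝ,
      ∀ x y, B x y = ∑ w : W, inner ℝ ((w : EuclideanSpace ℝ (Fin d) ≃ₗ[ℝ] EuclideanSpace ℝ (Fin d)) x)
        ((w : EuclideanSpace ℝ (Fin d) ≃ₗ[ℝ] EuclideanSpace ℝ (Fin d)) y) := by
    refine ⟨∑ w : W, I.compl₁₂
      ((w : EuclideanSpace ℝ (Fin d) ≃ₗ[ℝ] EuclideanSpace ℝ (Fin d)) :
        EuclideanSpace ℝ (Fin d) →ₗ[ℝ] EuclideanSpace ℝ (Fin d))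
      ((w : EuclideanSpace ℝ (Fin d) ≃ₗ[ℝ] EuclideanSpace ℝ (Fin d)) :
        EuclideanSpace ℝ (Fin d) →ₗ[ℝ] EuclideanSpace ℝ (Fin d)), fun x y => ?_⟩
    rw [LinearMap.sum_apply, LinearMap.sum_apply]
    refine sum_congr rfl fun w _ => ?_
    rw [LinearMap.compl₁₂_apply, hI]
    rfl
  refine ⟨B, ⟨?_, ?_, ?_⟩⟩
  · intro x y
    rw [hB, hB]
    exact sum_congr rfl fun w _ => real_inner_comm _ _
  · intro x hx
    rw [hB]
    refine sum_pos (fun w _ => ?_) ⟨1, mem_univ _⟩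
    rw [real_inner_self_eq_norm_sq]
    have h : (w : EuclideanSpace ℝ (Fin d) ≃ₗ[ℝ] EuclideanSpace ℝ (Fin d)) x ≠ 0 := fun h =>
      hx ((LinearEquiv.map_eq_zero_iff _).1 h)
    have h2 := norm_pos_iff.2 h
    positivity
  · intro g hg x y
    rw [hB, hB]
    refine Fintype.sum_equiv (Equiv.mulRight (⟨g, hg⟩ : W)) _ _ fun w => ?_
    rfl

end Form2

end Pool.Agent.Lib.MP_5e7226_co.RG
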