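import Mathlib

set_option autoImplicit false

/-! Definitions of the campaign RG (irreducible finite reflection groups). The file
`Results/MP_5e7226_co/ReflectionGroups.lean` repeats them. -/

namespace Pool.Agent.Lib.MP_5e7226_co.RG

open scoped InnerProductSpace

variable {d : ℕ}

/-- The Coxeter matrix of type `D_d`: the nodes `0, ..., d - 2` form a path and the node `d - 1` is
joined to the node `d - 3`. (`CoxeterMatrix.D` has one more bond.) -/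
def matrixD (d : ℕ) : Matrix (Fin d) (Fin d) ℕ := fun i j =>
  if i = j then 1
  else if ((i : ℕ) + 1 = j ∧ (j : ℕ) + 1 < d) ∨ ((j : ℕ) + 1 = i ∧ (i : ℕ) + 1 < d) ∨
    ((i : ℕ) + 2 = j ∧ (j : ℕ) + 1 = d) ∨ ((j : ℕ) + 2 = i ∧ (i : ℕ) + 1 = d) then 3
  else 2

/-- The Coxeter matrices of the irreducible finite reflection groups of rank at least `3`. -/
inductive FiniteType : (d : ℕ) → Matrix (Fin d) (Fin d) ℕ → Prop
  | A (d : ℕ) (hd : 3 ≤ d) : FiniteType d (CoxeterMatrix.A d).M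
  | B (d : ℕ) (hd : 3 ≤ d) : FiniteType d (CoxeterMatrix.B d).M
  | D (d : ℕ) (hd : 4 ≤ d) : FiniteType d (matrixD d)
  | E6 : FiniteType 6 CoxeterMatrix.E₆.M
  | E7 : FiniteType 7 CoxeterMatrix.E₇.M
  | E8 : FiniteType 8 CoxeterMatrix.E₈.M
  | F4 : FiniteType 4 CoxeterMatrix.F₄.M
  | H3 : FiniteType 3 CoxeterMatrix.H₃.M
  | H4 : FiniteType 4 CoxeterMatrix.H₄.M

/-- `K` is invariant about `o` under the reflection group with the Coxeter matrix `M` and the simple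
roots `α`: the `i`-th simple reflection is the linear map with
`α j ↦ α j + 2 cos (π / M i j) • α i`. -/
def Invariant (M : Matrix (Fin d) (Fin d) ℕ) (α : Fin d → EuclideanSpace ℝ (Fin d))
    (o : EuclideanSpace ℝ (Fin d)) (K : Set (EuclideanSpace ℝ (Fin d))) : Prop :=
  ∀ i, ∀ c : Fin d → ℝ, o + ∑ j, c j • α j ∈ K →
    o + ∑ j, c j • (α j + (2 * Real.cos (Real.pi / M i j)) • α i) ∈ K

/-- `s(K, o) ≤ n`: some `n` hyperplanes strictly separate every face of `K` from `o`. -/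
def SeparatedBy (K : Set (EuclideanSpace ℝ (Fin d))) (o : EuclideanSpace ℝ (Fin d))
    (n : ℕ) : Prop :=
  ∃ w : Fin n → EuclideanSpace ℝ (Fin d), ∃ b : Fin n → ℝ,
    ∀ u x₀ : EuclideanSpace ℝ (Fin d), u ≠ 0 → x₀ ∈ K →
      (∀ y ∈ K, ⟪u, y⟫_ℝ ≤ ⟪u, x₀⟫_ℝ) →
        ∃ i, ⟪w i, o⟫_ℝ < b i ∧ ∀ x ∈ K, ⟪u, x⟫_ℝ = ⟪u, x₀⟫_ℝ → b i < ⟪w i, x⟫_ℝ

/-- `K` is a cross-body centred at `o`. -/
def IsCrossBody (K : Set (EuclideanSpace ℝ (Fin d))) (o : EuclideanSpace ℝ (Fin d)) : Prop :=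
  ∃ v : Fin d → EuclideanSpace ℝ (Fin d), ∃ t : Fin d → ℝ,
    LinearIndependent ℝ v ∧ (∀ i, 0 < t i) ∧
      K = convexHull ℝ (⋃ i, ({o + v i, o - t i • v i} : Set (EuclideanSpace ℝ (Fin d))))

/-- `I(K) ≤ n`: some `n` points outside `K` illuminate every boundary point `q` of `K`: the
half-line from one of them through `q` meets the interior of `K` at a point beyond `q`. -/
def IlluminatedBy (K : Set (EuclideanSpace ℝ (Fin d))) (n : ℕ) : Prop :=
  ∃ p : Fin n → EuclideanSpace ℝ (Fin d), (∀ i, p i ∉ K) ∧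
    ∀ q ∈ frontier K, ∃ i, ∃ s : ℝ, 0 < s ∧ q + s • (q - p i) ∈ interior K

/-- `K` is an affine `d`-cube. -/
def IsAffineCube (K : Set (EuclideanSpace ℝ (Fin d))) : Prop :=
  ∃ p : EuclideanSpace ℝ (Fin d), ∃ v : Fin d → EuclideanSpace ℝ (Fin d),
    LinearIndependent ℝ v ∧ K = {x | ∃ c : Fin d → ℝ, (∀ i, |c i| ≤ 1) ∧ x = p + ∑ i, c i • v i}

/-- Both parts of the conjecture, for `s(K, o)` and for `I(K)`. -/
def Good (K : Set (EuclideanSpace ℝ (Fin d))) (o : EuclideanSpace ℝ (Fin d)) : Prop :=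
  SeparatedBy K o (2 ^ d) ∧ (¬ SeparatedBy K o (2 ^ d - 1) → IsCrossBody K o) ∧
    IlluminatedBy K (2 ^ d) ∧ (¬ IlluminatedBy K (2 ^ d - 1) → IsAffineCube K)

/-- Type `A_d`: all permutations of the vertices of a simplex with the centroid `o`. -/
def SymA (K : Set (EuclideanSpace ℝ (Fin d))) (o : EuclideanSpace ℝ (Fin d)) : Prop :=
  ∃ a : Fin (d + 1) → EuclideanSpace ℝ (Fin d), AffineIndependent ℝ a ∧
    o = ∑ j, (1 / ((d : ℝ) + 1)) • a j ∧
    ∀ σ : Equiv.Perm (Fin (d + 1)), ∀ c : Fin (d + 1) → ℝ, ∑ i, c i = 1 →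
      ∑ i, c i • a i ∈ K → ∑ i, c i • a (σ i) ∈ K

/-- Type `D_d`: all permutations and all even changes of signs of a basis. -/
def SymD (K : Set (EuclideanSpace ℝ (Fin d))) (o : EuclideanSpace ℝ (Fin d)) : Prop :=
  ∃ b : Fin d → EuclideanSpace ℝ (Fin d), LinearIndependent ℝ b ∧
    ∀ (σ : Equiv.Perm (Fin d)) (ε : Fin d → ℝ), (∀ i, ε i = 1 ∨ ε i = -1) → ∏ i, ε i = 1 →
      ∀ c : Fin d → ℝ, o + ∑ i, c i • b i ∈ K → o + ∑ i, (ε i * c i) • b (σ i) ∈ K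

end Pool.Agent.Lib.MP_5e7226_co.RG
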