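import Pool.Agent.Lib.MP_5e7226_co.RG.Cv0

set_option autoImplicit false

namespace Pool.Agent.Lib.MP_5e7226_co.RG

/-- the signs of the vertices of the tetrahedron -/
private def CvB3_e : Fin 4 → Fin 3 → ℤ := ![![1, 1, 1], ![1, -1, -1], ![-1, 1, -1], ![-1, -1, 1]]

private theorem CvB3_had : ∀ i j, 1 + ∑ k, CvB3_e i k * CvB3_e j k = if i = j then 4 else 0 := by
  decide

private theorem CvB3_sum : ∀ k, ∑ i, CvB3_e i k = 0 := by
  decide

private theorem CvB3_adj : ∀ n : Fin 3, ∃ (τ : Equiv.Perm (Fin 3)) (ε : Fin 3 → ℤ), (∀ i, ε i = 1 ∨ ε i = -1) ∧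
    ∏ i, ε i = 1 ∧ ∀ i k, CvB3_e (Equiv.swap n.castSucc n.succ i) (τ k) = ε k * CvB3_e i k := by
  intro n
  fin_cases n
  · exact ⟨Equiv.swap 1 2, ![1, -1, -1], by decide, by decide, by decide⟩
  · exact ⟨Equiv.swap 0 1, ![1, 1, 1], by decide, by decide, by decide⟩
  · exact ⟨Equiv.swap 1 2, ![1, 1, 1], by decide, by decide, by decide⟩

/-- `D_3 = A_3`. PROOF. With the basis `b`: `a 0 = o + b0 + b1 + b2`, `a 1 = o + b0 - b1 - b2`, `a 2 = o - b0 + b1 - b2`, `a 3 = o - b0 - b1 + b2`. The group of the permutations with even changes of signs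
permutes the `a i`, all 24 permutations occur (it is enough to have `swap i (i + 1)`, `Equiv.Perm.mclosure_swap_castSucc_succ`). -/
theorem symA_three {o : EuclideanSpace ℝ (Fin 3)} {K : Set (EuclideanSpace ℝ (Fin 3))} (h : SymD K o) :
    SymA K o := by
  obtain ⟨b, hb, hsym⟩ := h
  obtain ⟨a, ha⟩ : ∃ a : Fin 4 → EuclideanSpace ℝ (Fin 3), ∀ i, a i = o + ∑ k, (CvB3_e i k : ℝ) • b k :=
    ⟨fun i => o + ∑ k, (CvB3_e i k : ℝ) • b k, fun _ => rfl⟩
  -- weighted sums of the vertices
  have hcomb : ∀ (s : Finset (Fin 4)) (w : Fin 4 → ℝ) (σ : Equiv.Perm (Fin 4)), ∑ i ∈ s, w i • a (σ i) =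
      (∑ i ∈ s, w i) • o + ∑ k, (∑ i ∈ s, w i * (CvB3_e (σ i) k : ℝ)) • b k := by
    intro s w σ
    simp only [ha, smul_add, Finset.sum_add_distrib, Finset.sum_smul, Finset.smul_sum, smul_smul]
    congr 1
    rw [Finset.sum_comm]
  refine ⟨a, ?_, ?_, ?_⟩
  · rw [affineIndependent_iff]
    intro s w hw h0 j hj
    have h1 := hcomb s w 1
    simp only [Equiv.Perm.coe_one, id_eq] at h1
    rw [h0, hw, zero_smul, zero_add] at h1
    have h2 : ∀ k, ∑ i ∈ s, w i * (CvB3_e i k : ℝ) = 0 :=
      fun k => (Fintype.linearIndependent_iff.1 hb) _ h1.symm k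
    have h3 : ∑ i ∈ s, w i * ((1 + ∑ k, CvB3_e i k * CvB3_e j k : ℤ) : ℝ) = 0 := by
      push_cast
      simp only [mul_add, mul_one, Finset.sum_add_distrib, Finset.mul_sum]
      rw [hw, zero_add, Finset.sum_comm]
      refine Finset.sum_eq_zero fun k _ => ?_
      have h4 : ∑ i ∈ s, w i * ((CvB3_e i k : ℝ) * (CvB3_e j k : ℝ)) = (∑ i ∈ s, w i * (CvB3_e i k : ℝ)) * (CvB3_e j k : ℝ) := by
        rw [Finset.sum_mul]
        exact Finset.sum_congr rfl fun i _ => by ring
      rw [h4, h2 k, zero_mul]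
    have h5 : ∑ i ∈ s, w i * ((1 + ∑ k, CvB3_e i k * CvB3_e j k : ℤ) : ℝ) = w j * 4 := by
      rw [Finset.sum_eq_single j]
      · rw [CvB3_had, if_pos rfl]
        norm_num
      · intro i _ hij
        rw [CvB3_had, if_neg hij]
        simp
      · intro hn
        exact absurd hj hn
    rw [h5] at h3
    linarith
  · have h1 := hcomb Finset.univ (fun _ => 1 / (((3 : ℕ) : ℝ) + 1)) 1
    simp only [Equiv.Perm.coe_one, id_eq] at h1
    rw [h1]
    have h2 : ∑ _i : Fin 4, (1 / (((3 : ℕ) : ℝ) + 1)) = 1 := by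
      rw [Finset.sum_const, Finset.card_univ, Fintype.card_fin, nsmul_eq_mul]
      norm_num
    have h3 : ∀ k, ∑ i : Fin 4, 1 / (((3 : ℕ) : ℝ) + 1) * (CvB3_e i k : ℝ) = 0 := by
      intro k
      rw [← Finset.mul_sum]
      have h4 : ∑ i : Fin 4, (CvB3_e i k : ℝ) = ((∑ i, CvB3_e i k : ℤ) : ℝ) := by push_cast; rfl
      rw [h4, CvB3_sum k]
      simp
    simp only [h3, zero_smul, Finset.sum_const_zero, add_zero]
    rw [h2, one_smul]
  · -- the permutations
    have key : ∀ σ : Equiv.Perm (Fin 4), ∀ c : Fin 4 → ℝ, ∑ i, c i = 1 →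
        ∑ i, c i • a i ∈ K → ∑ i, c i • a (σ i) ∈ K := by
      intro σ
      have hσ : σ ∈ Submonoid.closure (Set.range fun i : Fin 3 => Equiv.swap i.castSucc i.succ) := by
        rw [Equiv.Perm.mclosure_swap_castSucc_succ]
        exact Submonoid.mem_top σ
      induction hσ using Submonoid.closure_induction with
      | mem x hx =>
        obtain ⟨n, rfl⟩ := hx
        obtain ⟨τ, ε, hε, hprod, he⟩ := CvB3_adj n
        intro c hc hK
        have h1 := hcomb Finset.univ c 1
        simp only [Equiv.Perm.coe_one, id_eq] at h1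
        rw [h1, hc, one_smul] at hK
        have h2 := hsym τ (fun k => (ε k : ℝ)) (fun i => by
          rcases hε i with h | h <;> rw [h] <;> norm_num) (by
          have h3 : ∏ i, (ε i : ℝ) = ((∏ i, ε i : ℤ) : ℝ) := by push_cast; rfl
          rw [h3, hprod]
          norm_num) _ hK
        rw [hcomb Finset.univ c (Equiv.swap n.castSucc n.succ), hc, one_smul]
        have h4 : ∑ k, (∑ i, c i * (CvB3_e (Equiv.swap n.castSucc n.succ i) k : ℝ)) • b k =
            ∑ k, ((ε k : ℝ) * ∑ i, c i * (CvB3_e i k : ℝ)) • b (τ k) := by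
          rw [← Equiv.sum_comp τ]
          refine Finset.sum_congr rfl fun k _ => ?_
          congr 1
          rw [Finset.mul_sum]
          refine Finset.sum_congr rfl fun i _ => ?_
          rw [he i k]
          push_cast
          ring
        rw [h4]
        exact h2
      | one =>
        intro c _ hK
        simpa using hK
      | mul x y _ _ hx hy =>
        intro c hc hK
        have h1 := hy c hc hK
        have h2 : ∑ i, c i • a (y i) = ∑ j, c (y⁻¹ j) • a j := by
          rw [← Equiv.sum_comp y (fun j => c (y⁻¹ j) • a j)]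
          refine Finset.sum_congr rfl fun i _ => ?_
          simp
        have h3 : ∑ j, c (y⁻¹ j) = 1 := by
          rw [← hc, ← Equiv.sum_comp y (fun j => c (y⁻¹ j))]
          refine Finset.sum_congr rfl fun i _ => ?_
          simp
        rw [h2] at h1
        have h4 := hx (fun j => c (y⁻¹ j)) h3 h1
        have h5 : ∑ i, c i • a ((x * y) i) = ∑ j, c (y⁻¹ j) • a (x j) := by
          rw [← Equiv.sum_comp y (fun j => c (y⁻¹ j) • a (x j))]
          refine Finset.sum_congr rfl fun i _ => ?_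
          simp
        rw [h5]
        exact h4
    exact key

end Pool.Agent.Lib.MP_5e7226_co.RG
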