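import Pool.Agent.Lib.MP_5e7226_co.RG.MnD0
import Pool.Agent.Lib.MP_5e7226_co.DX.D4E

set_option autoImplicit false

/-! The type `D_d`, `d ≥ 4`. -/

namespace Pool.Agent.Lib.MP_5e7226_co.RG

open Finset
open Pool.Agent.Lib.MP_5e7226_co.DX (GK swp Works CubeData Dual4 Hm Nm img)
open Pool.Agent.Lib.MP_5e7226_co.HX (Body)

/-- Type `D_4`. -/
theorem main_D4 {K : Set (EuclideanSpace ℝ (Fin 4))} {o : EuclideanSpace ℝ (Fin 4)}
    (hconv : Convex ℝ K) (hcomp : IsCompact K) (hint : (interior K).Nonempty) (h : SymD K o) : Good K o := by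
  obtain ⟨b, hb, h⟩ := h
  have hS := symBody_of hb hconv hcomp hint h
  have hB : Body o K := ⟨hconv, hcomp, DX.cen_mem_interior (by omega) hS⟩
  have hG : Dual4 (GK (bas hb) o K) := DX.dual4_GK hS
  have hG' : Dual4 (swp (GK (bas hb) o K)) := DX.dual4_swp hS
  obtain ⟨b1, hb1⟩ := DX.exists_basis_Hm (bas hb)
  obtain ⟨b2, hb2⟩ := DX.exists_basis_Nm (bas hb)
  obtain ⟨b3, hb3⟩ := DX.exists_basis_Hm b2
  have e1 : GK b1 o K = img Hm (GK (bas hb) o K) := hb1 o K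
  have e3 : GK b3 o K = img Hm (img Nm (GK (bas hb) o K)) := by rw [hb3 o K, hb2 o K]
  refine good_of (by omega) hB ?_ ?_
  · rcases DX.core4 hG with ⟨t, ht⟩ | ⟨t, ht⟩ | ⟨t, ht⟩ | ⟨z, hz⟩
    · exact Or.inl ⟨bas hb, t, ht.1, DX.cube_end4 hB hG ht⟩
    · rw [← e1] at ht
      exact Or.inl ⟨b1, t, ht.1, DX.cube_end4 hB (by rw [e1]; exact DX.dual4_Hm hG) ht⟩
    · rw [← e3] at ht
      exact Or.inl ⟨b3, t, ht.1, DX.cube_end4 hB (by rw [e3]; exact DX.dual4_Hm (DX.dual4_Nm hG)) ht⟩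
    · exact Or.inr ⟨bas hb, Fin 12, inferInstance, by simp, z, hz⟩
  · rcases DX.core4 hG' with ⟨t, ht⟩ | ⟨t, ht⟩ | ⟨t, ht⟩ | ⟨z, hz⟩
    · exact Or.inl ⟨bas hb, t, ht.1, DX.cross_end4 hB hG' ht⟩
    · rw [← DX.swp_img, ← e1] at ht
      exact Or.inl ⟨b1, t, ht.1, DX.cross_end4 hB (by rw [e1, DX.swp_img]; exact DX.dual4_Hm hG') ht⟩
    · rw [← DX.swp_img, ← DX.swp_img, ← e3] at ht
      exact Or.inl ⟨b3, t, ht.1, DX.cross_end4 hB
        (by rw [e3, DX.swp_img, DX.swp_img]; exact DX.dual4_Hm (DX.dual4_Nm hG')) ht⟩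
    · exact Or.inr ⟨bas hb, Fin 12, inferInstance, by simp, z, hz⟩

/-- Type `D_d`, `d ≥ 4`. -/
theorem main_D {d : ℕ} (hd : 4 ≤ d) {K : Set (EuclideanSpace ℝ (Fin d))} {o : EuclideanSpace ℝ (Fin d)}
    (hconv : Convex ℝ K) (hcomp : IsCompact K) (hint : (interior K).Nonempty) (h : SymD K o) : Good K o := by
  rcases Nat.lt_or_ge 4 d with h4 | h4
  · exact main_D5 h4 hconv hcomp hint h
  · obtain rfl : d = 4 := le_antisymm h4 hd
    exact main_D4 hconv hcomp hint h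

end Pool.Agent.Lib.MP_5e7226_co.RG
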