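import Mathlib

set_option autoImplicit false

/-! The angle between two simple roots. -/

namespace Pool.Agent.Lib.MP_5e7226_co.RG

/-- Two unit roots with a nonpositive product such that no root of their plane has coefficients of both
signs make an angle `π - π / m`. -/
theorem angles {V : Type*} [AddCommGroup V] [Module ℝ V] (B : V →ₗ[ℝ] V →ₗ[ℝ] ℝ)
    (hs : ∀ x y, B x y = B y x) {Φ : Set V} (hΦ : ∀ r ∈ Φ, ∀ x ∈ Φ, x - (2 * B r x) • r ∈ Φ)
    {a b : V} (ha : a ∈ Φ) (hb : b ∈ Φ) (haa : B a a = 1) (hbb : B b b = 1)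
    (hab : LinearIndependent ℝ ![a, b]) (hle : B a b ≤ 0) (hpd : ∀ x, x ≠ 0 → 0 < B x x)
    (hone : ∀ s t : ℝ, s • a + t • b ∈ Φ → (0 ≤ s ∧ 0 ≤ t) ∨ (s ≤ 0 ∧ t ≤ 0)) :
    ∃ m : ℕ, 2 ≤ m ∧ B a b = -Real.cos (Real.pi / m) := by
  obtain ⟨c, hc⟩ : ∃ c : ℝ, c = -B a b := ⟨_, rfl⟩
  have hab' : B a b = -c := by linarith
  have hba : B b a = -c := by rw [hs]; exact hab'
  have hc0 : 0 ≤ c := by linarith
  have hc1 : c < 1 := by
    have h1 : a + b ≠ 0 := by
      intro h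
      have h2 := (LinearIndependent.pair_iff.1 hab) 1 1 (by simpa using h)
      exact one_ne_zero h2.1
    have h2 := hpd _ h1
    simp only [map_add, LinearMap.add_apply, haa, hbb, hab', hba] at h2
    linarith
  obtain ⟨f, hf⟩ : ∃ f : ℝ, f = Real.arccos c := ⟨_, rfl⟩
  have hcos : Real.cos f = c := by rw [hf]; exact Real.cos_arccos (by linarith) hc1.le
  have hf0 : 0 < f := by rw [hf]; exact Real.arccos_pos.2 hc1
  have hf2 : f ≤ Real.pi / 2 := by rw [hf]; exact Real.arccos_le_pi_div_two.2 hc0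
  have hpi := Real.pi_pos
  have hsin : 0 < Real.sin f := Real.sin_pos_of_pos_of_lt_pi hf0 (by linarith)
  -- the recursion
  have hrec : ∀ n : ℕ, 2 * c * Real.sin (((n + 1 : ℕ) : ℝ) * f) - Real.sin ((n : ℝ) * f) =
      Real.sin (((n + 2 : ℕ) : ℝ) * f) := by
    intro n
    have h1 : ((n + 2 : ℕ) : ℝ) * f = ((n + 1 : ℕ) : ℝ) * f + f := by push_cast; ring
    have h2 : (n : ℝ) * f = ((n + 1 : ℕ) : ℝ) * f - f := by push_cast; ring
    rw [h1, h2, Real.sin_add, Real.sin_sub, hcos]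
    ring
  have ra : ∀ s t : ℝ, s • a + t • b ∈ Φ → (2 * c * t - s) • a + t • b ∈ Φ := by
    intro s t h
    have h1 := hΦ a ha _ h
    have h2 : s • a + t • b - (2 * B a (s • a + t • b)) • a = (2 * c * t - s) • a + t • b := by
      rw [map_add, map_smul, map_smul, haa, hab', smul_eq_mul, smul_eq_mul]
      module
    rwa [h2] at h1
  have rb : ∀ s t : ℝ, s • a + t • b ∈ Φ → s • a + (2 * c * s - t) • b ∈ Φ := by
    intro s t h
    have h1 := hΦ b hb _ h
    have h2 : s • a + t • b - (2 * B b (s • a + t • b)) • b = s • a + (2 * c * s - t) • b := by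
      rw [map_add, map_smul, map_smul, hbb, hba, smul_eq_mul, smul_eq_mul]
      module
    rwa [h2] at h1
  have key : ∀ n : ℕ,
      (Real.sin (((n + 1 : ℕ) : ℝ) * f) / Real.sin f) • a + (Real.sin ((n : ℝ) * f) / Real.sin f) • b ∈ Φ ∧
      (Real.sin ((n : ℝ) * f) / Real.sin f) • a + (Real.sin (((n + 1 : ℕ) : ℝ) * f) / Real.sin f) • b ∈ Φ := by
    intro n
    induction n with
    | zero =>
      have h1 : Real.sin (((0 + 1 : ℕ) : ℝ) * f) / Real.sin f = 1 := by
        simp [hsin.ne']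
      have h2 : Real.sin (((0 : ℕ) : ℝ) * f) / Real.sin f = 0 := by simp
      rw [h1, h2]
      simpa using ⟨ha, hb⟩
    | succ n ih =>
      have h1 : 2 * c * (Real.sin (((n + 1 : ℕ) : ℝ) * f) / Real.sin f) - Real.sin ((n : ℝ) * f) / Real.sin f =
          Real.sin (((n + 1 + 1 : ℕ) : ℝ) * f) / Real.sin f := by
        rw [show n + 1 + 1 = n + 2 from rfl, ← hrec n]
        ring
      constructor
      · have := ra _ _ ih.2
        rwa [h1] at this
      · have := rb _ _ ih.1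
        rwa [h1] at this
  -- the first multiple of the angle beyond `π`
  have hex : ∃ n : ℕ, Real.pi ≤ (n : ℝ) * f := by
    obtain ⟨n, hn⟩ := exists_nat_ge (Real.pi / f)
    exact ⟨n, (div_le_iff₀ hf0).1 hn⟩
  classical
  obtain ⟨n, hn, hmin⟩ : ∃ n : ℕ, Real.pi ≤ (n : ℝ) * f ∧ ∀ k < n, (k : ℝ) * f < Real.pi :=
    ⟨Nat.find hex, Nat.find_spec hex, fun k hk => not_le.1 (Nat.find_min hex hk)⟩
  have hn2 : 2 ≤ n := by
    by_contra hcon
    have h1 : (n : ℝ) ≤ 1 := by exact_mod_cast (by omega : n ≤ 1)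
    have h2 : (n : ℝ) * f ≤ 1 * f := mul_le_mul_of_nonneg_right h1 hf0.le
    linarith
  obtain ⟨k, rfl⟩ : ∃ k, n = k + 1 := ⟨n - 1, by omega⟩
  have hk : (k : ℝ) * f < Real.pi := hmin k (by omega)
  have hk1 : (1 : ℝ) ≤ k := by exact_mod_cast (by omega : 1 ≤ k)
  have hk0 : 0 < (k : ℝ) * f := by positivity
  have hsk : 0 < Real.sin ((k : ℝ) * f) := Real.sin_pos_of_pos_of_lt_pi hk0 hk
  have hnk : ((k + 1 : ℕ) : ℝ) * f = (k : ℝ) * f + f := by push_cast; ring
  have heq : ((k + 1 : ℕ) : ℝ) * f = Real.pi := by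
    refine le_antisymm ?_ hn
    by_contra hcon
    push Not at hcon
    have h1 : Real.sin (((k + 1 : ℕ) : ℝ) * f) < 0 := by
      have h2 : 0 < Real.sin (((k + 1 : ℕ) : ℝ) * f - Real.pi) := by
        refine Real.sin_pos_of_pos_of_lt_pi (by linarith) ?_
        rw [hnk]
        linarith
      rw [Real.sin_sub_pi] at h2
      linarith
    have h3 : Real.sin (((k + 1 : ℕ) : ℝ) * f) / Real.sin f < 0 := div_neg_of_neg_of_pos h1 hsin
    have h4 : 0 < Real.sin ((k : ℝ) * f) / Real.sin f := div_pos hsk hsin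
    rcases hone _ _ (key k).1 with h | h
    · linarith [h.1]
    · linarith [h.2]
  refine ⟨k + 1, hn2, ?_⟩
  have hpos : (0 : ℝ) < ((k + 1 : ℕ) : ℝ) := by positivity
  have h5 : Real.pi / ((k + 1 : ℕ) : ℝ) = f := by
    rw [div_eq_iff hpos.ne', mul_comm]
    exact heq.symm
  rw [h5, hcos, hab']

end Pool.Agent.Lib.MP_5e7226_co.RG
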