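import Pool.Agent.Lib.MP_5e7226_co.RG.Defs

set_option autoImplicit false

/-! Classification of the Coxeter diagrams, part 0: the vectors of a simple system, and the
configurations which cannot occur. -/

namespace Pool.Agent.Lib.MP_5e7226_co.RG

variable {V : Type*} [AddCommGroup V] [Module ℝ V] {d : ℕ}

/-- Unit vectors `α i` with the angles `π - π / M i j`, in an open half space. -/
structure Sys (B : V →ₗ[ℝ] V →ₗ[ℝ] ℝ) (ht : V →ₗ[ℝ] ℝ) (M : Matrix (Fin d) (Fin d) ℕ)
    (α : Fin d → V) : Prop where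
  symm : ∀ x y, B x y = B y x
  pos : ∀ x, x ≠ 0 → 0 < B x x
  ht : ∀ i, 0 < ht (α i)
  diag : ∀ i, M i i = 1
  two : ∀ i j, i ≠ j → 2 ≤ M i j
  gram : ∀ i j, B (α i) (α j) = -Real.cos (Real.pi / M i j)

theorem cos_mono {m k : ℕ} (hk : 1 ≤ k) (h : k ≤ m) :
    Real.cos (Real.pi / k) ≤ Real.cos (Real.pi / m) := by
  have hk' : (1 : ℝ) ≤ k := by exact_mod_cast hk
  have h' : (k : ℝ) ≤ m := by exact_mod_cast h
  have hpi := Real.pi_pos
  apply Real.cos_le_cos_of_nonneg_of_le_pi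
  · positivity
  · rw [div_le_iff₀ (by linarith)]
    nlinarith
  · exact div_le_div_of_nonneg_left hpi.le (by linarith) h'

namespace Sys

variable {B : V →ₗ[ℝ] V →ₗ[ℝ] ℝ} {ht : V →ₗ[ℝ] ℝ} {M : Matrix (Fin d) (Fin d) ℕ} {α : Fin d → V}

theorem b1 (h : Sys B ht M α) (i : Fin d) : B (α i) (α i) = 1 := by
  rw [h.gram, h.diag]
  simp

theorem b0 (h : Sys B ht M α) {i j : Fin d} (hij : i ≠ j) : B (α i) (α j) ≤ 0 := by
  rw [h.gram]
  have := cos_mono (k := 2) (by norm_num) (h.two i j hij)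
  have h2 : Real.cos (Real.pi / (2 : ℕ)) = 0 := by
    push_cast
    exact Real.cos_pi_div_two
  linarith

theorem b3 (h : Sys B ht M α) {i j : Fin d} (hij : 3 ≤ M i j) : B (α i) (α j) ≤ -(1 / 2) := by
  rw [h.gram]
  have := cos_mono (k := 3) (by norm_num) hij
  have h2 : Real.cos (Real.pi / (3 : ℕ)) = 1 / 2 := by
    push_cast
    exact Real.cos_pi_div_three
  linarith

theorem b4 (h : Sys B ht M α) {i j : Fin d} (hij : 4 ≤ M i j) :
    B (α i) (α j) ≤ -(Real.sqrt 2 / 2) := by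
  rw [h.gram]
  have := cos_mono (k := 4) (by norm_num) hij
  have h2 : Real.cos (Real.pi / (4 : ℕ)) = Real.sqrt 2 / 2 := by
    push_cast
    exact Real.cos_pi_div_four
  linarith

theorem b5 (h : Sys B ht M α) {i j : Fin d} (hij : 5 ≤ M i j) : B (α i) (α j) ≤ -(4 / 5) := by
  rw [h.gram]
  have := cos_mono (k := 5) (by norm_num) hij
  have h2 : Real.cos (Real.pi / (5 : ℕ)) = (1 + Real.sqrt 5) / 4 := by
    push_cast
    exact Real.cos_pi_div_five
  have h3 : (11 / 5 : ℝ) ≤ Real.sqrt 5 := by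
    apply Real.le_sqrt_of_sq_le
    norm_num
  linarith

theorem b6 (h : Sys B ht M α) {i j : Fin d} (hij : 6 ≤ M i j) :
    B (α i) (α j) ≤ -(Real.sqrt 3 / 2) := by
  rw [h.gram]
  have := cos_mono (k := 6) (by norm_num) hij
  have h2 : Real.cos (Real.pi / (6 : ℕ)) = Real.sqrt 3 / 2 := by
    push_cast
    exact Real.cos_pi_div_six
  linarith

theorem ne_of_two (h : Sys B ht M α) {i j : Fin d} (hij : 2 ≤ M i j) : i ≠ j := by
  rintro rfl
  have := h.diag i
  omega

theorem msymm (h : Sys B ht M α) (i j : Fin d) : M i j = M j i := by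
  rcases eq_or_ne i j with rfl | hij
  · rfl
  have h1 : Real.cos (Real.pi / M i j) = Real.cos (Real.pi / M j i) := by
    have := h.symm (α i) (α j)
    rw [h.gram, h.gram] at this
    linarith
  have ha : (2 : ℝ) ≤ M i j := by exact_mod_cast h.two i j hij
  have hb : (2 : ℝ) ≤ M j i := by exact_mod_cast h.two j i hij.symm
  have hpi := Real.pi_pos
  have h2 : Real.pi / M i j = Real.pi / M j i := by
    apply Real.injOn_cos _ _ h1
    · constructor
      · positivity
      · rw [div_le_iff₀ (by linarith)]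
        nlinarith
    · constructor
      · positivity
      · rw [div_le_iff₀ (by linarith)]
        nlinarith
  rw [div_eq_div_iff (by linarith) (by linarith)] at h2
  have h3 : ((M j i : ℕ) : ℝ) = M i j := mul_left_cancel₀ hpi.ne' h2
  exact_mod_cast h3.symm

/-- The principle of all exclusions. -/
theorem kill (h : Sys B ht M α) {z : V} (hz : 0 < ht z) (hB : B z z ≤ 0) : False := by
  have h0 : z ≠ 0 := by
    rintro rfl
    simp at hz
  exact absurd (h.pos z h0) (not_lt.mpr hB)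

/-- A cycle. -/
theorem kill_cycle (h : Sys B ht M α) {S : V} {a : Fin d} (hS : B S S ≤ 1) (hS0 : 0 ≤ ht S)
    (ha : B S (α a) ≤ -1) : False := by
  refine h.kill (z := S + α a) ?_ ?_
  · rw [map_add]
    linarith [h.ht a]
  · simp only [map_add, LinearMap.add_apply]
    rw [h.symm (α a) S, h.b1]
    linarith

/-- Two bonds `≥ 4`. -/
theorem kill_C (h : Sys B ht M α) {S : V} {a c : Fin d} (hac : a ≠ c) (hS : B S S ≤ 1)
    (hS0 : 0 ≤ ht S) (ha : B S (α a) ≤ -(Real.sqrt 2 / 2)) (hc : B S (α c) ≤ -(Real.sqrt 2 / 2)) :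
    False := by
  have h2 : Real.sqrt 2 * Real.sqrt 2 = 2 := Real.mul_self_sqrt (by norm_num)
  have h3 : 0 < Real.sqrt 2 := by positivity
  refine h.kill (z := Real.sqrt 2 • S + α a + α c) ?_ ?_
  · simp only [map_add, map_smul, smul_eq_mul]
    have := mul_nonneg h3.le hS0
    linarith [h.ht a, h.ht c]
  · simp only [map_add, map_smul, LinearMap.add_apply, LinearMap.smul_apply, smul_eq_mul]
    rw [h.symm (α a) S, h.symm (α c) S, h.symm (α c) (α a), h.b1, h.b1]
    have h4 := h.b0 hac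
    have h5 : Real.sqrt 2 * (Real.sqrt 2 * B S S) ≤ 2 := by
      rw [← mul_assoc, h2]
      linarith
    have h6 : Real.sqrt 2 * B S (α a) ≤ -1 := by nlinarith
    have h7 : Real.sqrt 2 * B S (α c) ≤ -1 := by nlinarith
    linarith

/-- A fork and a bond `≥ 4`. -/
theorem kill_B (h : Sys B ht M α) {S : V} {a b c : Fin d} (hab : a ≠ b) (hac : a ≠ c) (hbc : b ≠ c)
    (hS : B S S ≤ 1) (hS0 : 0 ≤ ht S) (ha : B S (α a) ≤ -(1 / 2)) (hb : B S (α b) ≤ -(1 / 2))
    (hc : B S (α c) ≤ -(Real.sqrt 2 / 2)) : False := by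
  have h2 : Real.sqrt 2 * Real.sqrt 2 = 2 := Real.mul_self_sqrt (by norm_num)
  have h3 : 0 < Real.sqrt 2 := by positivity
  refine h.kill (z := (2 : ℝ) • S + α a + α b + Real.sqrt 2 • α c) ?_ ?_
  · simp only [map_add, map_smul, smul_eq_mul]
    have := mul_pos h3 (h.ht c)
    linarith [h.ht a, h.ht b]
  · simp only [map_add, map_smul, LinearMap.add_apply, LinearMap.smul_apply, smul_eq_mul]
    rw [h.symm (α a) S, h.symm (α b) S, h.symm (α c) S, h.symm (α b) (α a), h.symm (α c) (α a),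
      h.symm (α c) (α b), h.b1, h.b1, h.b1]
    have h4 := h.b0 hab
    have h5 := mul_nonpos_of_nonneg_of_nonpos h3.le (h.b0 hac)
    have h6 := mul_nonpos_of_nonneg_of_nonpos h3.le (h.b0 hbc)
    have h7 : Real.sqrt 2 * B S (α c) ≤ -1 := by nlinarith
    linarith

/-- Two forks, or a node with four neighbours. -/
theorem kill_D (h : Sys B ht M α) {S : V} {a b c e : Fin d} (hab : a ≠ b) (hac : a ≠ c)
    (hae : a ≠ e) (hbc : b ≠ c) (hbe : b ≠ e) (hce : c ≠ e)
    (hS : B S S ≤ 1) (hS0 : 0 ≤ ht S) (ha : B S (α a) ≤ -(1 / 2)) (hb : B S (α b) ≤ -(1 / 2))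
    (hc : B S (α c) ≤ -(1 / 2)) (he : B S (α e) ≤ -(1 / 2)) : False := by
  refine h.kill (z := (2 : ℝ) • S + α a + α b + α c + α e) ?_ ?_
  · simp only [map_add, map_smul, smul_eq_mul]
    linarith [h.ht a, h.ht b, h.ht c, h.ht e]
  · simp only [map_add, map_smul, LinearMap.add_apply, LinearMap.smul_apply, smul_eq_mul]
    rw [h.symm (α a) S, h.symm (α b) S, h.symm (α c) S, h.symm (α e) S, h.symm (α b) (α a),
      h.symm (α c) (α a), h.symm (α c) (α b), h.symm (α e) (α a), h.symm (α e) (α b),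
      h.symm (α e) (α c), h.b1, h.b1, h.b1, h.b1]
    linarith [h.b0 hab, h.b0 hac, h.b0 hae, h.b0 hbc, h.b0 hbe, h.b0 hce]

end Sys

end Pool.Agent.Lib.MP_5e7226_co.RG
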