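import Pool.Agent.Lib.MP_5e7226_co.RG.Cl0

set_option autoImplicit false

/-! Classification of the Coxeter diagrams, part 1: paths. -/

namespace Pool.Agent.Lib.MP_5e7226_co.RG

variable {V : Type*} [AddCommGroup V] [Module ℝ V] {d : ℕ}

/-- `p 0, ..., p (n - 1)` is a path in the Coxeter graph. -/
structure IsPath (M : Matrix (Fin d) (Fin d) ℕ) (n : ℕ) (p : ℕ → Fin d) : Prop where
  inj : ∀ k, k < n → ∀ l, l < n → p k = p l → k = l
  adj : ∀ k, k + 1 < n → 3 ≤ M (p k) (p (k + 1))

namespace IsPath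

variable {M : Matrix (Fin d) (Fin d) ℕ} {n : ℕ} {p : ℕ → Fin d}

theorem le (h : IsPath M n p) : n ≤ d := by
  have := Fintype.card_le_of_injective (fun k : Fin n => p k) (fun k l hkl =>
    Fin.ext (h.inj k k.2 l l.2 hkl))
  simpa using this

theorem ne (h : IsPath M n p) {k l : ℕ} (hk : k < n) (hl : l < n) (hkl : k ≠ l) : p k ≠ p l :=
  fun h' => hkl (h.inj k hk l hl h')

/-- There is a longest path. -/
theorem exists_max (M : Matrix (Fin d) (Fin d) ℕ) (hd : 1 ≤ d) :
    ∃ (n : ℕ) (p : ℕ → Fin d), IsPath M n p ∧ 1 ≤ n ∧ ∀ (m : ℕ) (q : ℕ → Fin d),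
      IsPath M m q → m ≤ n := by
  classical
  let P : ℕ → Prop := fun n => ∃ p : ℕ → Fin d, IsPath M n p
  have h1 : P 1 := ⟨fun _ => ⟨0, hd⟩, ⟨fun k hk l hl _ => by omega, fun k hk => by omega⟩⟩
  obtain ⟨p, hp⟩ := Nat.findGreatest_spec (P := P) hd h1
  refine ⟨Nat.findGreatest P d, p, hp, Nat.le_findGreatest hd h1, fun m q hq => ?_⟩
  exact Nat.le_findGreatest hq.le ⟨q, hq⟩

theorem reverse (hM : ∀ i j, M i j = M j i) (h : IsPath M n p) :
    IsPath M n (fun k => p (n - 1 - k)) := by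
  refine ⟨fun k hk l hl hkl => ?_, fun k hk => ?_⟩
  · have := h.inj (n - 1 - k) (by omega) (n - 1 - l) (by omega) hkl
    omega
  · have h1 := h.adj (n - 1 - (k + 1)) (by omega)
    have h2 : n - 1 - (k + 1) + 1 = n - 1 - k := by omega
    rw [h2] at h1
    rw [hM]
    exact h1

theorem drop (h : IsPath M n p) {i : ℕ} : IsPath M (n - i) (fun k => p (i + k)) := by
  refine ⟨fun k hk l hl hkl => ?_, fun k hk => ?_⟩
  · have := h.inj (i + k) (by omega) (i + l) (by omega) hkl
    omega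
  · exact h.adj (i + k) (by omega)

theorem cons (h : IsPath M n p) {u : Fin d} (hu : ∀ k, k < n → p k ≠ u)
    (hadj : 3 ≤ M u (p 0)) : IsPath M (n + 1) (fun k => if k = 0 then u else p (k - 1)) := by
  refine ⟨fun k hk l hl hkl => ?_, fun k hk => ?_⟩
  · rcases Nat.eq_zero_or_pos k with rfl | hk0
    · rcases Nat.eq_zero_or_pos l with rfl | hl0
      · rfl
      · simp only [if_true, if_neg hl0.ne'] at hkl
        exact absurd hkl.symm (hu _ (by omega))
    · rcases Nat.eq_zero_or_pos l with rfl | hl0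
      · simp only [if_true, if_neg hk0.ne'] at hkl
        exact absurd hkl (hu _ (by omega))
      · simp only [if_neg hk0.ne', if_neg hl0.ne'] at hkl
        have := h.inj (k - 1) (by omega) (l - 1) (by omega) hkl
        omega
  · rcases Nat.eq_zero_or_pos k with rfl | hk0
    · simpa using hadj
    · have h1 := h.adj (k - 1) (by omega)
      have h2 : k - 1 + 1 = k + 1 - 1 := by omega
      simp only [if_neg hk0.ne', if_neg (Nat.succ_ne_zero k)]
      rw [h2] at h1
      exact h1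

end IsPath

theorem sum_le_one {r : ℕ} {f : ℕ → ℝ} (hf : ∀ k < r, f k ≤ 0) {k : ℕ} (hk : k < r) :
    ∑ k ∈ Finset.range r, f k ≤ f k := by
  rw [← Finset.add_sum_erase _ _ (Finset.mem_range.2 hk)]
  have : ∑ x ∈ (Finset.range r).erase k, f x ≤ 0 :=
    Finset.sum_nonpos fun x hx => hf x (Finset.mem_range.1 (Finset.mem_of_mem_erase hx))
  linarith

theorem sum_le_two {r : ℕ} {f : ℕ → ℝ} (hf : ∀ k < r, f k ≤ 0) {k l : ℕ} (hk : k < r)
    (hl : l < r) (hkl : k ≠ l) : ∑ k ∈ Finset.range r, f k ≤ f k + f l := by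
  rw [← Finset.add_sum_erase _ _ (Finset.mem_range.2 hk),
    ← Finset.add_sum_erase _ _ (Finset.mem_erase.2 ⟨hkl.symm, Finset.mem_range.2 hl⟩)]
  have : ∑ x ∈ ((Finset.range r).erase k).erase l, f x ≤ 0 :=
    Finset.sum_nonpos fun x hx => hf x (Finset.mem_range.1 (Finset.mem_of_mem_erase
      (Finset.mem_of_mem_erase hx)))
  linarith

namespace Sys

variable {B : V →ₗ[ℝ] V →ₗ[ℝ] ℝ} {ht : V →ₗ[ℝ] ℝ} {M : Matrix (Fin d) (Fin d) ℕ} {α : Fin d → V}
  {n : ℕ} {p : ℕ → Fin d}

/-- The sum of `r` consecutive vectors. -/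
def seg (α : Fin d → V) (p : ℕ → Fin d) (i r : ℕ) : V := ∑ k ∈ Finset.range r, α (p (i + k))

theorem seg_ht (h : Sys B ht M α) (p : ℕ → Fin d) (i r : ℕ) : 0 ≤ ht (seg α p i r) := by
  rw [seg, map_sum]
  exact Finset.sum_nonneg fun k _ => (h.ht _).le

theorem seg_B (p : ℕ → Fin d) (i r : ℕ) (x : V) :
    B (seg α p i r) x = ∑ k ∈ Finset.range r, B (α (p (i + k))) x := by
  rw [seg, map_sum, LinearMap.sum_apply]

theorem seg_le1 (h : Sys B ht M α) {i r : ℕ} {a : Fin d} (ha : ∀ k < r, p (i + k) ≠ a) {k : ℕ}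
    (hk : k < r) : B (seg α p i r) (α a) ≤ B (α (p (i + k))) (α a) := by
  rw [seg_B]
  exact sum_le_one (f := fun k => B (α (p (i + k))) (α a)) (fun k hk => h.b0 (ha k hk)) hk

theorem seg_le2 (h : Sys B ht M α) {i r : ℕ} {a : Fin d} (ha : ∀ k < r, p (i + k) ≠ a) {k l : ℕ}
    (hk : k < r) (hl : l < r) (hkl : k ≠ l) :
    B (seg α p i r) (α a) ≤ B (α (p (i + k))) (α a) + B (α (p (i + l))) (α a) := by
  rw [seg_B]
  exact sum_le_two (f := fun k => B (α (p (i + k))) (α a)) (fun k hk => h.b0 (ha k hk)) hk hl hkl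

theorem seg_self (h : Sys B ht M α) (hp : IsPath M n p) {i : ℕ} :
    ∀ r, i + r + 1 ≤ n → B (seg α p i (r + 1)) (seg α p i (r + 1)) ≤ 1 := by
  intro r
  induction r with
  | zero =>
    intro _
    simp only [seg, zero_add, Finset.sum_range_one, add_zero]
    exact (h.b1 _).le
  | succ r ih =>
    intro hr
    have h1 := ih (by omega)
    have h2 : seg α p i (r + 1 + 1) = seg α p i (r + 1) + α (p (i + (r + 1))) := by
      simp only [seg]
      rw [Finset.sum_range_succ]
    have h3 : B (seg α p i (r + 1)) (α (p (i + (r + 1)))) ≤ -(1 / 2) := by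
      refine (h.seg_le1 (fun k hk => hp.ne (by omega) (by omega) (by omega))
        (Nat.lt_succ_self r)).trans ?_
      exact h.b3 (hp.adj (i + r) (by omega))
    rw [h2]
    simp only [map_add, LinearMap.add_apply]
    rw [h.symm (α (p (i + (r + 1)))) (seg α p i (r + 1)), h.b1]
    linarith

/-- Nonadjacent nodes of a path are not joined. -/
theorem chord (h : Sys B ht M α) (hp : IsPath M n p) {k l : ℕ} (hkl : k + 1 < l) (hl : l < n) :
    M (p k) (p l) = 2 := by
  by_contra hne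
  have h2 := h.two (p k) (p l) (hp.ne (by omega) hl (by omega))
  have h3 : 3 ≤ M (p k) (p l) := by omega
  refine h.kill_cycle (S := seg α p k (l - k - 1 + 1)) (a := p l)
    (h.seg_self hp _ (by omega)) (h.seg_ht _ _ _) ?_
  refine (h.seg_le2 (k := 0) (l := l - k - 1) (fun m hm => hp.ne (by omega) hl (by omega))
    (by omega) (by omega) (by omega)).trans ?_
  have h4 := h.b3 h3
  have h5 := h.b3 (hp.adj (k + (l - k - 1)) (by omega))
  have h6 : k + (l - k - 1) + 1 = l := by omega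
  rw [h6] at h5
  rw [add_zero]
  linarith

end Sys

/-- The last step: `M` has one of the listed matrices up to a permutation. -/
theorem of_map {M N : Matrix (Fin d) (Fin d) ℕ} {f : Fin d → Fin d} (hf : Function.Injective f)
    (hN : FiniteType d N) (hM : ∀ i j, M (f i) (f j) = N i j) :
    ∃ σ : Equiv.Perm (Fin d), FiniteType d (fun i j => M (σ i) (σ j)) := by
  refine ⟨Equiv.ofBijective f (Finite.injective_iff_bijective.1 hf), ?_⟩
  have : (fun i j => M ((Equiv.ofBijective f (Finite.injective_iff_bijective.1 hf)) i)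
      ((Equiv.ofBijective f (Finite.injective_iff_bijective.1 hf)) j)) = N := by
    funext i j
    exact hM i j
  rw [this]
  exact hN

end Pool.Agent.Lib.MP_5e7226_co.RG
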