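import Pool.Agent.Lib.MP_5e7226_co.RG.Cl1

set_option autoImplicit false

/-! Classification of the Coxeter diagrams, part 2: the diagrams which are paths. -/

namespace Pool.Agent.Lib.MP_5e7226_co.RG

variable {V : Type*} [AddCommGroup V] [Module ℝ V] {d : ℕ}

namespace Sys

variable {B : V →ₗ[ℝ] V →ₗ[ℝ] ℝ} {ht : V →ₗ[ℝ] ℝ} {M : Matrix (Fin d) (Fin d) ℕ} {α : Fin d → V}
  {n : ℕ} {p : ℕ → Fin d}

/-- A combination of consecutive vectors. -/
def wseg (α : Fin d → V) (p : ℕ → Fin d) (x : ℕ → ℝ) (s r : ℕ) : V :=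
  ∑ k ∈ Finset.range r, x k • α (p (s + k))

theorem wseg_ht (h : Sys B ht M α) (p : ℕ → Fin d) {x : ℕ → ℝ} {s k : ℕ}
    (hx : ∀ i ≤ k, 0 < x i) : 0 < ht (wseg α p x s (k + 1)) := by
  rw [wseg, map_sum]
  apply Finset.sum_pos
  · intro i hi
    rw [map_smul, smul_eq_mul]
    exact mul_pos (hx i (by simpa [Nat.lt_succ_iff] using hi)) (h.ht _)
  · exact ⟨0, by simp⟩

theorem wseg_B (p : ℕ → Fin d) (x : ℕ → ℝ) (s r : ℕ) (y : V) :
    B (wseg α p x s r) y = ∑ k ∈ Finset.range r, x k * B (α (p (s + k))) y := by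
  rw [wseg, map_sum, LinearMap.sum_apply]
  simp only [map_smul, LinearMap.smul_apply, smul_eq_mul]

theorem wseg_le (h : Sys B ht M α) {x : ℕ → ℝ} {s k : ℕ} (hx : ∀ i ≤ k, 0 < x i) {a : Fin d}
    (ha : ∀ i ≤ k, p (s + i) ≠ a) {t : ℕ} (ht' : t ≤ k) :
    B (wseg α p x s (k + 1)) (α a) ≤ x t * B (α (p (s + t))) (α a) := by
  rw [wseg_B]
  exact sum_le_one (f := fun k => x k * B (α (p (s + k))) (α a))
    (fun i hi => mul_nonpos_of_nonneg_of_nonpos (hx i (by omega)).le (h.b0 (ha i (by omega))))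
    (by omega)

theorem wseg_self (h : Sys B ht M α) (hp : IsPath M n p) {s : ℕ} {x c : ℕ → ℝ} :
    ∀ k, s + k < n → (∀ i ≤ k, 0 < x i) →
      (∀ j < k, B (α (p (s + j))) (α (p (s + j + 1))) ≤ -c j) →
      B (wseg α p x s (k + 1)) (wseg α p x s (k + 1)) ≤
        ∑ i ∈ Finset.range (k + 1), x i ^ 2 - 2 * ∑ j ∈ Finset.range k, c j * (x j * x (j + 1)) := by
  intro k
  induction k with
  | zero =>
    intro _ hx _
    simp only [wseg, zero_add, Finset.sum_range_one, add_zero, Finset.range_zero, Finset.sum_empty,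
      mul_zero, sub_zero, map_smul, LinearMap.smul_apply, smul_eq_mul]
    rw [h.b1]
    nlinarith [hx 0 le_rfl]
  | succ k ih =>
    intro hk hx hc
    have h1 := ih (by omega) (fun i hi => hx i (by omega)) (fun j hj => hc j (by omega))
    have h2 : wseg α p x s (k + 1 + 1) = wseg α p x s (k + 1) + x (k + 1) • α (p (s + (k + 1))) := by
      simp only [wseg]
      rw [Finset.sum_range_succ]
    have h3 : B (wseg α p x s (k + 1)) (α (p (s + (k + 1)))) ≤ -(c k * x k) := by
      refine (h.wseg_le (fun i hi => hx i (by omega))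
        (fun i hi => hp.ne (by omega) (by omega) (by omega)) le_rfl).trans ?_
      have h4 := hc k (by omega)
      have h5 := hx k (by omega)
      rw [← add_assoc]
      nlinarith
    rw [h2, Finset.sum_range_succ, Finset.sum_range_succ (fun j => c j * (x j * x (j + 1)))]
    simp only [map_add, map_smul, LinearMap.add_apply, LinearMap.smul_apply, smul_eq_mul]
    rw [h.symm (α (p (s + (k + 1)))) (wseg α p x s (k + 1)), h.b1]
    have h6 := hx (k + 1) le_rfl
    nlinarith [mul_le_mul_of_nonneg_left h3 h6.le]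

/-- Exclusion of a weighted path. -/
theorem kill_path (h : Sys B ht M α) (hp : IsPath M n p) {s k : ℕ} (hs : s + k < n) {x c : ℕ → ℝ}
    (hx : ∀ i ≤ k, 0 < x i) (hc : ∀ j < k, B (α (p (s + j))) (α (p (s + j + 1))) ≤ -c j)
    (hval : ∑ i ∈ Finset.range (k + 1), x i ^ 2 ≤
      2 * ∑ j ∈ Finset.range k, c j * (x j * x (j + 1))) : False := by
  refine h.kill (z := wseg α p x s (k + 1)) (h.wseg_ht p hx) ?_
  have := h.wseg_self hp (s := s) (x := x) (c := c) k hs hx hc
  linarith

/-- At most one label `≥ 4`. -/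
theorem uniq4 (h : Sys B ht M α) (hp : IsPath M n p) {k l : ℕ} (hkl : k < l) (hl : l + 1 < n)
    (hk4 : 4 ≤ M (p k) (p (k + 1))) (hl4 : 4 ≤ M (p l) (p (l + 1))) : False := by
  refine h.kill_C (S := seg α p (k + 1) (l - k - 1 + 1)) (a := p k) (c := p (l + 1))
    (hp.ne (by omega) (by omega) (by omega)) (h.seg_self hp _ (by omega)) (h.seg_ht _ _ _) ?_ ?_
  · refine (h.seg_le1 (k := 0) (fun m hm => hp.ne (by omega) (by omega) (by omega))
      (by omega)).trans ?_
    apply h.b4
    rw [h.msymm]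
    exact hk4
  · refine (h.seg_le1 (k := l - k - 1) (fun m hm => hp.ne (by omega) (by omega) (by omega))
      (by omega)).trans ?_
    apply h.b4
    have h1 : k + 1 + (l - k - 1) = l := by omega
    rw [h1]
    exact hl4

/-- The entries of the Coxeter matrix along a path. -/
theorem entry (h : Sys B ht M α) (hp : IsPath M n p) {k l : ℕ} (hk : k < n) (hl : l < n) :
    M (p k) (p l) = if k = l then 1 else if k + 1 = l then M (p k) (p (k + 1)) else
      if l + 1 = k then M (p l) (p (l + 1)) else 2 := by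
  rcases lt_trichotomy k l with h1 | rfl | h1
  · rw [if_neg h1.ne]
    rcases Nat.eq_or_lt_of_le h1 with h2 | h2
    · have h3 : k + 1 = l := h2
      rw [if_pos h3, h3]
    · have h3 : k + 1 < l := h2
      rw [if_neg h3.ne, if_neg (by omega)]
      exact h.chord hp h3 hl
  · rw [if_pos rfl]
    exact h.diag _
  · rw [if_neg h1.ne']
    rcases Nat.eq_or_lt_of_le h1 with h2 | h2
    · have h3 : l + 1 = k := h2
      rw [if_neg (by omega), if_pos h3, h3]
      exact h.msymm _ _
    · have h3 : l + 1 < k := h2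
      rw [if_neg (by omega), if_neg h3.ne, h.msymm]
      exact h.chord hp h3 hk

theorem inj_of (hp : IsPath M d p) : Function.Injective (fun k : Fin d => p k) :=
  fun k l hkl => Fin.ext (hp.inj k k.2 l l.2 hkl)

/-- All labels `3`: type `A`. -/
theorem path_A (h : Sys B ht M α) (hd : 3 ≤ d) (hp : IsPath M d p)
    (h3 : ∀ k, k + 1 < d → M (p k) (p (k + 1)) = 3) :
    ∃ σ : Equiv.Perm (Fin d), FiniteType d (fun i j => M (σ i) (σ j)) := by
  refine of_map (inj_of hp) (FiniteType.A d hd) fun i j => ?_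
  have hi := i.2
  have hj := j.2
  change M (p i) (p j) = if i = j then 1 else if (j : ℕ) + 1 = i ∨ (i : ℕ) + 1 = j then 3 else 2
  rw [h.entry hp i.2 j.2]
  simp only [Fin.ext_iff]
  by_cases h1 : (i : ℕ) = j
  · rw [if_pos h1, if_pos h1]
  · rw [if_neg h1, if_neg h1]
    by_cases h2 : (i : ℕ) + 1 = j
    · rw [if_pos h2, if_pos (Or.inr h2), h3 _ (by omega)]
    · rw [if_neg h2]
      by_cases h4 : (j : ℕ) + 1 = i
      · rw [if_pos h4, if_pos (Or.inl h4), h3 _ (by omega)]
      · rw [if_neg h4, if_neg (by tauto)]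

/-- The last label is `4`, the others are `3`: type `B`. -/
theorem path_B (h : Sys B ht M α) (hd : 3 ≤ d) (hp : IsPath M d p)
    (h3 : ∀ k, k + 2 < d → M (p k) (p (k + 1)) = 3) (h4 : M (p (d - 2)) (p (d - 2 + 1)) = 4) :
    ∃ σ : Equiv.Perm (Fin d), FiniteType d (fun i j => M (σ i) (σ j)) := by
  refine of_map (inj_of hp) (FiniteType.B d hd) fun i j => ?_
  have hi := i.2
  have hj := j.2
  change M (p i) (p j) = if i = j then 1 else (if (i : ℕ) = d - 1 ∧ (j : ℕ) = d - 2 ∨
    (j : ℕ) = d - 1 ∧ (i : ℕ) = d - 2 then 4 else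
      (if (j : ℕ) + 1 = i ∨ (i : ℕ) + 1 = j then 3 else 2))
  rw [h.entry hp i.2 j.2]
  simp only [Fin.ext_iff]
  by_cases h1 : (i : ℕ) = j
  · rw [if_pos h1, if_pos h1]
  · rw [if_neg h1, if_neg h1]
    by_cases h2 : (i : ℕ) + 1 = j
    · rw [if_pos h2]
      by_cases h5 : (i : ℕ) = d - 2
      · rw [if_pos (Or.inr ⟨by omega, h5⟩), h5, h4]
      · rw [if_neg (by omega), if_pos (Or.inr h2), h3 _ (by omega)]
    · rw [if_neg h2]
      by_cases h5 : (j : ℕ) + 1 = i
      · rw [if_pos h5]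
        by_cases h6 : (j : ℕ) = d - 2
        · rw [if_pos (Or.inl ⟨by omega, h6⟩), h6, h4]
        · rw [if_neg (by omega), if_pos (Or.inl h5), h3 _ (by omega)]
      · rw [if_neg h5, if_neg (by omega), if_neg (by tauto)]

end Sys

end Pool.Agent.Lib.MP_5e7226_co.RG
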