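import Pool.Agent.Lib.MP_5e7226_co.RG.Cl2

set_option autoImplicit false

/-! Classification of the Coxeter diagrams, part 3: paths with a label `≥ 4`. -/

namespace Pool.Agent.Lib.MP_5e7226_co.RG

variable {V : Type*} [AddCommGroup V] [Module ℝ V] {d : ℕ}

namespace Sys

variable {B : V →ₗ[ℝ] V →ₗ[ℝ] ℝ} {ht : V →ₗ[ℝ] ℝ} {M : Matrix (Fin d) (Fin d) ℕ} {α : Fin d → V}
  {n : ℕ} {p : ℕ → Fin d}

/-- Labels `(≥ 6, ≥ 3)`. -/
theorem kill_G (h : Sys B ht M α) (hp : IsPath M n p) {s : ℕ} (hs : s + 2 < n)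
    (h6 : 6 ≤ M (p s) (p (s + 1))) : False := by
  have h2 : Real.sqrt 3 ^ 2 = 3 := Real.sq_sqrt (by norm_num)
  have h3 : 0 < Real.sqrt 3 := by positivity
  refine h.kill_path hp (s := s) (k := 2) hs
    (x := fun j => if j = 0 then Real.sqrt 3 else if j = 1 then 2 else 1)
    (c := fun j => if j = 0 then Real.sqrt 3 / 2 else 1 / 2) ?_ ?_ ?_
  · intro i _
    split_ifs <;> first | exact h3 | norm_num
  · intro j hj
    interval_cases j
    · exact h.b6 h6
    · exact h.b3 (hp.adj (s + 1) (by omega))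
  · norm_num [Finset.sum_range_succ]
    nlinarith

/-- Labels `(≥ 3, ≥ 5, ≥ 3)`. -/
theorem kill_353 (h : Sys B ht M α) (hp : IsPath M n p) {s : ℕ} (hs : s + 3 < n)
    (h5 : 5 ≤ M (p (s + 1)) (p (s + 2))) : False := by
  refine h.kill_path hp (s := s) (k := 3) hs
    (x := fun j => if j = 0 then 1 else if j = 3 then 1 else 2)
    (c := fun j => if j = 1 then 4 / 5 else 1 / 2) ?_ ?_ ?_
  · intro i _
    split_ifs <;> norm_num
  · intro j hj
    interval_cases j
    · exact h.b3 (hp.adj s (by omega))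
    · exact h.b5 h5
    · exact h.b3 (hp.adj (s + 2) (by omega))
  · norm_num [Finset.sum_range_succ]

/-- Labels `(≥ 3, ≥ 3, ≥ 3, ≥ 5)`. -/
theorem kill_3335 (h : Sys B ht M α) (hp : IsPath M n p) {s : ℕ} (hs : s + 4 < n)
    (h5 : 5 ≤ M (p (s + 3)) (p (s + 4))) : False := by
  refine h.kill_path hp (s := s) (k := 4) hs
    (x := fun j => if j = 0 then 1 else if j = 1 then 2 else if j = 2 then 3 else
      if j = 3 then 4 else 3)
    (c := fun j => if j = 3 then 4 / 5 else 1 / 2) ?_ ?_ ?_
  · intro i _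
    split_ifs <;> norm_num
  · intro j hj
    interval_cases j
    · exact h.b3 (hp.adj s (by omega))
    · exact h.b3 (hp.adj (s + 1) (by omega))
    · exact h.b3 (hp.adj (s + 2) (by omega))
    · exact h.b5 h5
  · norm_num [Finset.sum_range_succ]

/-- Labels `(≥ 3, ≥ 3, ≥ 4, ≥ 3)`. -/
theorem kill_3343 (h : Sys B ht M α) (hp : IsPath M n p) {s : ℕ} (hs : s + 4 < n)
    (h4 : 4 ≤ M (p (s + 2)) (p (s + 3))) : False := by
  have h2 : Real.sqrt 2 ^ 2 = 2 := Real.sq_sqrt (by norm_num)
  have h3 : 0 < Real.sqrt 2 := by positivity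
  refine h.kill_path hp (s := s) (k := 4) hs
    (x := fun j => if j = 0 then 1 else if j = 1 then 2 else if j = 2 then 3 else
      if j = 3 then 2 * Real.sqrt 2 else Real.sqrt 2)
    (c := fun j => if j = 2 then Real.sqrt 2 / 2 else 1 / 2) ?_ ?_ ?_
  · intro i _
    split_ifs <;> positivity
  · intro j hj
    interval_cases j
    · exact h.b3 (hp.adj s (by omega))
    · exact h.b3 (hp.adj (s + 1) (by omega))
    · exact h.b4 h4
    · exact h.b3 (hp.adj (s + 3) (by omega))
  · norm_num [Finset.sum_range_succ]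
    nlinarith

/-- The last label is `5`, the others are `3`: types `H₃` and `H₄`. -/
theorem path_H (h : Sys B ht M α) (hd : 3 ≤ d) (hp : IsPath M d p)
    (h3 : ∀ k, k + 2 < d → M (p k) (p (k + 1)) = 3) (h5 : M (p (d - 2)) (p (d - 2 + 1)) = 5) :
    ∃ σ : Equiv.Perm (Fin d), FiniteType d (fun i j => M (σ i) (σ j)) := by
  rcases lt_or_ge 4 d with h4 | h4
  · exfalso
    refine h.kill_3335 hp (s := d - 5) (by omega) ?_
    have e1 : d - 5 + 3 = d - 2 := by omega
    have e2 : d - 5 + 4 = d - 2 + 1 := by omega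
    rw [e1, e2, h5]
  · interval_cases d
    · refine of_map (inj_of hp) FiniteType.H3 fun i j => ?_
      rw [h.entry hp i.2 j.2]
      have h30 := h3 0 (by norm_num)
      have h51 : M (p 1) (p 2) = 5 := h5
      fin_cases i <;> fin_cases j <;> simp [CoxeterMatrix.H₃, h30, h51]
    · refine of_map (inj_of hp) FiniteType.H4 fun i j => ?_
      rw [h.entry hp i.2 j.2]
      have h30 := h3 0 (by norm_num)
      have h31 := h3 1 (by norm_num)
      have h52 : M (p 2) (p 3) = 5 := h5
      fin_cases i <;> fin_cases j <;> simp [CoxeterMatrix.H₄, h30, h31, h52]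

/-- A label `4` inside: type `F₄`. -/
theorem path_F (h : Sys B ht M α) (hp : IsPath M d p) {k : ℕ} (hk1 : 1 ≤ k) (hk2 : k + 2 < d)
    (h3 : ∀ l, l + 1 < d → l ≠ k → M (p l) (p (l + 1)) = 3) (h4 : M (p k) (p (k + 1)) = 4) :
    ∃ σ : Equiv.Perm (Fin d), FiniteType d (fun i j => M (σ i) (σ j)) := by
  rcases lt_or_ge 4 d with h5 | h5
  · exfalso
    rcases lt_or_ge 1 k with h6 | h6
    · refine h.kill_3343 hp (s := k - 2) (by omega) ?_
      have e1 : k - 2 + 2 = k := by omega
      have e2 : k - 2 + 3 = k + 1 := by omega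
      rw [e1, e2, h4]
    · have hk : k = 1 := by omega
      subst hk
      refine h.kill_3343 (hp.reverse h.msymm) (s := d - 5) (by omega) ?_
      have e1 : d - 1 - (d - 5 + 2) = 2 := by omega
      have e2 : d - 1 - (d - 5 + 3) = 1 := by omega
      simp only [e1, e2]
      rw [h.msymm, h4]
  · have hd : d = 4 := by omega
    subst hd
    have hk : k = 1 := by omega
    subst hk
    refine of_map (inj_of hp) FiniteType.F4 fun i j => ?_
    rw [h.entry hp i.2 j.2]
    have h30 := h3 0 (by norm_num) (by norm_num)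
    have h32 := h3 2 (by norm_num) (by norm_num)
    have h41 : M (p 1) (p 2) = 4 := h4
    fin_cases i <;> fin_cases j <;> simp [CoxeterMatrix.F₄, h30, h32, h41]

/-- The last label is `≥ 4`. -/
theorem path_end (h : Sys B ht M α) (hd : 3 ≤ d) (hp : IsPath M d p)
    (h4 : 4 ≤ M (p (d - 2)) (p (d - 2 + 1))) :
    ∃ σ : Equiv.Perm (Fin d), FiniteType d (fun i j => M (σ i) (σ j)) := by
  have h3 : ∀ k, k + 2 < d → M (p k) (p (k + 1)) = 3 := by
    intro k hk
    by_contra hne
    have h3 := hp.adj k (by omega)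
    exact h.uniq4 hp (k := k) (l := d - 2) (by omega) (by omega) (by omega) h4
  rcases lt_or_ge 5 (M (p (d - 2)) (p (d - 2 + 1))) with h6 | h6
  · exfalso
    refine h.kill_G (hp.reverse h.msymm) (s := 0) (by omega) ?_
    have e1 : d - 1 - 0 = d - 2 + 1 := by omega
    have e2 : d - 1 - (0 + 1) = d - 2 := by omega
    simp only [e1, e2]
    rw [h.msymm]
    exact h6
  · rcases Nat.eq_or_lt_of_le h4 with h7 | h7
    · exact h.path_B hd hp h3 h7.symm
    · exact h.path_H hd hp h3 (by omega)

/-- The diagrams which are paths. -/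
theorem path_all (h : Sys B ht M α) (hd : 3 ≤ d) (hp : IsPath M d p) :
    ∃ σ : Equiv.Perm (Fin d), FiniteType d (fun i j => M (σ i) (σ j)) := by
  by_cases hA : ∀ k, k + 1 < d → M (p k) (p (k + 1)) = 3
  · exact h.path_A hd hp hA
  · push Not at hA
    obtain ⟨k, hk, hne⟩ := hA
    have h4 : 4 ≤ M (p k) (p (k + 1)) := by
      have := hp.adj k hk
      omega
    rcases Nat.eq_or_lt_of_le (show k + 2 ≤ d from hk) with h1 | h1
    · refine h.path_end hd hp ?_
      have e : d - 2 = k := by omega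
      rw [e]
      exact h4
    · rcases Nat.eq_zero_or_pos k with rfl | h2
      · refine h.path_end hd (hp.reverse h.msymm) ?_
        have e1 : d - 1 - (d - 2) = 0 + 1 := by omega
        have e2 : d - 1 - (d - 2 + 1) = 0 := by omega
        simp only [e1, e2]
        rw [h.msymm]
        exact h4
      · -- the label is inside
        have h3 : ∀ l, l + 1 < d → l ≠ k → M (p l) (p (l + 1)) = 3 := by
          intro l hl hlk
          by_contra hne
          have h3 := hp.adj l hl
          rcases lt_or_gt_of_ne hlk with h5 | h5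
          · exact h.uniq4 hp h5 hk (by omega) h4
          · exact h.uniq4 hp h5 hl h4 (by omega)
        rcases Nat.eq_or_lt_of_le h4 with h5 | h5
        · exact h.path_F hp h2 h1 h3 h5.symm
        · exfalso
          refine h.kill_353 hp (s := k - 1) (by omega) ?_
          have e1 : k - 1 + 1 = k := by omega
          have e2 : k - 1 + 2 = k + 1 := by omega
          rw [e1, e2]
          exact h5

end Sys

end Pool.Agent.Lib.MP_5e7226_co.RG
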