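import Pool.Agent.Lib.MP_5e7226_co.RG.Cl2

set_option autoImplicit false

/-! Classification of the Coxeter diagrams, part 4: a longest path and a node off it. -/

namespace Pool.Agent.Lib.MP_5e7226_co.RG

variable {V : Type*} [AddCommGroup V] [Module ℝ V] {d : ℕ}

/-- The node `u` is not on the path. -/
def Off (n : ℕ) (p : ℕ → Fin d) (u : Fin d) : Prop := ∀ k, k < n → p k ≠ u

theorem Off.reverse {n : ℕ} {p : ℕ → Fin d} {u : Fin d} (hu : Off n p u) :
    Off n (fun k => p (n - 1 - k)) u := fun k hk => hu (n - 1 - k) (by omega)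

namespace Sys

variable {B : V →ₗ[ℝ] V →ₗ[ℝ] ℝ} {ht : V →ₗ[ℝ] ℝ} {M : Matrix (Fin d) (Fin d) ℕ} {α : Fin d → V}
  {n : ℕ} {p : ℕ → Fin d}

/-- Exclusion of a path with one more node `u` at the node `s + t`. -/
theorem kill_tri (h : Sys B ht M α) (hp : IsPath M n p) {s k t : ℕ} (hs : s + k < n) (htk : t ≤ k)
    {x : ℕ → ℝ} (hx : ∀ i ≤ k, 0 < x i) {u : Fin d} (hu : Off n p u) (hut : 3 ≤ M (p (s + t)) u)
    {y : ℝ} (hy : 0 ≤ y)
    (hval : ∑ i ∈ Finset.range (k + 1), x i ^ 2 + y ^ 2 ≤
      ∑ j ∈ Finset.range k, x j * x (j + 1) + y * x t) : False := by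
  have h1 := h.wseg_self hp (s := s) (x := x) (c := fun _ => 1 / 2) k hs hx
    (fun j hj => h.b3 (hp.adj (s + j) (by omega)))
  rw [← Finset.mul_sum] at h1
  have h2 := h.wseg_le (s := s) (p := p) hx (a := u) (fun i hi => hu (s + i) (by omega)) htk
  have h3 := h.b3 hut
  have h4 := hx t htk
  refine h.kill (z := wseg α p x s (k + 1) + y • α u) ?_ ?_
  · rw [map_add, map_smul, smul_eq_mul]
    have := h.wseg_ht p (s := s) hx
    have := mul_nonneg hy (h.ht u).le
    linarith
  · simp only [map_add, map_smul, LinearMap.add_apply, LinearMap.smul_apply, smul_eq_mul]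
    rw [h.symm (α u) (wseg α p x s (k + 1)), h.b1]
    have h5 : B (wseg α p x s (k + 1)) (α u) ≤ -(x t / 2) := by nlinarith
    have h6 := mul_le_mul_of_nonneg_left h5 hy
    nlinarith

/-- The same with a node `w` at `u`. -/
theorem kill_tri2 (h : Sys B ht M α) (hp : IsPath M n p) {s k t : ℕ} (hs : s + k < n) (htk : t ≤ k)
    {x : ℕ → ℝ} (hx : ∀ i ≤ k, 0 < x i) {u w : Fin d} (hu : Off n p u) (hw : Off n p w)
    (hut : 3 ≤ M (p (s + t)) u) (huw : 3 ≤ M u w)
    {y z : ℝ} (hy : 0 ≤ y) (hz : 0 ≤ z)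
    (hval : ∑ i ∈ Finset.range (k + 1), x i ^ 2 + y ^ 2 + z ^ 2 ≤
      ∑ j ∈ Finset.range k, x j * x (j + 1) + y * x t + y * z) : False := by
  have h1 := h.wseg_self hp (s := s) (x := x) (c := fun _ => 1 / 2) k hs hx
    (fun j hj => h.b3 (hp.adj (s + j) (by omega)))
  rw [← Finset.mul_sum] at h1
  have h2 := h.wseg_le (s := s) (p := p) hx (a := u) (fun i hi => hu (s + i) (by omega)) htk
  have h2' := h.wseg_le (s := s) (p := p) hx (a := w) (fun i hi => hw (s + i) (by omega)) htk
  have h3 := h.b3 hut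
  have h3' := h.b0 (hw (s + t) (by omega))
  have h3'' := h.b3 huw
  have h4 := hx t htk
  refine h.kill (z := wseg α p x s (k + 1) + y • α u + z • α w) ?_ ?_
  · rw [map_add, map_add, map_smul, map_smul, smul_eq_mul, smul_eq_mul]
    have := h.wseg_ht p (s := s) hx
    have := mul_nonneg hy (h.ht u).le
    have := mul_nonneg hz (h.ht w).le
    linarith
  · simp only [map_add, map_smul, LinearMap.add_apply, LinearMap.smul_apply, smul_eq_mul]
    rw [h.symm (α u) (wseg α p x s (k + 1)), h.symm (α w) (wseg α p x s (k + 1)),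
      h.symm (α w) (α u), h.b1, h.b1]
    have h5 : B (wseg α p x s (k + 1)) (α u) ≤ -(x t / 2) := by nlinarith
    have h5' : B (wseg α p x s (k + 1)) (α w) ≤ 0 := by nlinarith
    have h6 := mul_le_mul_of_nonneg_left h5 hy
    have h6' := mul_nonpos_of_nonneg_of_nonpos hz h5'
    have h7 := mul_le_mul_of_nonneg_left h3'' (mul_nonneg hy hz)
    nlinarith

variable {u : Fin d} {i : ℕ}

/-- A node off the path has at most one neighbour on it. -/
theorem fork_unique (h : Sys B ht M α) (hp : IsPath M n p) (hu : Off n p u) {j k : ℕ} (hjk : j < k)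
    (hk : k < n) (hj3 : 3 ≤ M (p j) u) (hk3 : 3 ≤ M (p k) u) : False := by
  refine h.kill_cycle (S := seg α p j (k - j + 1)) (a := u)
    (h.seg_self hp _ (by omega)) (h.seg_ht _ _ _) ?_
  refine (h.seg_le2 (k := 0) (l := k - j) (fun m hm => hu (j + m) (by omega))
    (by omega) (by omega) (by omega)).trans ?_
  have h1 := h.b3 hj3
  have h2 := h.b3 hk3
  have h3 : j + (k - j) = k := by omega
  rw [h3, add_zero]
  linarith

theorem fork_other (h : Sys B ht M α) (hp : IsPath M n p) (hu : Off n p u) (hi : i < n)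
    (hi3 : 3 ≤ M (p i) u) {j : ℕ} (hj : j < n) (hji : j ≠ i) : M (p j) u = 2 := by
  by_contra hne
  have h2 := h.two (p j) u (hu j hj)
  rcases lt_or_gt_of_ne hji with h3 | h3
  · exact h.fork_unique hp hu h3 hi (by omega) hi3
  · exact h.fork_unique hp hu h3 hj hi3 (by omega)

theorem fork_pos (h : Sys B ht M α) (hp : IsPath M n p)
    (hmax : ∀ (m : ℕ) (q : ℕ → Fin d), IsPath M m q → m ≤ n) (hu : Off n p u)
    (hi3 : 3 ≤ M (p i) u) : 1 ≤ i := by
  rcases Nat.eq_zero_or_pos i with rfl | h1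
  · exfalso
    have := hmax _ _ (hp.cons hu (by rw [h.msymm]; exact hi3))
    omega
  · exact h1

theorem fork_lt (h : Sys B ht M α) (hp : IsPath M n p)
    (hmax : ∀ (m : ℕ) (q : ℕ → Fin d), IsPath M m q → m ≤ n) (hu : Off n p u) (hi : i < n)
    (hi3 : 3 ≤ M (p i) u) : i + 1 < n := by
  have h1 := h.fork_pos (i := n - 1 - i) (hp.reverse h.msymm) hmax hu.reverse (by
    have e : n - 1 - (n - 1 - i) = i := by omega
    simp only [e]
    exact hi3)
  omega

/-- All labels at the fork are `3`. -/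
theorem fork_label (h : Sys B ht M α) (hp : IsPath M n p)
    (hmax : ∀ (m : ℕ) (q : ℕ → Fin d), IsPath M m q → m ≤ n) (hu : Off n p u) (hi : i < n)
    (hi3 : 3 ≤ M (p i) u) : M (p i) u = 3 := by
  by_contra hne
  have h1 := h.fork_pos hp hmax hu hi3
  have h2 := h.fork_lt hp hmax hu hi hi3
  have e : i - 1 + 1 = i := by omega
  refine h.kill_B (S := α (p i)) (a := p (i - 1)) (b := p (i + 1)) (c := u)
    (hp.ne (by omega) h2 (by omega)) (hu _ (by omega)) (hu _ h2) (h.b1 _).le (h.ht _).le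
    ?_ (h.b3 (hp.adj i h2)) (h.b4 (by omega))
  apply h.b3
  have h3 := hp.adj (i - 1) (by omega)
  rw [e] at h3
  rw [h.msymm]
  exact h3

theorem fork_label_ge (h : Sys B ht M α) (hp : IsPath M n p)
    (hmax : ∀ (m : ℕ) (q : ℕ → Fin d), IsPath M m q → m ≤ n) (hu : Off n p u) (hi : i < n)
    (hi3 : 3 ≤ M (p i) u) {j : ℕ} (hij : i ≤ j) (hj : j + 1 < n) : M (p j) (p (j + 1)) = 3 := by
  by_contra hne
  have h0 := hp.adj j hj
  have h1 := h.fork_pos hp hmax hu hi3
  have e : i - 1 + 1 = i := by omega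
  have e2 : i + (j - i) = j := by omega
  refine h.kill_B (S := seg α p i (j - i + 1)) (a := p (i - 1)) (b := u) (c := p (j + 1))
    (hu _ (by omega)) (hp.ne (by omega) (by omega) (by omega)) (hu _ (by omega)).symm
    (h.seg_self hp _ (by omega)) (h.seg_ht _ _ _) ?_ ?_ ?_
  · refine (h.seg_le1 (k := 0) (fun m hm => hp.ne (by omega) (by omega) (by omega))
      (by omega)).trans ?_
    apply h.b3
    have h3 := hp.adj (i - 1) (by omega)
    rw [e] at h3
    rw [h.msymm]
    exact h3
  · refine (h.seg_le1 (k := 0) (fun m hm => hu (i + m) (by omega)) (by omega)).trans ?_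
    exact h.b3 hi3
  · refine (h.seg_le1 (k := j - i) (fun m hm => hp.ne (by omega) (by omega) (by omega))
      (by omega)).trans ?_
    rw [e2]
    exact h.b4 (by omega)

theorem fork_labels (h : Sys B ht M α) (hp : IsPath M n p)
    (hmax : ∀ (m : ℕ) (q : ℕ → Fin d), IsPath M m q → m ≤ n) (hu : Off n p u) (hi : i < n)
    (hi3 : 3 ≤ M (p i) u) {j : ℕ} (hj : j + 1 < n) : M (p j) (p (j + 1)) = 3 := by
  rcases le_or_gt i j with hij | hij
  · exact h.fork_label_ge hp hmax hu hi hi3 hij hj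
  · have h1 := h.fork_label_ge (i := n - 1 - i) (hp.reverse h.msymm) hmax hu.reverse (by omega) (by
      have e : n - 1 - (n - 1 - i) = i := by omega
      simp only [e]
      exact hi3) (j := n - 1 - (j + 1)) (by omega) (by omega)
    have e1 : n - 1 - (n - 1 - (j + 1)) = j + 1 := by omega
    have e2 : n - 1 - (n - 1 - (j + 1) + 1) = j := by omega
    simp only [e1, e2] at h1
    rw [h.msymm]
    exact h1

/-- No second node at the path. -/
theorem fork_second (h : Sys B ht M α) (hp : IsPath M n p)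
    (hmax : ∀ (m : ℕ) (q : ℕ → Fin d), IsPath M m q → m ≤ n) (hu : Off n p u) (hi : i < n)
    (hi3 : 3 ≤ M (p i) u) {w : Fin d} (hw : Off n p w) (hwu : w ≠ u) {j : ℕ} (hij : i ≤ j)
    (hj : j < n) (hj3 : 3 ≤ M (p j) w) : False := by
  have h1 := h.fork_pos hp hmax hu hi3
  have h2 := h.fork_lt hp hmax hw hj hj3
  have e : i - 1 + 1 = i := by omega
  have e2 : i + (j - i) = j := by omega
  refine h.kill_D (S := seg α p i (j - i + 1)) (a := p (i - 1)) (b := u) (c := w) (e := p (j + 1))
    (hu _ (by omega)) (hw _ (by omega)) (hp.ne (by omega) (by omega) (by omega)) hwu.symm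
    (hu _ (by omega)).symm (hw _ (by omega)).symm
    (h.seg_self hp _ (by omega)) (h.seg_ht _ _ _) ?_ ?_ ?_ ?_
  · refine (h.seg_le1 (k := 0) (fun m hm => hp.ne (by omega) (by omega) (by omega))
      (by omega)).trans ?_
    apply h.b3
    have h3 := hp.adj (i - 1) (by omega)
    rw [e] at h3
    rw [h.msymm]
    exact h3
  · refine (h.seg_le1 (k := 0) (fun m hm => hu (i + m) (by omega)) (by omega)).trans ?_
    exact h.b3 hi3
  · refine (h.seg_le1 (k := j - i) (fun m hm => hw (i + m) (by omega)) (by omega)).trans ?_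
    rw [e2]
    exact h.b3 hj3
  · refine (h.seg_le1 (k := j - i) (fun m hm => hp.ne (by omega) (by omega) (by omega))
      (by omega)).trans ?_
    rw [e2]
    exact h.b3 (hp.adj j h2)

/-- A node `w` at `u`: the arm of the path on the left has at least two nodes. -/
theorem fork_two (h : Sys B ht M α) (hp : IsPath M n p)
    (hmax : ∀ (m : ℕ) (q : ℕ → Fin d), IsPath M m q → m ≤ n) (hu : Off n p u)
    (hi3 : 3 ≤ M (p i) u) {w : Fin d} (hw : Off n p w) (hwu : w ≠ u) (huw : 3 ≤ M u w)
    (hi : i < n) : 2 ≤ i := by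
  have h1 : IsPath M (n - i) (fun k => p (i + k)) := hp.drop
  have h2 : IsPath M (n - i + 1) (fun k => if k = 0 then u else p (i + (k - 1))) :=
    h1.cons (u := u) (fun k hk => hu (i + k) (by omega)) (by
      rw [add_zero, h.msymm]
      exact hi3)
  have h3 := h2.cons (u := w) (fun k hk => by
    rcases Nat.eq_zero_or_pos k with rfl | hk0
    · simpa using hwu.symm
    · simp only [if_neg hk0.ne']
      exact hw _ (by omega)) (by
      simp only [if_true]
      rw [h.msymm]
      exact huw)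
  have := hmax _ _ h3
  omega

/-- No node at `u`. -/
theorem fork_tail (h : Sys B ht M α) (hp : IsPath M n p)
    (hmax : ∀ (m : ℕ) (q : ℕ → Fin d), IsPath M m q → m ≤ n) (hu : Off n p u) (hi : i < n)
    (hi3 : 3 ≤ M (p i) u) {w : Fin d} (hw : Off n p w) (hwu : w ≠ u) (huw : 3 ≤ M u w) :
    False := by
  have h1 := h.fork_two hp hmax hu hi3 hw hwu huw hi
  have h2 := h.fork_two (i := n - 1 - i) (hp.reverse h.msymm) hmax hu.reverse (by
      have e : n - 1 - (n - 1 - i) = i := by omega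
      simp only [e]
      exact hi3) hw.reverse hwu huw (by omega)
  refine h.kill_tri2 hp (s := i - 2) (k := 4) (t := 2) (by omega) (by norm_num)
    (x := fun j => if j = 2 then 3 else if j = 1 then 2 else if j = 3 then 2 else 1) ?_ hu hw
    (by
      have e : i - 2 + 2 = i := by omega
      rw [e]
      exact hi3) huw (y := 2) (z := 1) (by norm_num) (by norm_num) ?_
  · intro j _
    split_ifs <;> norm_num
  · norm_num [Finset.sum_range_succ]

/-- Every node is on the path or equal to `u`. -/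
theorem fork_cover (h : Sys B ht M α) (hp : IsPath M n p)
    (hmax : ∀ (m : ℕ) (q : ℕ → Fin d), IsPath M m q → m ≤ n)
    (hconn : ∀ S : Set (Fin d), S.Nonempty → S ≠ Set.univ → ∃ i ∈ S, ∃ j ∉ S, 3 ≤ M i j)
    (hu : Off n p u) (hi : i < n) (hi3 : 3 ≤ M (p i) u) (x : Fin d) :
    (∃ k, k < n ∧ p k = x) ∨ x = u := by
  by_contra hx
  obtain ⟨a, ha, b, hb, hab⟩ := hconn {x | (∃ k, k < n ∧ p k = x) ∨ x = u} ⟨u, Or.inr rfl⟩
    (fun h' => hx (by
      have h1 : x ∈ {x | (∃ k, k < n ∧ p k = x) ∨ x = u} := by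
        rw [h']
        exact Set.mem_univ x
      exact h1))
  have hb' : Off n p b := fun k hk hkb => hb (Or.inl ⟨k, hk, hkb⟩)
  have hbu : b ≠ u := fun h' => hb (Or.inr h')
  rcases ha with ⟨k, hk, rfl⟩ | rfl
  · rcases le_total i k with h1 | h1
    · exact h.fork_second hp hmax hu hi hi3 hb' hbu h1 hk hab
    · exact h.fork_second hp hmax hb' hk hab hu hbu.symm h1 hi hi3
  · exact h.fork_tail hp hmax hu hi hi3 hb' hbu hab

end Sys

end Pool.Agent.Lib.MP_5e7226_co.RG
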