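import Pool.Agent.Lib.MP_5e7226_co.RG.Cl3
import Pool.Agent.Lib.MP_5e7226_co.RG.Cl4

set_option autoImplicit false

/-! Classification of the Coxeter diagrams, part 5: the theorem. -/

namespace Pool.Agent.Lib.MP_5e7226_co.RG

variable {V : Type*} [AddCommGroup V] [Module ℝ V] {d : ℕ}

/-- The entries of the diagram with the path `0, ..., n - 1` and a node `n` joined to the node `i`. -/
def forkVal (n i a b : ℕ) : ℕ :=
  if a = b then 1 else if (a + 1 = b ∧ b < n) ∨ (b + 1 = a ∧ a < n) ∨ (a = i ∧ b = n) ∨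
    (b = i ∧ a = n) then 3 else 2

/-- The nodes of a fork. -/
def fk (n : ℕ) (p : ℕ → Fin d) (u : Fin d) (a : ℕ) : Fin d := if a < n then p a else u

namespace Sys

variable {B : V →ₗ[ℝ] V →ₗ[ℝ] ℝ} {ht : V →ₗ[ℝ] ℝ} {M : Matrix (Fin d) (Fin d) ℕ} {α : Fin d → V}
  {n : ℕ} {p : ℕ → Fin d} {u : Fin d} {i : ℕ}

theorem fork_entry (h : Sys B ht M α) (hp : IsPath M n p)
    (hmax : ∀ (m : ℕ) (q : ℕ → Fin d), IsPath M m q → m ≤ n) (hu : Off n p u) (hi : i < n)
    (hi3 : 3 ≤ M (p i) u) {a b : ℕ} (ha : a ≤ n) (hb : b ≤ n) :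
    M (fk n p u a) (fk n p u b) = forkVal n i a b := by
  have key : ∀ a b : ℕ, a ≤ b → b ≤ n → M (fk n p u a) (fk n p u b) = forkVal n i a b := by
    intro a b hab hb
    rcases Nat.eq_or_lt_of_le hb with rfl | hbn
    · rcases Nat.eq_or_lt_of_le hab with rfl | hab'
      · simp [fk, forkVal, h.diag]
      · have e1 : fk b p u a = p a := if_pos hab'
        have e2 : fk b p u b = u := if_neg (lt_irrefl b)
        rw [e1, e2]
        rcases eq_or_ne a i with rfl | hai
        · rw [h.fork_label hp hmax hu hi hi3, forkVal, if_neg hab'.ne, if_pos (by omega)]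
        · rw [h.fork_other hp hu hi hi3 hab' hai, forkVal, if_neg hab'.ne, if_neg (by omega)]
    · have e1 : fk n p u a = p a := if_pos (by omega)
      have e2 : fk n p u b = p b := if_pos hbn
      rw [e1, e2, h.entry hp (by omega) hbn, forkVal]
      by_cases h1 : a = b
      · rw [if_pos h1, if_pos h1]
      · rw [if_neg h1, if_neg h1]
        by_cases h2 : a + 1 = b
        · rw [if_pos h2, if_pos (by omega)]
          exact h.fork_labels hp hmax hu hi hi3 (by omega)
        · rw [if_neg h2, if_neg (by omega), if_neg (by omega)]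
  have hsymm : forkVal n i a b = forkVal n i b a := by
    simp only [forkVal]
    by_cases h1 : a = b
    · rw [if_pos h1, if_pos h1.symm]
    · rw [if_neg h1, if_neg (Ne.symm h1)]
      congr 1
      apply propext
      tauto
  rcases le_total a b with hab | hab
  · exact key a b hab hb
  · rw [h.msymm, hsymm]
    exact key b a hab ha

theorem fk_inj (hp : IsPath M n p) (hu : Off n p u) {a b : ℕ} (ha : a ≤ n) (hb : b ≤ n)
    (hab : fk n p u a = fk n p u b) : a = b := by
  simp only [fk] at hab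
  split_ifs at hab with h1 h2 h2
  · exact hp.inj a h1 b h2 hab
  · exact absurd hab (hu a h1)
  · exact absurd hab.symm (hu b h2)
  · omega

theorem fork_card (h : Sys B ht M α) (hp : IsPath M n p)
    (hmax : ∀ (m : ℕ) (q : ℕ → Fin d), IsPath M m q → m ≤ n)
    (hconn : ∀ S : Set (Fin d), S.Nonempty → S ≠ Set.univ → ∃ i ∈ S, ∃ j ∉ S, 3 ≤ M i j)
    (hu : Off n p u) (hi : i < n) (hi3 : 3 ≤ M (p i) u) : d = n + 1 := by
  have h1 : Function.Bijective (fun k : Fin (n + 1) => fk n p u k) := by
    constructor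
    · intro a b hab
      exact Fin.ext (fk_inj hp hu (by omega) (by omega) hab)
    · intro x
      rcases h.fork_cover hp hmax hconn hu hi hi3 x with ⟨k, hk, hkx⟩ | hxu
      · exact ⟨⟨k, by omega⟩, by simpa [fk, hk] using hkx⟩
      · exact ⟨⟨n, by omega⟩, by simp [fk, hxu]⟩
  have := Fintype.card_of_bijective h1
  simpa using this.symm

/-- The final step in the fork case. -/
theorem fork_map (h : Sys B ht M α) (hp : IsPath M n p)
    (hmax : ∀ (m : ℕ) (q : ℕ → Fin d), IsPath M m q → m ≤ n) (hu : Off n p u) (hi : i < n)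
    (hi3 : 3 ≤ M (p i) u) {N : Matrix (Fin d) (Fin d) ℕ} (hN : FiniteType d N)
    (s : Fin d → ℕ) (hs : Function.Injective s) (hsn : ∀ a, s a ≤ n)
    (hval : ∀ a b, forkVal n i (s a) (s b) = N a b) :
    ∃ σ : Equiv.Perm (Fin d), FiniteType d (fun i j => M (σ i) (σ j)) := by
  refine of_map (f := fun a => fk n p u (s a)) (fun a b hab => ?_) hN fun a b => ?_
  · exact hs (fk_inj hp hu (hsn a) (hsn b) hab)
  · rw [h.fork_entry hp hmax hu hi hi3 (hsn a) (hsn b), hval]

/-- The fork case, the shorter arm first. -/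
theorem fork_all (h : Sys B ht M α) (hp : IsPath M n p)
    (hmax : ∀ (m : ℕ) (q : ℕ → Fin d), IsPath M m q → m ≤ n)
    (hconn : ∀ S : Set (Fin d), S.Nonempty → S ≠ Set.univ → ∃ i ∈ S, ∃ j ∉ S, 3 ≤ M i j)
    (hu : Off n p u) (hi : i < n) (hi3 : 3 ≤ M (p i) u) (hq : i ≤ n - 1 - i) :
    ∃ σ : Equiv.Perm (Fin d), FiniteType d (fun i j => M (σ i) (σ j)) := by
  have hd := h.fork_card hp hmax hconn hu hi hi3
  have h1 := h.fork_pos hp hmax hu hi3
  have h2 := h.fork_lt hp hmax hu hi hi3
  rcases Nat.eq_or_lt_of_le h1 with h3 | h3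
  · -- type `D`
    have hrev : 3 ≤ M (p (n - 1 - (n - 2))) u := by
      have e : n - 1 - (n - 2) = i := by omega
      rw [e]
      exact hi3
    refine h.fork_map (i := n - 2) (hp.reverse h.msymm) hmax hu.reverse (by omega) hrev
      (FiniteType.D d (by omega)) (fun a => (a : ℕ)) Fin.val_injective (fun a => by
        have := a.2
        change (a : ℕ) ≤ n
        omega) fun a b => ?_
    have ha := a.2
    have hb := b.2
    simp only [forkVal, matrixD, Fin.ext_iff]
    by_cases h4 : (a : ℕ) = b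
    · rw [if_pos h4, if_pos h4]
    · rw [if_neg h4, if_neg h4]
      congr 1
      apply propext
      omega
  · rcases Nat.eq_or_lt_of_le (show 2 ≤ i from h3) with h4 | h4
    · subst h4
      rcases lt_or_ge n 8 with h5 | h5
      · have h6 : 5 ≤ n := by omega
        interval_cases n
        · subst hd
          exact h.fork_map hp hmax hu hi hi3 FiniteType.E6 ![0, 5, 1, 2, 3, 4] (by decide)
            (by decide) (by decide)
        · subst hd
          exact h.fork_map hp hmax hu hi hi3 FiniteType.E7 ![0, 6, 1, 2, 3, 4, 5] (by decide)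
            (by decide) (by decide)
        · subst hd
          exact h.fork_map hp hmax hu hi hi3 FiniteType.E8 ![0, 7, 1, 2, 3, 4, 5, 6] (by decide)
            (by decide) (by decide)
      · exfalso
        refine h.kill_tri hp (s := 0) (k := 7) (t := 2) (by omega) (by norm_num)
          (x := fun j => if j = 0 then 2 else if j = 1 then 4 else 8 - (j : ℝ)) ?_ hu hi3
          (y := 3) (by norm_num) ?_
        · intro j hj
          interval_cases j <;> norm_num
        · norm_num [Finset.sum_range_succ]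
    · exfalso
      refine h.kill_tri hp (s := i - 3) (k := 6) (t := 3) (by omega) (by norm_num)
        (x := fun j => if j ≤ 3 then (j : ℝ) + 1 else 7 - (j : ℝ)) ?_ hu (by
          have e : i - 3 + 3 = i := by omega
          rw [e]
          exact hi3) (y := 2) (by norm_num) ?_
      · intro j hj
        interval_cases j <;> norm_num
      · norm_num [Finset.sum_range_succ]

end Sys

/-- The classification of the irreducible finite reflection groups of rank at least `3` by their
Coxeter matrices. -/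
theorem classify_sys {B : V →ₗ[ℝ] V →ₗ[ℝ] ℝ} {ht : V →ₗ[ℝ] ℝ} {M : Matrix (Fin d) (Fin d) ℕ}
    {α : Fin d → V} (h : Sys B ht M α) (hd : 3 ≤ d)
    (hconn : ∀ S : Set (Fin d), S.Nonempty → S ≠ Set.univ → ∃ i ∈ S, ∃ j ∉ S, 3 ≤ M i j) :
    ∃ σ : Equiv.Perm (Fin d), FiniteType d (fun i j => M (σ i) (σ j)) := by
  obtain ⟨n, p, hp, hn, hmax⟩ := IsPath.exists_max M (by omega)
  rcases Nat.eq_or_lt_of_le hp.le with rfl | hnd
  · exact h.path_all hd hp
  · -- a node off the path
    have hne : ({x | ∃ k, k < n ∧ p k = x} : Set (Fin d)) ≠ Set.univ := by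
      intro h1
      have h2 : Function.Surjective (fun k : Fin n => p k) := by
        intro x
        have h3 : x ∈ {x | ∃ k, k < n ∧ p k = x} := by
          rw [h1]
          exact Set.mem_univ x
        obtain ⟨k, hk, hkx⟩ := h3
        exact ⟨⟨k, hk⟩, hkx⟩
      have := Fintype.card_le_of_surjective _ h2
      simp only [Fintype.card_fin] at this
      omega
    obtain ⟨a, ⟨i, hi, rfl⟩, u, hu, hi3⟩ := hconn {x | ∃ k, k < n ∧ p k = x} ⟨p 0, 0, by omega, rfl⟩ hne
    have hu' : Off n p u := fun k hk hku => hu ⟨k, hk, hku⟩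
    rcases le_total i (n - 1 - i) with hq | hq
    · exact h.fork_all hp hmax hconn hu' hi hi3 hq
    · refine h.fork_all (i := n - 1 - i) (hp.reverse h.msymm) hmax hconn hu'.reverse (by omega) ?_
        (by omega)
      have e : n - 1 - (n - 1 - i) = i := by omega
      simp only [e]
      exact hi3

/-- The same, unbundled. -/
theorem classify_form (hd : 3 ≤ d) (B : V →ₗ[ℝ] V →ₗ[ℝ] ℝ) (hs : ∀ x y, B x y = B y x)
    (hpos : ∀ x, x ≠ 0 → 0 < B x x) {M : Matrix (Fin d) (Fin d) ℕ} {α : Fin d → V}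
    (hα : LinearIndependent ℝ α) (hdiag : ∀ i, M i i = 1) (htwo : ∀ i j, i ≠ j → 2 ≤ M i j)
    (hgram : ∀ i j, B (α i) (α j) = -Real.cos (Real.pi / M i j))
    (hconn : ∀ S : Set (Fin d), S.Nonempty → S ≠ Set.univ → ∃ i ∈ S, ∃ j ∉ S, 3 ≤ M i j) :
    ∃ σ : Equiv.Perm (Fin d), FiniteType d (fun i j => M (σ i) (σ j)) := by
  obtain ⟨g, hg⟩ : ∃ g : V →ₗ[ℝ] ℝ, ∀ i, g (α i) = 1 := by
    obtain ⟨g, hg⟩ := LinearMap.exists_leftInverse_of_injective (Finsupp.linearCombination ℝ α)
      (LinearMap.ker_eq_bot.2 hα)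
    refine ⟨(Finsupp.linearCombination ℝ (fun _ => (1 : ℝ))) ∘ₗ g, fun i => ?_⟩
    have h1 : g (α i) = Finsupp.single i 1 := by
      have h2 := LinearMap.congr_fun hg (Finsupp.single i 1)
      simpa using h2
    rw [LinearMap.comp_apply, h1]
    simp
  exact classify_sys (ht := g) ⟨hs, hpos, fun i => by rw [hg]; norm_num, hdiag, htwo, hgram⟩ hd hconn

end Pool.Agent.Lib.MP_5e7226_co.RG
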