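import Pool.Agent.Lib.MP_5e7226_co.RG.Defs

set_option autoImplicit false

/-! General lemmas for the rows Cv. -/

namespace Pool.Agent.Lib.MP_5e7226_co.RG

variable {d : ℕ}

/-- The linear map `g` maps `K` into itself about `o`. -/
def Inv (K : Set (EuclideanSpace ℝ (Fin d))) (o : EuclideanSpace ℝ (Fin d))
    (g : EuclideanSpace ℝ (Fin d) →ₗ[ℝ] EuclideanSpace ℝ (Fin d)) : Prop :=
  ∀ x, o + x ∈ K → o + g x ∈ K

theorem Inv.comp {K : Set (EuclideanSpace ℝ (Fin d))} {o : EuclideanSpace ℝ (Fin d)}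
    {g h : EuclideanSpace ℝ (Fin d) →ₗ[ℝ] EuclideanSpace ℝ (Fin d)} (hg : Inv K o g) (hh : Inv K o h) :
    Inv K o (g ∘ₗ h) := fun _ hx => hg _ (hh _ hx)

theorem Inv.id {K : Set (EuclideanSpace ℝ (Fin d))} {o : EuclideanSpace ℝ (Fin d)} :
    Inv K o LinearMap.id := fun _ hx => hx

/-- A basis from `d` independent vectors. -/
noncomputable def bas {α : Fin d → EuclideanSpace ℝ (Fin d)} (hα : LinearIndependent ℝ α) :
    Module.Basis (Fin d) ℝ (EuclideanSpace ℝ (Fin d)) :=
  basisOfLinearIndependentOfCardEqFinrank' α hα (by simp)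

theorem bas_apply {α : Fin d → EuclideanSpace ℝ (Fin d)} (hα : LinearIndependent ℝ α) (i : Fin d) :
    bas hα i = α i := by
  simp [bas]

theorem sum_bas {α : Fin d → EuclideanSpace ℝ (Fin d)} (hα : LinearIndependent ℝ α)
    (x : EuclideanSpace ℝ (Fin d)) : ∑ j, (bas hα).repr x j • α j = x := by
  have h := (bas hα).sum_repr x
  simpa only [bas_apply] using h

/-- A linear map which agrees with the `i`-th simple reflection on the simple roots. -/
theorem inv_of {M : Matrix (Fin d) (Fin d) ℕ} {α : Fin d → EuclideanSpace ℝ (Fin d)}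
    {o : EuclideanSpace ℝ (Fin d)} {K : Set (EuclideanSpace ℝ (Fin d))} (hα : LinearIndependent ℝ α)
    (h : Invariant M α o K) (i : Fin d)
    {g : EuclideanSpace ℝ (Fin d) →ₗ[ℝ] EuclideanSpace ℝ (Fin d)}
    (hg : ∀ j, g (α j) = α j + (2 * Real.cos (Real.pi / M i j)) • α i) : Inv K o g := by
  intro x hx
  rw [← sum_bas hα x] at hx ⊢
  have h1 := h i _ hx
  simpa only [map_sum, map_smul, hg] using h1

/-- The `i`-th simple reflection. -/
noncomputable def sr (M : Matrix (Fin d) (Fin d) ℕ) {α : Fin d → EuclideanSpace ℝ (Fin d)}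
    (hα : LinearIndependent ℝ α) (i : Fin d) :
    EuclideanSpace ℝ (Fin d) →ₗ[ℝ] EuclideanSpace ℝ (Fin d) :=
  (bas hα).constr ℝ (fun j => α j + (2 * Real.cos (Real.pi / M i j)) • α i)

theorem sr_apply (M : Matrix (Fin d) (Fin d) ℕ) {α : Fin d → EuclideanSpace ℝ (Fin d)}
    (hα : LinearIndependent ℝ α) (i j : Fin d) :
    sr M hα i (α j) = α j + (2 * Real.cos (Real.pi / M i j)) • α i := by
  have h := (bas hα).constr_basis ℝ (fun j => α j + (2 * Real.cos (Real.pi / M i j)) • α i) j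
  rw [bas_apply] at h
  exact h

theorem inv_sr {M : Matrix (Fin d) (Fin d) ℕ} {α : Fin d → EuclideanSpace ℝ (Fin d)}
    {o : EuclideanSpace ℝ (Fin d)} {K : Set (EuclideanSpace ℝ (Fin d))} (hα : LinearIndependent ℝ α)
    (h : Invariant M α o K) (i : Fin d) : Inv K o (sr M hα i) :=
  inv_of hα h i (sr_apply M hα i)

/-- Two linear maps which agree on the simple roots are equal. -/
theorem ext_bas {α : Fin d → EuclideanSpace ℝ (Fin d)} (hα : LinearIndependent ℝ α)
    {g h : EuclideanSpace ℝ (Fin d) →ₗ[ℝ] EuclideanSpace ℝ (Fin d)} (H : ∀ j, g (α j) = h (α j)) :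
    g = h := by
  refine (bas hα).ext fun j => ?_
  rw [bas_apply]
  exact H j

theorem cos_one : 2 * Real.cos (Real.pi / ((1 : ℕ) : ℝ)) = -2 := by
  simp

theorem cos_two : 2 * Real.cos (Real.pi / ((2 : ℕ) : ℝ)) = 0 := by
  simp

theorem cos_three : 2 * Real.cos (Real.pi / ((3 : ℕ) : ℝ)) = 1 := by
  have h := Real.cos_pi_div_three
  push_cast
  rw [h]
  norm_num

theorem cos_four : 2 * Real.cos (Real.pi / ((4 : ℕ) : ℝ)) = Real.sqrt 2 := by
  have h := Real.cos_pi_div_four
  push_cast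
  rw [h]
  ring

theorem cos_five : 2 * Real.cos (Real.pi / ((5 : ℕ) : ℝ)) = (1 + Real.sqrt 5) / 2 := by
  have h := Real.cos_pi_div_five
  push_cast
  rw [h]
  ring

end Pool.Agent.Lib.MP_5e7226_co.RG
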