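import Pool.Agent.Lib.MP_5e7226_co.RG.Cv0

set_option autoImplicit false

namespace Pool.Agent.Lib.MP_5e7226_co.RG

variable {d : ℕ}

/-- The partial sums of the simple roots. -/
private noncomputable def cvAq (α : Fin d → EuclideanSpace ℝ (Fin d)) (k : Fin (d + 1)) : EuclideanSpace ℝ (Fin d) :=
  ∑ j : Fin d, if (j : ℕ) < k then α j else 0

/-- The vertices about the centroid. -/
private noncomputable def cvAp (α : Fin d → EuclideanSpace ℝ (Fin d)) (k : Fin (d + 1)) : EuclideanSpace ℝ (Fin d) :=
  (1 / ((d : ℝ) + 1)) • (∑ k, cvAq α k) - cvAq α k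

private theorem cvA_diff (α : Fin d → EuclideanSpace ℝ (Fin d)) (j : Fin d) :
    cvAp α j.castSucc - cvAp α j.succ = α j := by
  have h : cvAq α j.succ - cvAq α j.castSucc = α j := by
    unfold cvAq
    rw [← Finset.sum_sub_distrib, Finset.sum_eq_single j]
    · simp
    · intro i _ hij
      have hij' : (i : ℕ) ≠ j := fun h => hij (Fin.ext h)
      by_cases hlt : (i : ℕ) < j
      · rw [if_pos (by simp only [Fin.val_succ]; omega), if_pos (by simpa using hlt), sub_self]
      · rw [if_neg (by simp only [Fin.val_succ]; omega), if_neg (by simpa using hlt), sub_self]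
    · intro h
      exact absurd (Finset.mem_univ j) h
  rw [← h]
  unfold cvAp
  abel

private theorem cvA_sum (α : Fin d → EuclideanSpace ℝ (Fin d)) : ∑ k, cvAp α k = 0 := by
  unfold cvAp
  rw [Finset.sum_sub_distrib, Finset.sum_const, Finset.card_univ, Fintype.card_fin, ← Nat.cast_smul_eq_nsmul ℝ,
    smul_smul]
  have : ((d + 1 : ℕ) : ℝ) * (1 / ((d : ℝ) + 1)) = 1 := by
    push_cast
    have : (d : ℝ) + 1 ≠ 0 := by positivity
    field_simp
  rw [this, one_smul, sub_self]

private theorem cvA_refl {α : Fin d → EuclideanSpace ℝ (Fin d)} (hα : LinearIndependent ℝ α) (i : Fin d)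
    (k : Fin (d + 1)) : sr (CoxeterMatrix.A d).M hα i (cvAp α k) = cvAp α (Equiv.swap i.castSucc i.succ k) := by
  set g := sr (CoxeterMatrix.A d).M hα i with hg
  have hstep : ∀ j : Fin d, g (α j) = cvAp α (Equiv.swap i.castSucc i.succ j.castSucc) -
      cvAp α (Equiv.swap i.castSucc i.succ j.succ) := by
    intro j
    rw [hg, sr_apply]
    have hM : (CoxeterMatrix.A d).M i j = if i = j then 1 else (if (j : ℕ) + 1 = i ∨ (i : ℕ) + 1 = j then 3 else 2) := rfl
    have hi := cvA_diff α i
    have hj := cvA_diff α j
    by_cases h1 : i = j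
    · subst h1
      rw [hM, if_pos rfl, cos_one, Equiv.swap_apply_left, Equiv.swap_apply_right, ← hi]
      module
    · by_cases h2 : (j : ℕ) + 1 = i
      · have e1 : Equiv.swap i.castSucc i.succ j.castSucc = j.castSucc := by
          refine Equiv.swap_apply_of_ne_of_ne ?_ ?_
          · intro h
            have := congrArg Fin.val h
            simp only [Fin.val_castSucc] at this
            omega
          · intro h
            have := congrArg Fin.val h
            simp only [Fin.val_castSucc, Fin.val_succ] at this
            omega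
        have e2 : j.succ = i.castSucc := by
          apply Fin.ext
          simp only [Fin.val_castSucc, Fin.val_succ]
          omega
        rw [hM, if_neg h1, if_pos (Or.inl h2), cos_three, e1, e2, Equiv.swap_apply_left, one_smul]
        rw [e2] at hj
        rw [← hi, ← hj]
        abel
      · by_cases h3 : (i : ℕ) + 1 = j
        · have e1 : Equiv.swap i.castSucc i.succ j.succ = j.succ := by
            refine Equiv.swap_apply_of_ne_of_ne ?_ ?_
            · intro h
              have := congrArg Fin.val h
              simp only [Fin.val_castSucc, Fin.val_succ] at this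
              omega
            · intro h
              have := congrArg Fin.val h
              simp only [Fin.val_succ] at this
              omega
          have e2 : j.castSucc = i.succ := by
            apply Fin.ext
            simp only [Fin.val_castSucc, Fin.val_succ]
            omega
          rw [hM, if_neg h1, if_pos (Or.inr h3), cos_three, e1, e2, Equiv.swap_apply_right, one_smul]
          rw [e2] at hj
          rw [← hi, ← hj]
          abel
        · have h1' : (i : ℕ) ≠ j := fun h => h1 (Fin.ext h)
          have e1 : Equiv.swap i.castSucc i.succ j.castSucc = j.castSucc := by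
            refine Equiv.swap_apply_of_ne_of_ne ?_ ?_
            · intro h
              have := congrArg Fin.val h
              simp only [Fin.val_castSucc] at this
              omega
            · intro h
              have := congrArg Fin.val h
              simp only [Fin.val_castSucc, Fin.val_succ] at this
              omega
          have e2 : Equiv.swap i.castSucc i.succ j.succ = j.succ := by
            refine Equiv.swap_apply_of_ne_of_ne ?_ ?_
            · intro h
              have := congrArg Fin.val h
              simp only [Fin.val_castSucc, Fin.val_succ] at this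
              omega
            · intro h
              have := congrArg Fin.val h
              simp only [Fin.val_succ] at this
              omega
          rw [hM, if_neg h1, if_neg (by omega), cos_two, e1, e2, zero_smul, add_zero, hj]
  -- the difference is constant
  have hconst : ∀ k : ℕ, ∀ hk : k < d + 1, g (cvAp α ⟨k, hk⟩) - cvAp α (Equiv.swap i.castSucc i.succ ⟨k, hk⟩) =
      g (cvAp α 0) - cvAp α (Equiv.swap i.castSucc i.succ 0) := by
    intro k
    induction k with
    | zero => intro hk; rfl
    | succ k ih =>
      intro hk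
      have hkd : k < d := by omega
      have h1 := hstep ⟨k, hkd⟩
      rw [← cvA_diff α ⟨k, hkd⟩, map_sub] at h1
      have h2 := ih (by omega)
      have e1 : (⟨k, hkd⟩ : Fin d).castSucc = ⟨k, by omega⟩ := rfl
      have e2 : (⟨k, hkd⟩ : Fin d).succ = ⟨k + 1, hk⟩ := rfl
      rw [e1, e2] at h1
      rw [← h2]
      have h3 := sub_eq_sub_iff_sub_eq_sub.1 h1
      exact h3.symm
  have hsum : ∑ k, (g (cvAp α k) - cvAp α (Equiv.swap i.castSucc i.succ k)) = 0 := by
    rw [Finset.sum_sub_distrib, ← map_sum, Equiv.sum_comp (Equiv.swap i.castSucc i.succ) (cvAp α), cvA_sum, map_zero,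
      sub_zero]
  have hc : ∀ k : Fin (d + 1), g (cvAp α k) - cvAp α (Equiv.swap i.castSucc i.succ k) =
      g (cvAp α 0) - cvAp α (Equiv.swap i.castSucc i.succ 0) := fun k => hconst k.1 k.2
  rw [Finset.sum_congr rfl fun k _ => hc k, Finset.sum_const, Finset.card_univ, Fintype.card_fin,
    ← Nat.cast_smul_eq_nsmul ℝ] at hsum
  have h0 : g (cvAp α 0) - cvAp α (Equiv.swap i.castSucc i.succ 0) = 0 := by
    rcases smul_eq_zero.1 hsum with h | h
    · exact absurd h (by positivity)
    · exact h
  have := hc k
  rw [h0, sub_eq_zero] at this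
  exact this

/-- PROOF. `p k = p 0 - ∑ j < k, α j` with `p 0 = (1 / (d + 1)) ∑ k, (d - k) α k`, so `∑ p k = 0` and `α i = p i - p (i + 1)`; `a k = o + p k`. The simple reflection `i` exchanges `p i` and
`p (i + 1)` and fixes the other `p k` (check on the `α j`: `sr_apply`, `ext_bas`, or check `g (p k)` from `g (α j)`). All permutations: `Equiv.Perm.mclosure_swap_castSucc_succ`. -/
theorem cv_A (hd : 1 ≤ d) {α : Fin d → EuclideanSpace ℝ (Fin d)} {o : EuclideanSpace ℝ (Fin d)}
    {K : Set (EuclideanSpace ℝ (Fin d))} (hα : LinearIndependent ℝ α)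
    (h : Invariant (CoxeterMatrix.A d).M α o K) : SymA K o := by
  have hexp : ∀ (τ : Fin (d + 1) → Fin (d + 1)) (c : Fin (d + 1) → ℝ), ∑ i, c i = 1 →
      ∑ i, c i • (o + cvAp α (τ i)) = o + ∑ i, c i • cvAp α (τ i) := by
    intro τ c hc
    simp only [smul_add, Finset.sum_add_distrib]
    rw [← Finset.sum_smul, hc, one_smul]
  refine ⟨fun k => o + cvAp α k, ?_, ?_, ?_⟩
  · rw [affineIndependent_iff_finrank_vectorSpan_eq ℝ _ (n := d) (by simp)]
    have htop : vectorSpan ℝ (Set.range fun k => o + cvAp α k) = ⊤ := by
      rw [eq_top_iff, ← (bas hα).span_eq, Submodule.span_le]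
      rintro _ ⟨j, rfl⟩
      rw [bas_apply]
      have h1 := vsub_mem_vectorSpan ℝ (Set.mem_range_self (f := fun k => o + cvAp α k) j.castSucc)
        (Set.mem_range_self (f := fun k => o + cvAp α k) j.succ)
      rw [vsub_eq_sub, add_sub_add_left_eq_sub, cvA_diff] at h1
      exact h1
    rw [htop, finrank_top, finrank_euclideanSpace_fin]
  · rw [← Finset.smul_sum, Finset.sum_add_distrib, cvA_sum, add_zero, Finset.sum_const, Finset.card_univ,
      Fintype.card_fin, ← Nat.cast_smul_eq_nsmul ℝ, smul_smul]
    have : 1 / ((d : ℝ) + 1) * ((d + 1 : ℕ) : ℝ) = 1 := by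
      push_cast
      have : (d : ℝ) + 1 ≠ 0 := by positivity
      field_simp
    rw [this, one_smul]
  · intro σ
    have hσ : σ ∈ Submonoid.closure (Set.range fun i : Fin d => Equiv.swap i.castSucc i.succ) := by
      rw [Equiv.Perm.mclosure_swap_castSucc_succ]
      trivial
    induction hσ using Submonoid.closure_induction with
    | mem σ hσ =>
      obtain ⟨i, rfl⟩ := hσ
      intro c hc hmem
      rw [hexp (fun k => k) c hc] at hmem
      have h1 := inv_sr hα h i _ hmem
      rw [map_sum] at h1
      simp only [map_smul, cvA_refl] at h1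
      rw [hexp _ c hc]
      exact h1
    | one =>
      intro c hc hmem
      exact hmem
    | mul σ τ _ _ hσ hτ =>
      intro c hc hmem
      have h1 := hτ c hc hmem
      have e1 : ∑ i, c i • (o + cvAp α (τ i)) = ∑ j, c (τ.symm j) • (o + cvAp α j) := by
        rw [← Equiv.sum_comp τ (fun j => c (τ.symm j) • (o + cvAp α j))]
        simp
      rw [e1] at h1
      have h2 := hσ (fun j => c (τ.symm j)) (by rw [← hc]; exact Equiv.sum_comp τ.symm c) h1
      have e2 : ∑ j, c (τ.symm j) • (o + cvAp α (σ j)) = ∑ i, c i • (o + cvAp α ((σ * τ) i)) := by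
        rw [← Equiv.sum_comp τ (fun j => c (τ.symm j) • (o + cvAp α (σ j)))]
        simp
      rw [e2] at h2
      exact h2

end Pool.Agent.Lib.MP_5e7226_co.RG

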