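import Pool.Agent.Lib.MP_5e7226_co.RG.Cv0

set_option autoImplicit false

namespace Pool.Agent.Lib.MP_5e7226_co.RG

variable {d : ℕ}

/-- The monomial map `b i ↦ ε i • b (σ i)`. -/
noncomputable def CvB_mon {b : Fin d → EuclideanSpace ℝ (Fin d)} (hb : LinearIndependent ℝ b)
    (σ : Equiv.Perm (Fin d)) (ε : Fin d → ℝ) :
    EuclideanSpace ℝ (Fin d) →ₗ[ℝ] EuclideanSpace ℝ (Fin d) :=
  (bas hb).constr ℝ (fun i => ε i • b (σ i))

theorem CvB_mon_apply {b : Fin d → EuclideanSpace ℝ (Fin d)} (hb : LinearIndependent ℝ b)
    (σ : Equiv.Perm (Fin d)) (ε : Fin d → ℝ) (i : Fin d) : CvB_mon hb σ ε (b i) = ε i • b (σ i) := by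
  have h := (bas hb).constr_basis ℝ (fun i => ε i • b (σ i)) i
  rw [bas_apply] at h
  exact h

/-- From the permutations by adjacent transpositions and the change of the last sign to `SymD`. -/
theorem CvB_symD {n : ℕ} {o : EuclideanSpace ℝ (Fin (n + 1))} {K : Set (EuclideanSpace ℝ (Fin (n + 1)))}
    {b : Fin (n + 1) → EuclideanSpace ℝ (Fin (n + 1))} (hb : LinearIndependent ℝ b)
    (h1 : ∀ i : Fin n, Inv K o (CvB_mon hb (Equiv.swap i.castSucc i.succ) (fun _ => 1)))
    (h2 : Inv K o (CvB_mon hb 1 (fun i => if i = Fin.last n then -1 else 1))) : SymD K o := by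
  have hcomp : ∀ (σ τ : Equiv.Perm (Fin (n + 1))) (ε η : Fin (n + 1) → ℝ),
      CvB_mon hb σ ε ∘ₗ CvB_mon hb τ η = CvB_mon hb (σ * τ) (fun i => ε (τ i) * η i) := by
    intro σ τ ε η
    refine ext_bas hb fun j => ?_
    rw [LinearMap.comp_apply, CvB_mon_apply, map_smul, CvB_mon_apply, CvB_mon_apply, smul_smul, mul_comm,
      Equiv.Perm.mul_apply]
  have hid : CvB_mon hb 1 (fun _ => 1) = LinearMap.id := by
    refine ext_bas hb fun j => ?_
    rw [CvB_mon_apply, one_smul]
    rfl
  -- permutations
  have hperm : ∀ σ : Equiv.Perm (Fin (n + 1)), Inv K o (CvB_mon hb σ (fun _ => 1)) := by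
    intro σ
    have hσ : σ ∈ Submonoid.closure (Set.range fun i : Fin n => Equiv.swap i.castSucc i.succ) := by
      rw [Equiv.Perm.mclosure_swap_castSucc_succ]
      trivial
    refine Submonoid.closure_induction (motive := fun τ _ => Inv K o (CvB_mon hb τ (fun _ => 1)))
      ?_ ?_ ?_ hσ
    · rintro τ ⟨i, rfl⟩
      exact h1 i
    · rw [hid]
      exact Inv.id
    · intro τ τ' _ _ hτ hτ'
      have h := Inv.comp hτ hτ'
      rw [hcomp] at h
      simpa only [mul_one] using h
  -- one sign
  have hflip : ∀ a : Fin (n + 1), Inv K o (CvB_mon hb 1 (fun i => if i = a then -1 else 1)) := by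
    intro a
    have h := Inv.comp (Inv.comp (hperm (Equiv.swap a (Fin.last n))) h2) (hperm (Equiv.swap a (Fin.last n)))
    have e : (CvB_mon hb (Equiv.swap a (Fin.last n)) (fun _ => 1) ∘ₗ
        CvB_mon hb 1 (fun i => if i = Fin.last n then -1 else 1)) ∘ₗ
        CvB_mon hb (Equiv.swap a (Fin.last n)) (fun _ => 1) =
        CvB_mon hb 1 (fun i => if i = a then -1 else 1) := by
      refine ext_bas hb fun j => ?_
      rw [LinearMap.comp_apply, LinearMap.comp_apply, CvB_mon_apply, one_smul, CvB_mon_apply, map_smul,
        Equiv.Perm.one_apply, CvB_mon_apply, one_smul, CvB_mon_apply, Equiv.Perm.one_apply, Equiv.swap_apply_self]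
      congr 1
      by_cases hj : j = a
      · rw [if_pos hj, if_pos]
        rw [hj, Equiv.swap_apply_left]
      · rw [if_neg hj, if_neg]
        intro h3
        apply hj
        rw [Equiv.swap_apply_eq_iff, Equiv.swap_apply_right] at h3
        exact h3
    rw [e] at h
    exact h
  -- all signs
  have hsign : ∀ S : Finset (Fin (n + 1)), Inv K o (CvB_mon hb 1 (fun i => if i ∈ S then -1 else 1)) := by
    intro S
    induction S using Finset.induction_on with
    | empty =>
      simp only [Finset.notMem_empty, if_false]
      rw [hid]
      exact Inv.id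
    | insert a S ha ih =>
      have h := Inv.comp (hflip a) ih
      have e : CvB_mon hb 1 (fun i => if i = a then -1 else 1) ∘ₗ
          CvB_mon hb 1 (fun i => if i ∈ S then -1 else 1) =
          CvB_mon hb 1 (fun i => if i ∈ insert a S then -1 else 1) := by
        refine ext_bas hb fun j => ?_
        rw [LinearMap.comp_apply, CvB_mon_apply, map_smul, Equiv.Perm.one_apply, CvB_mon_apply, CvB_mon_apply,
          Equiv.Perm.one_apply, smul_smul]
        congr 1
        by_cases hj : j = a
        · subst hj
          rw [if_neg ha, if_pos rfl, if_pos (Finset.mem_insert_self _ _), one_mul]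
        · rw [if_neg hj, mul_one]
          by_cases hS : j ∈ S
          · rw [if_pos hS, if_pos (Finset.mem_insert_of_mem hS)]
          · rw [if_neg hS, if_neg]
            rw [Finset.mem_insert]
            tauto
      rw [e] at h
      exact h
  refine ⟨b, hb, fun σ ε hε _ c hc => ?_⟩
  have hε' : ε = fun i => if i ∈ Finset.univ.filter (fun i => ε i = -1) then -1 else 1 := by
    funext i
    by_cases hi : ε i = -1
    · rw [if_pos (by rw [Finset.mem_filter]; exact ⟨Finset.mem_univ _, hi⟩), hi]
    · rw [if_neg (by rw [Finset.mem_filter]; exact fun h => hi h.2)]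
      exact (hε i).resolve_right hi
  have h3 : Inv K o (CvB_mon hb σ ε) := by
    have h4 := Inv.comp (hperm σ) (hsign (Finset.univ.filter (fun i => ε i = -1)))
    rw [← hε', hcomp] at h4
    simpa only [one_mul, mul_one] using h4
  have h4 := h3 _ hc
  have h5 : CvB_mon hb σ ε (∑ i, c i • b i) = ∑ i, (ε i * c i) • b (σ i) := by
    rw [map_sum]
    refine Finset.sum_congr rfl fun i _ => ?_
    rw [map_smul, CvB_mon_apply, smul_smul, mul_comm]
  rwa [h5] at h4

/-- PROOF. `√2 α i = b i - b (i + 1)` for `i ≤ d - 2` and `α (d - 1) = b (d - 1)`: the reflections `i ≤ d - 2` exchange `b i` and `b (i + 1)`, the last one changes the sign of `b (d - 1)` (`cos_four`).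
They generate all permutations with changes of signs. -/
theorem cv_B (hd : 3 ≤ d) {α : Fin d → EuclideanSpace ℝ (Fin d)} {o : EuclideanSpace ℝ (Fin d)}
    {K : Set (EuclideanSpace ℝ (Fin d))} (hα : LinearIndependent ℝ α)
    (h : Invariant (CoxeterMatrix.B d).M α o K) : SymD K o := by
  obtain ⟨n, rfl⟩ : ∃ n, d = n + 1 := ⟨d - 1, by omega⟩
  have hs0 : (0 : ℝ) < Real.sqrt 2 := Real.sqrt_pos.2 (by norm_num)
  have hss : Real.sqrt 2 * Real.sqrt 2 = 2 := Real.mul_self_sqrt (by norm_num)
  set b : Fin (n + 1) → EuclideanSpace ℝ (Fin (n + 1)) := fun k =>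
    α (Fin.last n) + Real.sqrt 2 • ∑ j : Fin n, if k ≤ j.castSucc then α j.castSucc else 0 with hbdef
  have hblast : b (Fin.last n) = α (Fin.last n) := by
    simp only [hbdef]
    rw [Finset.sum_eq_zero, smul_zero, add_zero]
    intro j _
    rw [if_neg]
    rw [not_le]
    exact Fin.castSucc_lt_last j
  have hbstep : ∀ i : Fin n, b i.castSucc = b i.succ + Real.sqrt 2 • α i.castSucc := by
    intro i
    simp only [hbdef]
    rw [add_assoc, ← smul_add]
    congr 2
    have e : ∀ j : Fin n, (if i.castSucc ≤ j.castSucc then α j.castSucc else 0) =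
        (if i.succ ≤ j.castSucc then α j.castSucc else 0) + (if i = j then α j.castSucc else 0) := by
      intro j
      rcases lt_trichotomy i j with hij | hij | hij
      · rw [if_pos (Fin.castSucc_le_castSucc_iff.2 hij.le), if_pos (Fin.succ_le_castSucc_iff.2 hij),
          if_neg hij.ne, add_zero]
      · subst hij
        rw [if_pos le_rfl, if_neg, if_pos rfl, zero_add]
        rw [Fin.succ_le_castSucc_iff]
        exact lt_irrefl _
      · rw [if_neg, if_neg, if_neg hij.ne', add_zero]
        · rw [Fin.succ_le_castSucc_iff]
          exact not_lt.2 hij.le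
        · rw [Fin.castSucc_le_castSucc_iff]
          exact not_le.2 hij
    rw [Finset.sum_congr rfl fun j _ => e j, Finset.sum_add_distrib, Finset.sum_ite_eq]
    simp
  have hα1 : ∀ i : Fin n, α i.castSucc = (Real.sqrt 2)⁻¹ • (b i.castSucc - b i.succ) := by
    intro i
    rw [hbstep i, add_sub_cancel_left, smul_smul, inv_mul_cancel₀ hs0.ne', one_smul]
  have hb : LinearIndependent ℝ b := by
    refine linearIndependent_of_top_le_span_of_card_eq_finrank ?_ (by simp)
    have hsp : Submodule.span ℝ (Set.range α) = ⊤ := by
      refine hα.span_eq_top_of_card_eq_finrank' (by simp)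
    rw [← hsp, Submodule.span_le]
    rintro _ ⟨j, rfl⟩
    rw [SetLike.mem_coe]
    refine Fin.lastCases ?_ (fun i => ?_) j
    · rw [← hblast]
      exact Submodule.subset_span ⟨_, rfl⟩
    · rw [hα1 i]
      exact Submodule.smul_mem _ _ (Submodule.sub_mem _ (Submodule.subset_span ⟨_, rfl⟩)
        (Submodule.subset_span ⟨_, rfl⟩))
  refine CvB_symD hb (fun i => ?_) ?_
  · refine inv_of hα h i.castSucc fun j => ?_
    refine Fin.lastCases ?_ (fun j => ?_) j
    · -- the last root
      have hne : i.castSucc ≠ Fin.last n := (Fin.castSucc_lt_last i).ne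
      by_cases hi : (i : ℕ) + 1 = n
      · have hM : (CoxeterMatrix.B (n + 1)).M i.castSucc (Fin.last n) = 4 := by
          simp only [CoxeterMatrix.B, Matrix.of_apply]
          rw [if_neg hne, if_pos]
          right
          refine ⟨?_, ?_⟩
          · rw [Fin.val_last]; omega
          · rw [Fin.val_castSucc]; omega
        have hsucc : i.succ = Fin.last n := by
          ext
          rw [Fin.val_succ, Fin.val_last]
          exact hi
        rw [hM, cos_four]
        conv_lhs => rw [← hblast, ← hsucc]
        rw [CvB_mon_apply, one_smul, Equiv.swap_apply_right, hbstep i, hsucc, hblast]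
      · have hM : (CoxeterMatrix.B (n + 1)).M i.castSucc (Fin.last n) = 2 := by
          simp only [CoxeterMatrix.B, Matrix.of_apply]
          rw [if_neg hne, if_neg, if_neg]
          · rw [Fin.val_last, Fin.val_castSucc]
            have := i.isLt
            omega
          · rw [Fin.val_last, Fin.val_castSucc]
            have := i.isLt
            omega
        rw [hM, cos_two, zero_smul, add_zero]
        conv_lhs => rw [← hblast]
        rw [CvB_mon_apply, one_smul, Equiv.swap_apply_of_ne_of_ne, hblast]
        · exact hne.symm
        · intro h3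
          apply hi
          have h4 := congrArg Fin.val h3
          rw [Fin.val_last, Fin.val_succ] at h4
          exact h4.symm
    · have hg : CvB_mon hb (Equiv.swap i.castSucc i.succ) (fun _ => 1) (α j.castSucc) =
          (Real.sqrt 2)⁻¹ • (b (Equiv.swap i.castSucc i.succ j.castSucc) -
            b (Equiv.swap i.castSucc i.succ j.succ)) := by
        conv_lhs => rw [hα1 j]
        rw [map_smul, map_sub, CvB_mon_apply, CvB_mon_apply, one_smul, one_smul]
      rw [hg]
      have hi4 := i.isLt
      have hj4 := j.isLt
      by_cases h1 : j = i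
      · -- the same root
        subst h1
        have hM : (CoxeterMatrix.B (n + 1)).M j.castSucc j.castSucc = 1 := by
          simp only [CoxeterMatrix.B, Matrix.of_apply]
          rw [if_pos trivial]
        rw [hM, cos_one, Equiv.swap_apply_left, Equiv.swap_apply_right]
        have h5 := hα1 j
        rw [← neg_sub (b j.castSucc) (b j.succ), smul_neg, ← h5]
        module
      · have hne : i.castSucc ≠ j.castSucc := fun h3 => h1 (Fin.castSucc_injective n h3).symm
        by_cases h2 : (j : ℕ) + 1 = i
        · have hM : (CoxeterMatrix.B (n + 1)).M i.castSucc j.castSucc = 3 := by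
            simp only [CoxeterMatrix.B, Matrix.of_apply]
            rw [if_neg hne, if_neg, if_pos]
            · rw [Fin.val_castSucc, Fin.val_castSucc]
              omega
            · rw [Fin.val_castSucc, Fin.val_castSucc]
              omega
          have h6 : j.succ = i.castSucc := by
            ext
            rw [Fin.val_succ, Fin.val_castSucc]
            exact h2
          rw [hM, cos_three, one_smul, h6, Equiv.swap_apply_left, Equiv.swap_apply_of_ne_of_ne]
          · rw [hα1 j, hα1 i, h6]
            module
          · exact hne.symm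
          · intro h7
            have h8 := congrArg Fin.val h7
            rw [Fin.val_castSucc, Fin.val_succ] at h8
            omega
        · by_cases h3 : (i : ℕ) + 1 = j
          · have hM : (CoxeterMatrix.B (n + 1)).M i.castSucc j.castSucc = 3 := by
              simp only [CoxeterMatrix.B, Matrix.of_apply]
              rw [if_neg hne, if_neg, if_pos]
              · rw [Fin.val_castSucc, Fin.val_castSucc]
                omega
              · rw [Fin.val_castSucc, Fin.val_castSucc]
                omega
            have h6 : j.castSucc = i.succ := by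
              ext
              rw [Fin.val_succ, Fin.val_castSucc]
              exact h3.symm
            rw [hM, cos_three, one_smul, h6, Equiv.swap_apply_right, Equiv.swap_apply_of_ne_of_ne]
            · rw [← h6, hα1 j, hα1 i, ← h6]
              module
            · intro h7
              have h8 := congrArg Fin.val h7
              rw [Fin.val_castSucc, Fin.val_succ] at h8
              omega
            · intro h7
              have h8 := congrArg Fin.val h7
              rw [Fin.val_succ, Fin.val_succ] at h8
              omega
          · have hM : (CoxeterMatrix.B (n + 1)).M i.castSucc j.castSucc = 2 := by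
              simp only [CoxeterMatrix.B, Matrix.of_apply]
              rw [if_neg hne, if_neg, if_neg]
              · rw [Fin.val_castSucc, Fin.val_castSucc]
                omega
              · rw [Fin.val_castSucc, Fin.val_castSucc]
                omega
            have h9 : (i : ℕ) ≠ j := fun h7 => h1 (Fin.ext h7.symm)
            rw [hM, cos_two, zero_smul, add_zero, Equiv.swap_apply_of_ne_of_ne, Equiv.swap_apply_of_ne_of_ne,
              hα1 j]
            · intro h7
              have h8 := congrArg Fin.val h7
              rw [Fin.val_succ, Fin.val_castSucc] at h8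
              omega
            · intro h7
              have h8 := congrArg Fin.val h7
              rw [Fin.val_succ, Fin.val_succ] at h8
              omega
            · exact hne.symm
            · intro h7
              have h8 := congrArg Fin.val h7
              rw [Fin.val_castSucc, Fin.val_succ] at h8
              omega
  · refine inv_of hα h (Fin.last n) fun j => ?_
    refine Fin.lastCases ?_ (fun j => ?_) j
    · have hM : (CoxeterMatrix.B (n + 1)).M (Fin.last n) (Fin.last n) = 1 := by
        simp only [CoxeterMatrix.B, Matrix.of_apply]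
        rw [if_pos trivial]
      rw [hM, cos_one]
      conv_lhs => rw [← hblast]
      rw [CvB_mon_apply, if_pos rfl, Equiv.Perm.one_apply, hblast]
      module
    · have hne : Fin.last n ≠ j.castSucc := (Fin.castSucc_lt_last j).ne'
      have hj4 := j.isLt
      have hg : CvB_mon hb 1 (fun i => if i = Fin.last n then -1 else 1) (α j.castSucc) =
          (Real.sqrt 2)⁻¹ • (b j.castSucc - (if j.succ = Fin.last n then (-1 : ℝ) else 1) • b j.succ) := by
        conv_lhs => rw [hα1 j]
        rw [map_smul, map_sub, CvB_mon_apply, CvB_mon_apply, if_neg hne.symm, one_smul, Equiv.Perm.one_apply,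
          Equiv.Perm.one_apply]
      rw [hg]
      by_cases hj : (j : ℕ) + 1 = n
      · have hM : (CoxeterMatrix.B (n + 1)).M (Fin.last n) j.castSucc = 4 := by
          simp only [CoxeterMatrix.B, Matrix.of_apply]
          rw [if_neg hne, if_pos]
          left
          refine ⟨?_, ?_⟩
          · rw [Fin.val_last]; omega
          · rw [Fin.val_castSucc]; omega
        have hsucc : j.succ = Fin.last n := by
          ext
          rw [Fin.val_succ, Fin.val_last]
          exact hj
        rw [hM, cos_four, if_pos hsucc, hα1 j, hsucc, hblast]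
        have h10 : (Real.sqrt 2)⁻¹ * 2 = Real.sqrt 2 := by
          rw [inv_mul_eq_iff_eq_mul₀ hs0.ne']
          exact hss.symm
        rw [neg_smul, one_smul, sub_neg_eq_add, smul_add, smul_sub]
        have h11 : Real.sqrt 2 • α (Fin.last n) = ((Real.sqrt 2)⁻¹ * 2) • α (Fin.last n) := by rw [h10]
        rw [h11]
        module
      · have hM : (CoxeterMatrix.B (n + 1)).M (Fin.last n) j.castSucc = 2 := by
          simp only [CoxeterMatrix.B, Matrix.of_apply]
          rw [if_neg hne, if_neg, if_neg]
          · rw [Fin.val_last, Fin.val_castSucc]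
            omega
          · rw [Fin.val_last, Fin.val_castSucc]
            omega
        rw [hM, cos_two, zero_smul, add_zero, if_neg, one_smul, hα1 j]
        intro h7
        have h8 := congrArg Fin.val h7
        rw [Fin.val_succ, Fin.val_last] at h8
        exact hj h8

end Pool.Agent.Lib.MP_5e7226_co.RG
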