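import Pool.Agent.Lib.MP_5e7226_co.RG.Cv0

set_option autoImplicit false

namespace Pool.Agent.Lib.MP_5e7226_co.RG

variable {d : ℕ}

/-- The linear map `b j ↦ ε j • b (σ j)`. -/
noncomputable def CvD_G {b : Fin d → EuclideanSpace ℝ (Fin d)} (hb : LinearIndependent ℝ b)
    (σ : Equiv.Perm (Fin d)) (ε : Fin d → ℝ) : EuclideanSpace ℝ (Fin d) →ₗ[ℝ] EuclideanSpace ℝ (Fin d) :=
  (bas hb).constr ℝ (fun j => ε j • b (σ j))

theorem CvD_G_apply {b : Fin d → EuclideanSpace ℝ (Fin d)} (hb : LinearIndependent ℝ b)
    (σ : Equiv.Perm (Fin d)) (ε : Fin d → ℝ) (j : Fin d) : CvD_G hb σ ε (b j) = ε j • b (σ j) := by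
  have h := (bas hb).constr_basis ℝ (fun j => ε j • b (σ j)) j
  rw [bas_apply] at h
  exact h

theorem CvD_comp {b : Fin d → EuclideanSpace ℝ (Fin d)} (hb : LinearIndependent ℝ b)
    {K : Set (EuclideanSpace ℝ (Fin d))} {o : EuclideanSpace ℝ (Fin d)}
    {σ τ : Equiv.Perm (Fin d)} {ε η : Fin d → ℝ} (h1 : Inv K o (CvD_G hb σ ε)) (h2 : Inv K o (CvD_G hb τ η)) :
    Inv K o (CvD_G hb (τ * σ) (fun j => ε j * η (σ j))) := by
  have h3 := h2.comp h1
  have h4 : CvD_G hb τ η ∘ₗ CvD_G hb σ ε = CvD_G hb (τ * σ) (fun j => ε j * η (σ j)) := by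
    refine ext_bas hb fun j => ?_
    rw [LinearMap.comp_apply, CvD_G_apply, map_smul, CvD_G_apply, CvD_G_apply, smul_smul, Equiv.Perm.mul_apply]
  rwa [h4] at h3

theorem CvD_one {b : Fin d → EuclideanSpace ℝ (Fin d)} (hb : LinearIndependent ℝ b)
    {K : Set (EuclideanSpace ℝ (Fin d))} {o : EuclideanSpace ℝ (Fin d)} :
    Inv K o (CvD_G hb 1 (fun _ => 1)) := by
  have h4 : CvD_G hb 1 (fun _ => 1) = LinearMap.id := by
    refine ext_bas hb fun j => ?_
    rw [CvD_G_apply, one_smul, Equiv.Perm.one_apply, LinearMap.id_apply]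
  rw [h4]
  exact Inv.id

/-- All permutations. -/
theorem CvD_perm {n : ℕ} {b : Fin (n + 1) → EuclideanSpace ℝ (Fin (n + 1))} (hb : LinearIndependent ℝ b)
    {K : Set (EuclideanSpace ℝ (Fin (n + 1)))} {o : EuclideanSpace ℝ (Fin (n + 1))}
    (h : ∀ p : Fin n, Inv K o (CvD_G hb (Equiv.swap p.castSucc p.succ) (fun _ => 1)))
    (σ : Equiv.Perm (Fin (n + 1))) : Inv K o (CvD_G hb σ (fun _ => 1)) := by
  have h1 : σ ∈ Submonoid.closure (Set.range fun i : Fin n => Equiv.swap i.castSucc i.succ) := by
    rw [Equiv.Perm.mclosure_swap_castSucc_succ]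
    exact Submonoid.mem_top _
  induction h1 using Submonoid.closure_induction with
  | mem x hx =>
    obtain ⟨p, rfl⟩ := hx
    exact h p
  | one => exact CvD_one hb
  | mul x y hx hy ihx ihy =>
    have h2 := CvD_comp hb ihy ihx
    simpa using h2

/-- Two signs. -/
noncomputable def CvD_e (i j k : Fin d) : ℝ := if k = i ∨ k = j then -1 else 1

/-- All changes of two signs. -/
theorem CvD_two {b : Fin d → EuclideanSpace ℝ (Fin d)} (hb : LinearIndependent ℝ b)
    {K : Set (EuclideanSpace ℝ (Fin d))} {o : EuclideanSpace ℝ (Fin d)}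
    (h : ∀ σ : Equiv.Perm (Fin d), Inv K o (CvD_G hb σ (fun _ => 1))) {a c : Fin d} (hac : a ≠ c)
    (h2 : Inv K o (CvD_G hb 1 (CvD_e a c))) {i j : Fin d} (hij : i ≠ j) : Inv K o (CvD_G hb 1 (CvD_e i j)) := by
  obtain ⟨σ, hσ1, hσ2⟩ : ∃ σ : Equiv.Perm (Fin d), σ i = a ∧ σ j = c := by
    refine ⟨(Equiv.swap c (Equiv.swap i a j)) * Equiv.swap i a, ?_, ?_⟩
    · rw [Equiv.Perm.mul_apply, Equiv.swap_apply_left, Equiv.swap_apply_of_ne_of_ne hac]
      intro he
      have h3 : Equiv.swap i a i = Equiv.swap i a j := by rw [Equiv.swap_apply_left]; exact he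
      exact hij ((Equiv.swap i a).injective h3)
    · rw [Equiv.Perm.mul_apply, Equiv.swap_apply_right]
  have h3 := CvD_comp hb (CvD_comp hb (h σ) h2) (h σ⁻¹)
  have h4 : σ⁻¹ * (1 * σ) = 1 := by simp
  have h5 : (fun k => (1 * CvD_e a c (σ k)) * 1) = CvD_e i j := by
    funext k
    unfold CvD_e
    rw [← hσ1, ← hσ2]
    simp only [σ.injective.eq_iff]
    simp
  rw [h4] at h3
  exact h5 ▸ h3

/-- All even changes of signs. -/
theorem CvD_even {b : Fin d → EuclideanSpace ℝ (Fin d)} (hb : LinearIndependent ℝ b)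
    {K : Set (EuclideanSpace ℝ (Fin d))} {o : EuclideanSpace ℝ (Fin d)}
    (h : ∀ i j : Fin d, i ≠ j → Inv K o (CvD_G hb 1 (CvD_e i j))) :
    ∀ (m : ℕ) (ε : Fin d → ℝ), (∀ i, ε i = 1 ∨ ε i = -1) → ∏ i, ε i = 1 →
      (Finset.univ.filter (fun i => ε i = -1)).card = m → Inv K o (CvD_G hb 1 ε) := by
  intro m
  induction m using Nat.strong_induction_on with
  | _ m ih =>
    intro ε hε hp hm
    rcases Nat.eq_zero_or_pos m with h0 | h0
    · have h1 : ε = fun _ => 1 := by
        funext i
        rcases hε i with h2 | h2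
        · exact h2
        · rw [h0, Finset.card_eq_zero] at hm
          have h3 : i ∈ Finset.univ.filter (fun i => ε i = -1) := Finset.mem_filter.2 ⟨Finset.mem_univ _, h2⟩
          rw [hm] at h3
          exact absurd h3 (Finset.notMem_empty i)
      rw [h1]
      exact CvD_one hb
    · have hprod : ∏ i, ε i = (-1) ^ m := by
        rw [← hm, ← Finset.prod_const, Finset.prod_filter]
        refine Finset.prod_congr rfl fun i _ => ?_
        by_cases h2 : ε i = -1
        · rw [if_pos h2, h2]
        · rw [if_neg h2]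
          exact (hε i).resolve_right h2
      have h2m : 1 < m := by
        by_contra hcon
        have h3 : m = 1 := by omega
        rw [h3, hp] at hprod
        norm_num at hprod
      rw [← hm] at h2m
      obtain ⟨i, hi, j, hj, hij⟩ := Finset.one_lt_card.1 h2m
      have hi' := (Finset.mem_filter.1 hi).2
      have hj' := (Finset.mem_filter.1 hj).2
      have hpe : ∏ k, CvD_e i j k = 1 := by
        unfold CvD_e
        rw [Finset.prod_ite, Finset.prod_const_one, mul_one, Finset.prod_const]
        have h3 : Finset.univ.filter (fun k => k = i ∨ k = j) = {i, j} := by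
          ext k
          simp
        rw [h3, Finset.card_pair hij]
        norm_num
      have hfil : Finset.univ.filter (fun k => ε k * CvD_e i j k = -1) =
          ((Finset.univ.filter (fun k => ε k = -1)).erase i).erase j := by
        ext k
        rw [Finset.mem_erase, Finset.mem_erase, Finset.mem_filter, Finset.mem_filter]
        unfold CvD_e
        by_cases h3 : k = i ∨ k = j
        · rw [if_pos h3]
          have h4 : ε k = -1 := by rcases h3 with h3 | h3 <;> rw [h3] <;> assumption
          rw [h4]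
          constructor
          · rintro ⟨_, h5⟩
            norm_num at h5
          · rintro ⟨h5, h6, _⟩
            rcases h3 with h3 | h3
            · exact absurd h3 h6
            · exact absurd h3 h5
        · rw [if_neg h3, mul_one]
          push Not at h3
          tauto
      have hcard : (Finset.univ.filter (fun k => ε k * CvD_e i j k = -1)).card < m := by
        rw [hfil, ← hm]
        exact lt_of_le_of_lt (Finset.card_le_card (Finset.erase_subset _ _)) (Finset.card_erase_lt_of_mem hi)
      have h5 := ih _ hcard (fun k => ε k * CvD_e i j k) (fun k => by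
        unfold CvD_e
        by_cases h3 : k = i ∨ k = j
        · rw [if_pos h3]
          rcases hε k with h4 | h4 <;> rw [h4] <;> norm_num
        · rw [if_neg h3, mul_one]
          exact hε k) (by rw [Finset.prod_mul_distrib, hp, hpe, mul_one]) rfl
      have h6 := CvD_comp hb h5 (h i j hij)
      have h7 : (fun k => ε k * CvD_e i j k * CvD_e i j ((1 : Equiv.Perm (Fin d)) k)) = ε := by
        funext k
        rw [Equiv.Perm.one_apply, mul_assoc]
        have h8 : CvD_e i j k * CvD_e i j k = 1 := by
          unfold CvD_e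
          by_cases h3 : k = i ∨ k = j
          · rw [if_pos h3]; norm_num
          · rw [if_neg h3]; norm_num
        rw [h8, mul_one]
      rw [h7, one_mul] at h6
      exact h6

/-- From the generators to all symmetries. -/
theorem CvD_all {n : ℕ} {b : Fin (n + 1) → EuclideanSpace ℝ (Fin (n + 1))} (hb : LinearIndependent ℝ b)
    {K : Set (EuclideanSpace ℝ (Fin (n + 1)))} {o : EuclideanSpace ℝ (Fin (n + 1))}
    (h : ∀ p : Fin n, Inv K o (CvD_G hb (Equiv.swap p.castSucc p.succ) (fun _ => 1))) {a c : Fin (n + 1)}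
    (hac : a ≠ c) (h2 : Inv K o (CvD_G hb (Equiv.swap a c) (CvD_e a c))) : SymD K o := by
  have h3 := CvD_perm hb h
  have h4 : Inv K o (CvD_G hb 1 (CvD_e a c)) := by
    have h5 := CvD_comp hb h2 (h3 (Equiv.swap a c))
    rw [Equiv.swap_mul_self] at h5
    simpa using h5
  refine ⟨b, hb, fun σ ε hε hp c' hc' => ?_⟩
  have h5 := CvD_even hb (fun i j hij => CvD_two hb h3 hac h4 hij) _ ε hε hp rfl
  have h6 := CvD_comp hb h5 (h3 σ)
  have h7 := h6 _ hc'
  rw [map_sum] at h7
  have h8 : ∀ i, CvD_G hb (σ * 1) (fun j => ε j * 1) (c' i • b i) = (ε i * c' i) • b (σ i) := by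
    intro i
    rw [map_smul, CvD_G_apply, smul_smul, mul_one, mul_one, mul_comm]
  simpa only [h8] using h7

theorem CvD_M1 (i : Fin d) : matrixD d i i = 1 := by
  unfold matrixD
  rw [if_pos rfl]

theorem CvD_M3 {i j : Fin d} (hij : i ≠ j)
    (hc : ((i : ℕ) + 1 = j ∧ (j : ℕ) + 1 < d) ∨ ((j : ℕ) + 1 = i ∧ (i : ℕ) + 1 < d) ∨
      ((i : ℕ) + 2 = j ∧ (j : ℕ) + 1 = d) ∨ ((j : ℕ) + 2 = i ∧ (i : ℕ) + 1 = d)) : matrixD d i j = 3 := by
  unfold matrixD
  rw [if_neg hij, if_pos hc]

theorem CvD_M2 {i j : Fin d} (hij : i ≠ j)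
    (hc : ¬ (((i : ℕ) + 1 = j ∧ (j : ℕ) + 1 < d) ∨ ((j : ℕ) + 1 = i ∧ (i : ℕ) + 1 < d) ∨
      ((i : ℕ) + 2 = j ∧ (j : ℕ) + 1 = d) ∨ ((j : ℕ) + 2 = i ∧ (i : ℕ) + 1 = d))) : matrixD d i j = 2 := by
  unfold matrixD
  rw [if_neg hij, if_neg hc]

/-- PROOF. `α i = b i - b (i + 1)` for `i ≤ d - 2` and `α (d - 1) = b (d - 2) + b (d - 1)`; the reflections `i ≤ d - 2` exchange `b i` and `b (i + 1)`, the last one maps `b (d - 2) ↦ - b (d - 1)`,
`b (d - 1) ↦ - b (d - 2)`. They generate all permutations with even changes of signs (permutations: `Equiv.Perm.mclosure_swap_castSucc_succ`; with the last one: the change of the last two signs; conjugation: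
the change of any two signs; induction on the number of minus signs). -/
theorem cv_D (hd : 3 ≤ d) {α : Fin d → EuclideanSpace ℝ (Fin d)} {o : EuclideanSpace ℝ (Fin d)}
    {K : Set (EuclideanSpace ℝ (Fin d))} (hα : LinearIndependent ℝ α)
    (h : Invariant (matrixD d) α o K) : SymD K o := by
  obtain ⟨m, rfl⟩ : ∃ m, d = m + 2 := ⟨d - 2, by omega⟩
  obtain ⟨L, hL⟩ : ∃ L : Fin (m + 2), L = Fin.last (m + 1) := ⟨_, rfl⟩
  obtain ⟨P, hP⟩ : ∃ P : Fin (m + 1), P = Fin.last m := ⟨_, rfl⟩
  have hPL : P.succ = L := by rw [hP, hL, Fin.succ_last]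
  have hPv : (P : ℕ) = m := by rw [hP]; rfl
  have hLv : (L : ℕ) = m + 1 := by rw [hL]; rfl
  obtain ⟨b, hbs, hbL⟩ : ∃ b : Fin (m + 2) → EuclideanSpace ℝ (Fin (m + 2)),
      (∀ p : Fin (m + 1), α p.castSucc = b p.castSucc - b p.succ) ∧
      b L = (1 / 2 : ℝ) • (α L - α P.castSucc) := by
    refine ⟨fun i => (∑ j ∈ Finset.univ.filter (fun j : Fin (m + 1) => i ≤ j.castSucc), α j.castSucc) +
      (1 / 2 : ℝ) • (α L - α P.castSucc), fun p => ?_, ?_⟩
    · have h1 : Finset.univ.filter (fun j : Fin (m + 1) => p.castSucc ≤ j.castSucc) =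
          insert p (Finset.univ.filter (fun j : Fin (m + 1) => p.succ ≤ j.castSucc)) := by
        ext k
        simp only [Finset.mem_filter, Finset.mem_univ, true_and, Finset.mem_insert, Fin.ext_iff, Fin.le_def,
          Fin.val_castSucc, Fin.val_succ]
        omega
      have h2 : p ∉ Finset.univ.filter (fun j : Fin (m + 1) => p.succ ≤ j.castSucc) := by
        simp only [Finset.mem_filter, Finset.mem_univ, true_and, Fin.le_def, Fin.val_castSucc, Fin.val_succ]
        omega
      simp only [h1]
      rw [Finset.sum_insert h2]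
      module
    · have h1 : Finset.univ.filter (fun j : Fin (m + 1) => L ≤ j.castSucc) = ∅ := by
        ext k
        simp only [Finset.mem_filter, Finset.mem_univ, true_and, Fin.le_def, Fin.val_castSucc, hLv,
          Finset.notMem_empty, iff_false]
        omega
      simp only [h1, Finset.sum_empty, zero_add]
  have hαL : α L = b P.castSucc + b L := by
    have h1 := hbs P
    rw [hPL] at h1
    have h2 : b P.castSucc = α P.castSucc + b L := by rw [h1]; module
    rw [h2, hbL]
    module
  have hspan : (⊤ : Submodule ℝ (EuclideanSpace ℝ (Fin (m + 2)))) ≤ Submodule.span ℝ (Set.range b) := by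
    rw [← hα.span_eq_top_of_card_eq_finrank' (by simp), Submodule.span_le]
    rintro _ ⟨j, rfl⟩
    have hm : ∀ k, b k ∈ Submodule.span ℝ (Set.range b) := fun k => Submodule.subset_span ⟨k, rfl⟩
    refine Fin.lastCases ?_ (fun q => ?_) j
    · rw [← hL, hαL]
      exact Submodule.add_mem _ (hm _) (hm _)
    · rw [hbs q]
      exact Submodule.sub_mem _ (hm _) (hm _)
  have hb : LinearIndependent ℝ b := linearIndependent_of_top_le_span_of_card_eq_finrank hspan (by simp)
  have hne : P.castSucc ≠ L := by
    rw [Ne, Fin.ext_iff, Fin.val_castSucc, hPv, hLv]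
    omega
  refine CvD_all hb (fun p => ?_) hne ?_
  · refine inv_of hα h p.castSucc fun j => ?_
    have hg : ∀ k, CvD_G hb (Equiv.swap p.castSucc p.succ) (fun _ => 1) (b k) =
        b (Equiv.swap p.castSucc p.succ k) := fun k => by rw [CvD_G_apply, one_smul]
    have hp := p.isLt
    refine Fin.lastCases ?_ (fun q => ?_) j
    · rw [← hL]
      have hpL : p.castSucc ≠ L := by
        rw [Ne, Fin.ext_iff, Fin.val_castSucc, hLv]
        omega
      by_cases h1 : p = P
      · subst h1
        rw [CvD_M2 hpL (by rw [Fin.val_castSucc, hLv]; omega), cos_two, zero_smul, add_zero, hαL, map_add, hg, hg,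
          Equiv.swap_apply_left, hPL, Equiv.swap_apply_right]
        exact add_comm _ _
      · have h1' : (p : ℕ) ≠ m := fun he => h1 (Fin.ext (by rw [he, hPv]))
        have hL2 : Equiv.swap p.castSucc p.succ L = L := by
          refine Equiv.swap_apply_of_ne_of_ne hpL.symm ?_
          rw [Ne, Fin.ext_iff, Fin.val_succ, hLv]
          omega
        by_cases h2 : (p : ℕ) + 1 = m
        · have h3 : p.succ = P.castSucc := by
            rw [Fin.ext_iff, Fin.val_succ, Fin.val_castSucc, hPv, h2]
          rw [CvD_M3 hpL (by rw [Fin.val_castSucc, hLv]; omega), cos_three, one_smul, hαL, map_add, hg, hg, hL2,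
            ← h3, Equiv.swap_apply_right, hbs p]
          module
        · rw [CvD_M2 hpL (by rw [Fin.val_castSucc, hLv]; omega), cos_two, zero_smul, add_zero, hαL, map_add, hg, hg,
            hL2, Equiv.swap_apply_of_ne_of_ne]
          · rw [Ne, Fin.ext_iff, Fin.val_castSucc, Fin.val_castSucc, hPv]
            omega
          · rw [Ne, Fin.ext_iff, Fin.val_castSucc, Fin.val_succ, hPv]
            omega
    · have hq := q.isLt
      by_cases h1 : q = p
      · subst h1
        rw [CvD_M1, cos_one, hbs q, map_sub, hg, hg, Equiv.swap_apply_left, Equiv.swap_apply_right]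
        module
      · have h1' : (q : ℕ) ≠ p := fun he => h1 (Fin.ext he)
        have hpq : p.castSucc ≠ q.castSucc := by
          rw [Ne, Fin.ext_iff, Fin.val_castSucc, Fin.val_castSucc]
          omega
        by_cases h2 : (p : ℕ) + 1 = q
        · have h3 : p.succ = q.castSucc := by
            rw [Fin.ext_iff, Fin.val_succ, Fin.val_castSucc, h2]
          have h4 : Equiv.swap p.castSucc p.succ q.succ = q.succ := by
            refine Equiv.swap_apply_of_ne_of_ne ?_ ?_
            · rw [Ne, Fin.ext_iff, Fin.val_succ, Fin.val_castSucc]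
              omega
            · rw [Ne, Fin.ext_iff, Fin.val_succ, Fin.val_succ]
              omega
          rw [CvD_M3 hpq (by rw [Fin.val_castSucc, Fin.val_castSucc]; omega), cos_three, one_smul, hbs q, hbs p,
            map_sub, hg, hg, h4, ← h3, Equiv.swap_apply_right]
          module
        · by_cases h5 : (q : ℕ) + 1 = p
          · have h3 : q.succ = p.castSucc := by
              rw [Fin.ext_iff, Fin.val_succ, Fin.val_castSucc, h5]
            have h4 : Equiv.swap p.castSucc p.succ q.castSucc = q.castSucc := by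
              refine Equiv.swap_apply_of_ne_of_ne hpq.symm ?_
              rw [Ne, Fin.ext_iff, Fin.val_castSucc, Fin.val_succ]
              omega
            rw [CvD_M3 hpq (by rw [Fin.val_castSucc, Fin.val_castSucc]; omega), cos_three, one_smul, hbs q, hbs p,
              map_sub, hg, hg, h4, h3, Equiv.swap_apply_left]
            module
          · rw [CvD_M2 hpq (by rw [Fin.val_castSucc, Fin.val_castSucc]; omega), cos_two, zero_smul, add_zero, hbs q,
              map_sub, hg, hg, Equiv.swap_apply_of_ne_of_ne hpq.symm, Equiv.swap_apply_of_ne_of_ne]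
            · rw [Ne, Fin.ext_iff, Fin.val_succ, Fin.val_castSucc]
              omega
            · rw [Ne, Fin.ext_iff, Fin.val_succ, Fin.val_succ]
              omega
            · rw [Ne, Fin.ext_iff, Fin.val_castSucc, Fin.val_succ]
              omega
  · refine inv_of hα h L fun j => ?_
    have hg : ∀ k, CvD_G hb (Equiv.swap P.castSucc L) (CvD_e P.castSucc L) (b k) =
        CvD_e P.castSucc L k • b (Equiv.swap P.castSucc L k) := fun k => CvD_G_apply _ _ _ _
    have hgP : CvD_G hb (Equiv.swap P.castSucc L) (CvD_e P.castSucc L) (b P.castSucc) = - b L := by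
      rw [hg, Equiv.swap_apply_left]
      unfold CvD_e
      rw [if_pos (Or.inl rfl), neg_one_smul]
    have hgL : CvD_G hb (Equiv.swap P.castSucc L) (CvD_e P.castSucc L) (b L) = - b P.castSucc := by
      rw [hg, Equiv.swap_apply_right]
      unfold CvD_e
      rw [if_pos (Or.inr rfl), neg_one_smul]
    have hgo : ∀ k, k ≠ P.castSucc → k ≠ L →
        CvD_G hb (Equiv.swap P.castSucc L) (CvD_e P.castSucc L) (b k) = b k := by
      intro k h1 h2
      rw [hg, Equiv.swap_apply_of_ne_of_ne h1 h2]
      unfold CvD_e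
      rw [if_neg (by rintro (h3 | h3) <;> contradiction), one_smul]
    refine Fin.lastCases ?_ (fun q => ?_) j
    · rw [← hL, CvD_M1, cos_one, hαL, map_add, hgP, hgL]
      module
    · have hq := q.isLt
      have hLq : L ≠ q.castSucc := by
        rw [Ne, Fin.ext_iff, Fin.val_castSucc, hLv]
        omega
      by_cases h1 : q = P
      · subst h1
        rw [CvD_M2 hLq (by rw [Fin.val_castSucc, hLv]; omega), cos_two, zero_smul, add_zero, hbs q, hPL, map_sub, hgP,
          hgL]
        module
      · have h1' : (q : ℕ) ≠ m := fun he => h1 (Fin.ext (by rw [he, hPv]))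
        have hq1 : q.castSucc ≠ P.castSucc := by
          rw [Ne, Fin.ext_iff, Fin.val_castSucc, Fin.val_castSucc, hPv]
          omega
        by_cases h2 : (q : ℕ) + 1 = m
        · have h3 : q.succ = P.castSucc := by
            rw [Fin.ext_iff, Fin.val_succ, Fin.val_castSucc, hPv, h2]
          rw [CvD_M3 hLq (by rw [Fin.val_castSucc, hLv]; omega), cos_three, one_smul, hbs q, h3, map_sub, hgP,
            hgo _ hq1 hLq.symm, hαL]
          module
        · rw [CvD_M2 hLq (by rw [Fin.val_castSucc, hLv]; omega), cos_two, zero_smul, add_zero, hbs q, map_sub,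
            hgo _ hq1 hLq.symm, hgo]
          · rw [Ne, Fin.ext_iff, Fin.val_castSucc, Fin.val_succ, hPv]
            omega
          · rw [Ne, Fin.ext_iff, Fin.val_succ, hLv]
            omega

end Pool.Agent.Lib.MP_5e7226_co.RG
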