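import Pool.Agent.Lib.MP_5e7226_co.RG.Cv0

set_option autoImplicit false

/-! Reflections in integer combinations of the simple roots (simply laced types). -/

namespace Pool.Agent.Lib.MP_5e7226_co.RG

open Matrix

variable {d : ℕ}

/-- The reflection in `r`, in coordinates. -/
noncomputable def rf (A : Matrix (Fin d) (Fin d) ℝ) (r c : Fin d → ℝ) : Fin d → ℝ :=
  c - (c ⬝ᵥ (A *ᵥ r)) • r

theorem rf_rf {A : Matrix (Fin d) (Fin d) ℝ} (hA : A.IsSymm) {e : Fin d → ℝ}
    (he : e ⬝ᵥ (A *ᵥ e) = 2) (r c : Fin d → ℝ) :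
    rf A (rf A e r) c = rf A e (rf A r (rf A e c)) := by
  have hs : ∀ x y : Fin d → ℝ, x ⬝ᵥ (A *ᵥ y) = y ⬝ᵥ (A *ᵥ x) := fun x y => by
    rw [dotProduct_mulVec, ← mulVec_transpose, hA.eq, dotProduct_comm]
  funext j
  simp only [rf, mulVec_sub, mulVec_smul, dotProduct_sub, sub_dotProduct, smul_dotProduct,
    dotProduct_smul, smul_eq_mul, Pi.sub_apply, Pi.smul_apply, he]
  rw [hs e r]
  ring

/-- `K` is invariant about `o` under the reflection in `r`. -/
def InvR (α : Fin d → EuclideanSpace ℝ (Fin d)) (o : EuclideanSpace ℝ (Fin d))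
    (K : Set (EuclideanSpace ℝ (Fin d))) (A : Matrix (Fin d) (Fin d) ℝ) (r : Fin d → ℝ) : Prop :=
  ∀ c : Fin d → ℝ, o + ∑ j, c j • α j ∈ K → o + ∑ j, (rf A r c) j • α j ∈ K

/-- The data of a simply laced type: `C` is the Cartan matrix of `M`. -/
def Laced (M : Matrix (Fin d) (Fin d) ℕ) (C : Matrix (Fin d) (Fin d) ℤ) : Prop :=
  (∀ i j, C i j = C j i) ∧ (∀ i, C i i = 2) ∧
    ∀ i j, (M i j = 1 ∧ C i j = 2) ∨ (M i j = 2 ∧ C i j = 0) ∨ (M i j = 3 ∧ C i j = -1)

theorem Laced.cos {M : Matrix (Fin d) (Fin d) ℕ} {C : Matrix (Fin d) (Fin d) ℤ} (h : Laced M C)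
    (i j : Fin d) : 2 * Real.cos (Real.pi / M i j) = -(C i j : ℝ) := by
  rcases h.2.2 i j with ⟨h1, h2⟩ | ⟨h1, h2⟩ | ⟨h1, h2⟩
  · rw [h1, h2, cos_one]; norm_num
  · rw [h1, h2, cos_two]; norm_num
  · rw [h1, h2, cos_three]; norm_num

/-- Integer vectors as real vectors. -/
def rc (r : Fin d → ℤ) : Fin d → ℝ := fun i => (r i : ℝ)

/-- The integer reflection in the `i`-th simple root. -/
def sti (C : Matrix (Fin d) (Fin d) ℤ) (i : Fin d) (r : Fin d → ℤ) : Fin d → ℤ :=
  fun k => if k = i then r k - ∑ l, C i l * r l else r k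

theorem rc_sti {C : Matrix (Fin d) (Fin d) ℤ} (hC : ∀ i j, C i j = C j i) (i : Fin d)
    (r : Fin d → ℤ) : rc (sti C i r) = rf (C.map (Int.cast : ℤ → ℝ)) (Pi.single i 1) (rc r) := by
  funext k
  have h1 : rc r ⬝ᵥ ((C.map (Int.cast : ℤ → ℝ)) *ᵥ (Pi.single i 1)) = ∑ l, (C i l : ℝ) * r l := by
    rw [mulVec_single_one]
    simp only [dotProduct, rc, col_apply, map_apply]
    exact Finset.sum_congr rfl fun l _ => by rw [hC l i]; ring
  by_cases hk : k = i
  · subst hk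
    simp only [rf, Pi.sub_apply, Pi.smul_apply, Pi.single_eq_same, smul_eq_mul, mul_one, h1]
    simp [rc, sti]
  · simp only [rf, Pi.sub_apply, Pi.smul_apply, smul_eq_mul, h1]
    simp [rc, sti, hk]

theorem invR_simple {M : Matrix (Fin d) (Fin d) ℕ} {C : Matrix (Fin d) (Fin d) ℤ}
    (hC : Laced M C) {α : Fin d → EuclideanSpace ℝ (Fin d)} {o : EuclideanSpace ℝ (Fin d)}
    {K : Set (EuclideanSpace ℝ (Fin d))} (h : Invariant M α o K) (i : Fin d) :
    InvR α o K (C.map (Int.cast : ℤ → ℝ)) (Pi.single i 1) := by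
  intro c hc
  have h1 := h i c hc
  have h2 : ∑ j, (rf (C.map (Int.cast : ℤ → ℝ)) (Pi.single i 1) c) j • α j =
      ∑ j, c j • (α j + (2 * Real.cos (Real.pi / M i j)) • α i) := by
    have h3 : c ⬝ᵥ ((C.map (Int.cast : ℤ → ℝ)) *ᵥ (Pi.single i 1)) = ∑ l, (C i l : ℝ) * c l := by
      rw [mulVec_single_one]
      simp only [dotProduct, col_apply, map_apply]
      exact Finset.sum_congr rfl fun l _ => by rw [hC.1 l i]; ring
    have h4 : ∀ j, c j • (α j + (2 * Real.cos (Real.pi / M i j)) • α i) =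
        c j • α j - ((C i j : ℝ) * c j) • α i := fun j => by
      rw [hC.cos, smul_add, smul_smul, sub_eq_add_neg, ← neg_smul]
      congr 2
      ring
    simp only [h4, Finset.sum_sub_distrib, ← Finset.sum_smul]
    simp only [rf, h3, Pi.sub_apply, Pi.smul_apply, smul_eq_mul, sub_smul, Finset.sum_sub_distrib]
    congr 1
    rw [Finset.sum_eq_single i]
    · simp
    · intro b _ hb
      simp [Pi.single_eq_of_ne hb]
    · intro hi
      exact (hi (Finset.mem_univ _)).elim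
  rw [h2]
  exact h1

theorem InvR.step {M : Matrix (Fin d) (Fin d) ℕ} {C : Matrix (Fin d) (Fin d) ℤ}
    (hC : Laced M C) {α : Fin d → EuclideanSpace ℝ (Fin d)} {o : EuclideanSpace ℝ (Fin d)}
    {K : Set (EuclideanSpace ℝ (Fin d))} (h : Invariant M α o K) {r : Fin d → ℤ}
    (hr : InvR α o K (C.map (Int.cast : ℤ → ℝ)) (rc r)) (i : Fin d) {r' : Fin d → ℤ}
    (h' : sti C i r = r') : InvR α o K (C.map (Int.cast : ℤ → ℝ)) (rc r') := by
  intro c hc
  have hs : (C.map (Int.cast : ℤ → ℝ)).IsSymm := by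
    ext a b
    simp [hC.1 a b]
  have he : (Pi.single i 1 : Fin d → ℝ) ⬝ᵥ
      ((C.map (Int.cast : ℤ → ℝ)) *ᵥ (Pi.single i 1)) = 2 := by
    rw [mulVec_single_one, single_one_dotProduct]
    simp [hC.2.1 i]
  rw [← h', rc_sti hC.1, rf_rf hs he]
  have h1 := invR_simple hC h i
  exact h1 _ (hr _ (h1 _ hc))

/-- The reflections in the opposite vectors agree. -/
theorem InvR.neg {A : Matrix (Fin d) (Fin d) ℝ} {α : Fin d → EuclideanSpace ℝ (Fin d)}
    {o : EuclideanSpace ℝ (Fin d)} {K : Set (EuclideanSpace ℝ (Fin d))} {r : Fin d → ℤ}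
    (hr : InvR α o K A (rc r)) : InvR α o K A (rc (-r)) := by
  intro c hc
  have h1 : rf A (rc (-r)) c = rf A (rc r) c := by
    have h2 : rc (-r) = -rc r := by
      funext i
      simp [rc]
    rw [h2]
    simp [rf, mulVec_neg]
  rw [h1]
  exact hr c hc

/-- New simple roots: `β k = ∑ j, P k j • α j`. -/
theorem laced_sub {N : Matrix (Fin d) (Fin d) ℕ} {C D : Matrix (Fin d) (Fin d) ℤ}
    (hN : Laced N D) {α : Fin d → EuclideanSpace ℝ (Fin d)} {o : EuclideanSpace ℝ (Fin d)}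
    {K : Set (EuclideanSpace ℝ (Fin d))} (P : Matrix (Fin d) (Fin d) ℤ)
    (hP : P * C * Pᵀ = D)
    (hr : ∀ k, InvR α o K (C.map (Int.cast : ℤ → ℝ)) (rc (P k))) :
    Invariant N (fun k => ∑ j, (P k j : ℝ) • α j) o K := by
  intro i c hc
  have key : ∀ c : Fin d → ℝ, ∑ k, c k • ∑ j, (P k j : ℝ) • α j =
      ∑ j, (∑ k, c k * (P k j : ℝ)) • α j := fun c => by
    simp only [Finset.smul_sum, smul_smul, Finset.sum_smul]
    exact Finset.sum_comm
  rw [key] at hc
  have h1 := hr i _ hc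
  have h2 : ∀ k, (∑ j, (P k j : ℝ) * ∑ l, (C j l : ℝ) * (P i l : ℝ)) = (D k i : ℝ) := fun k => by
    rw [← hP]
    simp only [mul_apply, transpose_apply, Int.cast_sum, Int.cast_mul]
    simp only [Finset.mul_sum, Finset.sum_mul]
    rw [Finset.sum_comm]
    exact Finset.sum_congr rfl fun j _ => Finset.sum_congr rfl fun l _ => by ring
  have h3 : (fun j => ∑ k, c k * (P k j : ℝ)) ⬝ᵥ ((C.map (Int.cast : ℤ → ℝ)) *ᵥ (rc (P i))) =
      ∑ k, c k * (D k i : ℝ) := by
    simp only [dotProduct, mulVec, rc, map_apply]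
    simp only [Finset.sum_mul, mul_assoc]
    rw [Finset.sum_comm]
    refine Finset.sum_congr rfl fun k _ => ?_
    rw [← Finset.mul_sum, h2]
  have h4 : ∑ j, c j • (∑ l, (P j l : ℝ) • α l + (2 * Real.cos (Real.pi / N i j)) • ∑ l, (P i l : ℝ) • α l)
      = ∑ j, (rf (C.map (Int.cast : ℤ → ℝ)) (rc (P i)) fun j => ∑ k, c k * (P k j : ℝ)) j • α j := by
    simp only [rf, h3, Pi.sub_apply, Pi.smul_apply, smul_eq_mul, sub_smul, Finset.sum_sub_distrib]
    rw [← key]
    simp only [smul_add, Finset.sum_add_distrib, sub_eq_add_neg]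
    congr 1
    simp only [hN.cos, smul_smul, ← Finset.sum_smul]
    rw [← Finset.sum_neg_distrib, Finset.smul_sum]
    refine Finset.sum_congr rfl fun l _ => ?_
    rw [smul_smul, ← neg_smul]
    congr 1
    rw [rc, Finset.sum_mul, Finset.sum_mul, ← Finset.sum_neg_distrib]
    refine Finset.sum_congr rfl fun k _ => ?_
    rw [hN.1 k i]
    ring
  rw [h4]
  exact h1

theorem linearIndependent_sub {α : Fin d → EuclideanSpace ℝ (Fin d)} (hα : LinearIndependent ℝ α)
    (P Q : Matrix (Fin d) (Fin d) ℤ) (m : ℤ) (hm : m ≠ 0) (hQ : P * Q = m • (1 : Matrix (Fin d) (Fin d) ℤ)) :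
    LinearIndependent ℝ (fun k => ∑ j, (P k j : ℝ) • α j) := by
  rw [Fintype.linearIndependent_iff]
  intro g hg l
  have key : ∑ k, g k • ∑ j, (P k j : ℝ) • α j = ∑ j, (∑ k, g k * (P k j : ℝ)) • α j := by
    simp only [Finset.smul_sum, smul_smul, Finset.sum_smul]
    exact Finset.sum_comm
  rw [key] at hg
  have h1 := (Fintype.linearIndependent_iff.mp hα) _ hg
  have h2 : ∀ k, (∑ j, (P k j : ℝ) * (Q j l : ℝ)) = (m : ℝ) * (if k = l then 1 else 0) := fun k => by
    have h3 := congrFun (congrFun hQ k) l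
    rw [mul_apply, Matrix.smul_apply, one_apply, smul_eq_mul] at h3
    have h4 := congrArg (Int.cast : ℤ → ℝ) h3
    push_cast at h4
    exact h4
  have h5 : ∑ j, (∑ k, g k * (P k j : ℝ)) * (Q j l : ℝ) = g l * m := by
    simp only [Finset.sum_mul]
    rw [Finset.sum_comm]
    have h6 : ∀ k, ∑ j, g k * (P k j : ℝ) * (Q j l : ℝ) = g k * ((m : ℝ) * (if k = l then 1 else 0)) := fun k => by
      rw [← h2 k, Finset.mul_sum]
      exact Finset.sum_congr rfl fun j _ => by ring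
    simp only [h6]
    simp
  rw [Finset.sum_eq_zero (fun j _ => by rw [h1 j, zero_mul])] at h5
  have hm' : (m : ℝ) ≠ 0 := by exact_mod_cast hm
  rcases mul_eq_zero.mp h5.symm with h | h
  · exact h
  · exact (hm' h).elim

end Pool.Agent.Lib.MP_5e7226_co.RG
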