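import Pool.Agent.Lib.MP_5e7226_co.RG.CvA
import Pool.Agent.Lib.MP_5e7226_co.RG.RefInt

set_option autoImplicit false

namespace Pool.Agent.Lib.MP_5e7226_co.RG

variable {d : ℕ}

/-- The Cartan matrix of type `E7`. -/
def cartE7 : Matrix (Fin 7) (Fin 7) ℤ :=
  !![2, 0, -1, 0, 0, 0, 0;
     0, 2, 0, -1, 0, 0, 0;
     -1, 0, 2, -1, 0, 0, 0;
     0, -1, -1, 2, -1, 0, 0;
     0, 0, 0, -1, 2, -1, 0;
     0, 0, 0, 0, -1, 2, -1;
     0, 0, 0, 0, 0, -1, 2]

/-- The Cartan matrix of type `A_7`. -/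
def cartA7 : Matrix (Fin 7) (Fin 7) ℤ := fun i j =>
  if i = j then 2 else if (j : ℕ) + 1 = i ∨ (i : ℕ) + 1 = j then -1 else 0

theorem lacedE7 : Laced CoxeterMatrix.E₇.M cartE7 := by
  refine ⟨?_, ?_, ?_⟩ <;> decide +kernel

theorem lacedA7 : Laced (CoxeterMatrix.A 7).M cartA7 := by
  refine ⟨?_, ?_, ?_⟩ <;> decide +kernel

/-- The new simple roots. -/
def newE7 : Matrix (Fin 7) (Fin 7) ℤ :=
  !![-2, -2, -3, -4, -3, -2, -1;
     1, 0, 0, 0, 0, 0, 0;
     0, 0, 1, 0, 0, 0, 0;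
     0, 0, 0, 1, 0, 0, 0;
     0, 0, 0, 0, 1, 0, 0;
     0, 0, 0, 0, 0, 1, 0;
     0, 0, 0, 0, 0, 0, 1]

/-- A multiple of the inverse matrix. -/
def invE7 : Matrix (Fin 7) (Fin 7) ℤ :=
  !![0, 2, 0, 0, 0, 0, 0;
     -1, -2, -3, -4, -3, -2, -1;
     0, 0, 2, 0, 0, 0, 0;
     0, 0, 0, 2, 0, 0, 0;
     0, 0, 0, 0, 2, 0, 0;
     0, 0, 0, 0, 0, 2, 0;
     0, 0, 0, 0, 0, 0, 2]

/-- `E_7` contains `A_7`: the extended diagram without the node `1`. -/
theorem cv_E7 {α : Fin 7 → EuclideanSpace ℝ (Fin 7)} {o : EuclideanSpace ℝ (Fin 7)}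
    {K : Set (EuclideanSpace ℝ (Fin 7))} (hα : LinearIndependent ℝ α)
    (h : Invariant CoxeterMatrix.E₇.M α o K) : SymA K o := by
  have hs : ∀ i : Fin 7, InvR α o K (cartE7.map (Int.cast : ℤ → ℝ)) (rc (Pi.single i 1)) := fun i => by
    have h1 : rc (Pi.single i 1 : Fin 7 → ℤ) = Pi.single i 1 := by
      funext j
      by_cases hj : j = i
      · subst hj; simp [rc]
      · simp [rc, hj]
    rw [h1]
    exact invR_simple lacedE7 h i
  have h0 : InvR α o K (cartE7.map (Int.cast : ℤ → ℝ)) (rc ![0, 0, 0, 0, 0, 0, 1]) := by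
    have h1 : (Pi.single 6 1 : Fin 7 → ℤ) = ![0, 0, 0, 0, 0, 0, 1] := by decide +kernel
    rw [← h1]
    exact hs 6
  have h1 := h0.step lacedE7 h 5 (r' := ![0, 0, 0, 0, 0, 1, 1]) (by decide +kernel)
  have h2 := h1.step lacedE7 h 4 (r' := ![0, 0, 0, 0, 1, 1, 1]) (by decide +kernel)
  have h3 := h2.step lacedE7 h 3 (r' := ![0, 0, 0, 1, 1, 1, 1]) (by decide +kernel)
  have h4 := h3.step lacedE7 h 2 (r' := ![0, 0, 1, 1, 1, 1, 1]) (by decide +kernel)
  have h5 := h4.step lacedE7 h 1 (r' := ![0, 1, 1, 1, 1, 1, 1]) (by decide +kernel)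
  have h6 := h5.step lacedE7 h 3 (r' := ![0, 1, 1, 2, 1, 1, 1]) (by decide +kernel)
  have h7 := h6.step lacedE7 h 4 (r' := ![0, 1, 1, 2, 2, 1, 1]) (by decide +kernel)
  have h8 := h7.step lacedE7 h 5 (r' := ![0, 1, 1, 2, 2, 2, 1]) (by decide +kernel)
  have h9 := h8.step lacedE7 h 0 (r' := ![1, 1, 1, 2, 2, 2, 1]) (by decide +kernel)
  have h10 := h9.step lacedE7 h 2 (r' := ![1, 1, 2, 2, 2, 2, 1]) (by decide +kernel)
  have h11 := h10.step lacedE7 h 3 (r' := ![1, 1, 2, 3, 2, 2, 1]) (by decide +kernel)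
  have h12 := h11.step lacedE7 h 4 (r' := ![1, 1, 2, 3, 3, 2, 1]) (by decide +kernel)
  have h13 := h12.step lacedE7 h 1 (r' := ![1, 2, 2, 3, 3, 2, 1]) (by decide +kernel)
  have h14 := h13.step lacedE7 h 3 (r' := ![1, 2, 2, 4, 3, 2, 1]) (by decide +kernel)
  have h15 := h14.step lacedE7 h 2 (r' := ![1, 2, 3, 4, 3, 2, 1]) (by decide +kernel)
  have h16 := h15.step lacedE7 h 0 (r' := ![2, 2, 3, 4, 3, 2, 1]) (by decide +kernel)
  have hr : ∀ k, InvR α o K (cartE7.map (Int.cast : ℤ → ℝ)) (rc (newE7 k)) := by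
    intro k
    fin_cases k
    · have h' : newE7 0 = -(![2, 2, 3, 4, 3, 2, 1] : Fin 7 → ℤ) := by decide +kernel
      have h'' := h16.neg
      rw [← h'] at h''
      exact h''
    · have h' : newE7 1 = (Pi.single 0 1 : Fin 7 → ℤ) := by decide +kernel
      have h'' := hs 0
      rw [← h'] at h''
      exact h''
    · have h' : newE7 2 = (Pi.single 2 1 : Fin 7 → ℤ) := by decide +kernel
      have h'' := hs 2
      rw [← h'] at h''
      exact h''
    · have h' : newE7 3 = (Pi.single 3 1 : Fin 7 → ℤ) := by decide +kernel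
      have h'' := hs 3
      rw [← h'] at h''
      exact h''
    · have h' : newE7 4 = (Pi.single 4 1 : Fin 7 → ℤ) := by decide +kernel
      have h'' := hs 4
      rw [← h'] at h''
      exact h''
    · have h' : newE7 5 = (Pi.single 5 1 : Fin 7 → ℤ) := by decide +kernel
      have h'' := hs 5
      rw [← h'] at h''
      exact h''
    · have h' : newE7 6 = (Pi.single 6 1 : Fin 7 → ℤ) := by decide +kernel
      have h'' := hs 6
      rw [← h'] at h''
      exact h''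
  exact cv_A (by norm_num) (linearIndependent_sub hα newE7 invE7 2 (by norm_num) (by decide +kernel))
    (laced_sub lacedA7 newE7 (by decide +kernel) hr)

end Pool.Agent.Lib.MP_5e7226_co.RG
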