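import Pool.Agent.Lib.MP_5e7226_co.RG.CvA
import Pool.Agent.Lib.MP_5e7226_co.RG.RefInt

set_option autoImplicit false

namespace Pool.Agent.Lib.MP_5e7226_co.RG

variable {d : ℕ}

/-- The Cartan matrix of type `E8`. -/
def cartE8 : Matrix (Fin 8) (Fin 8) ℤ :=
  !![2, 0, -1, 0, 0, 0, 0, 0;
     0, 2, 0, -1, 0, 0, 0, 0;
     -1, 0, 2, -1, 0, 0, 0, 0;
     0, -1, -1, 2, -1, 0, 0, 0;
     0, 0, 0, -1, 2, -1, 0, 0;
     0, 0, 0, 0, -1, 2, -1, 0;
     0, 0, 0, 0, 0, -1, 2, -1;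
     0, 0, 0, 0, 0, 0, -1, 2]

/-- The Cartan matrix of type `A_8`. -/
def cartA8 : Matrix (Fin 8) (Fin 8) ℤ := fun i j =>
  if i = j then 2 else if (j : ℕ) + 1 = i ∨ (i : ℕ) + 1 = j then -1 else 0

theorem lacedE8 : Laced CoxeterMatrix.E₈.M cartE8 := by
  refine ⟨?_, ?_, ?_⟩ <;> decide +kernel

theorem lacedA8 : Laced (CoxeterMatrix.A 8).M cartA8 := by
  refine ⟨?_, ?_, ?_⟩ <;> decide +kernel

/-- The new simple roots. -/
def newE8 : Matrix (Fin 8) (Fin 8) ℤ :=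
  !![-2, -3, -4, -6, -5, -4, -3, -2;
     0, 0, 0, 0, 0, 0, 0, 1;
     0, 0, 0, 0, 0, 0, 1, 0;
     0, 0, 0, 0, 0, 1, 0, 0;
     0, 0, 0, 0, 1, 0, 0, 0;
     0, 0, 0, 1, 0, 0, 0, 0;
     0, 0, 1, 0, 0, 0, 0, 0;
     1, 0, 0, 0, 0, 0, 0, 0]

/-- A multiple of the inverse matrix. -/
def invE8 : Matrix (Fin 8) (Fin 8) ℤ :=
  !![0, 0, 0, 0, 0, 0, 0, 3;
     -1, -2, -3, -4, -5, -6, -4, -2;
     0, 0, 0, 0, 0, 0, 3, 0;
     0, 0, 0, 0, 0, 3, 0, 0;
     0, 0, 0, 0, 3, 0, 0, 0;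
     0, 0, 0, 3, 0, 0, 0, 0;
     0, 0, 3, 0, 0, 0, 0, 0;
     0, 3, 0, 0, 0, 0, 0, 0]

/-- `E_8` contains `A_8`: the extended diagram without the node `1`. -/
theorem cv_E8 {α : Fin 8 → EuclideanSpace ℝ (Fin 8)} {o : EuclideanSpace ℝ (Fin 8)}
    {K : Set (EuclideanSpace ℝ (Fin 8))} (hα : LinearIndependent ℝ α)
    (h : Invariant CoxeterMatrix.E₈.M α o K) : SymA K o := by
  have hs : ∀ i : Fin 8, InvR α o K (cartE8.map (Int.cast : ℤ → ℝ)) (rc (Pi.single i 1)) := fun i => by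
    have h1 : rc (Pi.single i 1 : Fin 8 → ℤ) = Pi.single i 1 := by
      funext j
      by_cases hj : j = i
      · subst hj; simp [rc]
      · simp [rc, hj]
    rw [h1]
    exact invR_simple lacedE8 h i
  have h0 : InvR α o K (cartE8.map (Int.cast : ℤ → ℝ)) (rc ![0, 0, 0, 0, 0, 0, 0, 1]) := by
    have h1 : (Pi.single 7 1 : Fin 8 → ℤ) = ![0, 0, 0, 0, 0, 0, 0, 1] := by decide +kernel
    rw [← h1]
    exact hs 7
  have h1 := h0.step lacedE8 h 6 (r' := ![0, 0, 0, 0, 0, 0, 1, 1]) (by decide +kernel)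
  have h2 := h1.step lacedE8 h 5 (r' := ![0, 0, 0, 0, 0, 1, 1, 1]) (by decide +kernel)
  have h3 := h2.step lacedE8 h 4 (r' := ![0, 0, 0, 0, 1, 1, 1, 1]) (by decide +kernel)
  have h4 := h3.step lacedE8 h 3 (r' := ![0, 0, 0, 1, 1, 1, 1, 1]) (by decide +kernel)
  have h5 := h4.step lacedE8 h 2 (r' := ![0, 0, 1, 1, 1, 1, 1, 1]) (by decide +kernel)
  have h6 := h5.step lacedE8 h 1 (r' := ![0, 1, 1, 1, 1, 1, 1, 1]) (by decide +kernel)
  have h7 := h6.step lacedE8 h 3 (r' := ![0, 1, 1, 2, 1, 1, 1, 1]) (by decide +kernel)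
  have h8 := h7.step lacedE8 h 4 (r' := ![0, 1, 1, 2, 2, 1, 1, 1]) (by decide +kernel)
  have h9 := h8.step lacedE8 h 5 (r' := ![0, 1, 1, 2, 2, 2, 1, 1]) (by decide +kernel)
  have h10 := h9.step lacedE8 h 6 (r' := ![0, 1, 1, 2, 2, 2, 2, 1]) (by decide +kernel)
  have h11 := h10.step lacedE8 h 0 (r' := ![1, 1, 1, 2, 2, 2, 2, 1]) (by decide +kernel)
  have h12 := h11.step lacedE8 h 2 (r' := ![1, 1, 2, 2, 2, 2, 2, 1]) (by decide +kernel)
  have h13 := h12.step lacedE8 h 3 (r' := ![1, 1, 2, 3, 2, 2, 2, 1]) (by decide +kernel)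
  have h14 := h13.step lacedE8 h 4 (r' := ![1, 1, 2, 3, 3, 2, 2, 1]) (by decide +kernel)
  have h15 := h14.step lacedE8 h 5 (r' := ![1, 1, 2, 3, 3, 3, 2, 1]) (by decide +kernel)
  have h16 := h15.step lacedE8 h 1 (r' := ![1, 2, 2, 3, 3, 3, 2, 1]) (by decide +kernel)
  have h17 := h16.step lacedE8 h 3 (r' := ![1, 2, 2, 4, 3, 3, 2, 1]) (by decide +kernel)
  have h18 := h17.step lacedE8 h 4 (r' := ![1, 2, 2, 4, 4, 3, 2, 1]) (by decide +kernel)
  have h19 := h18.step lacedE8 h 2 (r' := ![1, 2, 3, 4, 4, 3, 2, 1]) (by decide +kernel)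
  have h20 := h19.step lacedE8 h 3 (r' := ![1, 2, 3, 5, 4, 3, 2, 1]) (by decide +kernel)
  have h21 := h20.step lacedE8 h 0 (r' := ![2, 2, 3, 5, 4, 3, 2, 1]) (by decide +kernel)
  have h22 := h21.step lacedE8 h 2 (r' := ![2, 2, 4, 5, 4, 3, 2, 1]) (by decide +kernel)
  have h23 := h22.step lacedE8 h 1 (r' := ![2, 3, 4, 5, 4, 3, 2, 1]) (by decide +kernel)
  have h24 := h23.step lacedE8 h 3 (r' := ![2, 3, 4, 6, 4, 3, 2, 1]) (by decide +kernel)
  have h25 := h24.step lacedE8 h 4 (r' := ![2, 3, 4, 6, 5, 3, 2, 1]) (by decide +kernel)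
  have h26 := h25.step lacedE8 h 5 (r' := ![2, 3, 4, 6, 5, 4, 2, 1]) (by decide +kernel)
  have h27 := h26.step lacedE8 h 6 (r' := ![2, 3, 4, 6, 5, 4, 3, 1]) (by decide +kernel)
  have h28 := h27.step lacedE8 h 7 (r' := ![2, 3, 4, 6, 5, 4, 3, 2]) (by decide +kernel)
  have hr : ∀ k, InvR α o K (cartE8.map (Int.cast : ℤ → ℝ)) (rc (newE8 k)) := by
    intro k
    fin_cases k
    · have h' : newE8 0 = -(![2, 3, 4, 6, 5, 4, 3, 2] : Fin 8 → ℤ) := by decide +kernel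
      have h'' := h28.neg
      rw [← h'] at h''
      exact h''
    · have h' : newE8 1 = (Pi.single 7 1 : Fin 8 → ℤ) := by decide +kernel
      have h'' := hs 7
      rw [← h'] at h''
      exact h''
    · have h' : newE8 2 = (Pi.single 6 1 : Fin 8 → ℤ) := by decide +kernel
      have h'' := hs 6
      rw [← h'] at h''
      exact h''
    · have h' : newE8 3 = (Pi.single 5 1 : Fin 8 → ℤ) := by decide +kernel
      have h'' := hs 5
      rw [← h'] at h''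
      exact h''
    · have h' : newE8 4 = (Pi.single 4 1 : Fin 8 → ℤ) := by decide +kernel
      have h'' := hs 4
      rw [← h'] at h''
      exact h''
    · have h' : newE8 5 = (Pi.single 3 1 : Fin 8 → ℤ) := by decide +kernel
      have h'' := hs 3
      rw [← h'] at h''
      exact h''
    · have h' : newE8 6 = (Pi.single 2 1 : Fin 8 → ℤ) := by decide +kernel
      have h'' := hs 2
      rw [← h'] at h''
      exact h''
    · have h' : newE8 7 = (Pi.single 0 1 : Fin 8 → ℤ) := by decide +kernel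
      have h'' := hs 0
      rw [← h'] at h''
      exact h''
  exact cv_A (by norm_num) (linearIndependent_sub hα newE8 invE8 3 (by norm_num) (by decide +kernel))
    (laced_sub lacedA8 newE8 (by decide +kernel) hr)

end Pool.Agent.Lib.MP_5e7226_co.RG
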