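import Pool.Agent.Lib.MP_5e7226_co.RG.CvD

set_option autoImplicit false

namespace Pool.Agent.Lib.MP_5e7226_co.RG

variable {d : ℕ}

set_option linter.unusedSimpArgs false in
/-- PROOF. The long roots form `D_4`: find `β : Fin 4 → _` with `Invariant (matrixD 4) β o K` (each `β k = w (α j)`, `w` a product of simple reflections; the reflection in `β k` is `w s_j w⁻¹`) and use
`cv_D`. Coordinates: `√2 α 0 = e1 - e2`, `√2 α 1 = e2 - e3`, `α 2 = e3`, `α 3 = (e0 - e1 - e2 - e3) / 2`; `√2 β = e0 - e1, e1 - e2, e2 - e3, e2 + e3`. -/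
theorem cv_F4 {α : Fin 4 → EuclideanSpace ℝ (Fin 4)} {o : EuclideanSpace ℝ (Fin 4)}
    {K : Set (EuclideanSpace ℝ (Fin 4))} (hα : LinearIndependent ℝ α)
    (h : Invariant CoxeterMatrix.F₄.M α o K) : SymD K o := by
  have hr : Real.sqrt 2 * Real.sqrt 2 = 2 := Real.mul_self_sqrt (by norm_num)
  set r := Real.sqrt 2 with hrdef
  have c1 : ∀ M : ℕ, M = 1 → 2 * Real.cos (Real.pi / ((M : ℕ) : ℝ)) = -2 := by
    rintro _ rfl; exact cos_one
  have c2 : ∀ M : ℕ, M = 2 → 2 * Real.cos (Real.pi / ((M : ℕ) : ℝ)) = 0 := by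
    rintro _ rfl; exact cos_two
  have c3 : ∀ M : ℕ, M = 3 → 2 * Real.cos (Real.pi / ((M : ℕ) : ℝ)) = 1 := by
    rintro _ rfl; exact cos_three
  have c4 : ∀ M : ℕ, M = 4 → 2 * Real.cos (Real.pi / ((M : ℕ) : ℝ)) = r := by
    rintro _ rfl; exact cos_four
  have s := sr_apply CoxeterMatrix.F₄.M hα
  have s00 : sr CoxeterMatrix.F₄.M hα 0 (α 0) = - α 0 := by
    rw [s, c1 (CoxeterMatrix.F₄.M 0 0) rfl]; module
  have s01 : sr CoxeterMatrix.F₄.M hα 0 (α 1) = α 1 + α 0 := by
    rw [s, c3 (CoxeterMatrix.F₄.M 0 1) rfl]; module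
  have s02 : sr CoxeterMatrix.F₄.M hα 0 (α 2) = α 2 := by
    rw [s, c2 (CoxeterMatrix.F₄.M 0 2) rfl]; module
  have s03 : sr CoxeterMatrix.F₄.M hα 0 (α 3) = α 3 := by
    rw [s, c2 (CoxeterMatrix.F₄.M 0 3) rfl]; module
  have s10 : sr CoxeterMatrix.F₄.M hα 1 (α 0) = α 0 + α 1 := by
    rw [s, c3 (CoxeterMatrix.F₄.M 1 0) rfl]; module
  have s11 : sr CoxeterMatrix.F₄.M hα 1 (α 1) = - α 1 := by
    rw [s, c1 (CoxeterMatrix.F₄.M 1 1) rfl]; module
  have s12 : sr CoxeterMatrix.F₄.M hα 1 (α 2) = α 2 + r • α 1 := by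
    rw [s, c4 (CoxeterMatrix.F₄.M 1 2) rfl]
  have s13 : sr CoxeterMatrix.F₄.M hα 1 (α 3) = α 3 := by
    rw [s, c2 (CoxeterMatrix.F₄.M 1 3) rfl]; module
  have s20 : sr CoxeterMatrix.F₄.M hα 2 (α 0) = α 0 := by
    rw [s, c2 (CoxeterMatrix.F₄.M 2 0) rfl]; module
  have s21 : sr CoxeterMatrix.F₄.M hα 2 (α 1) = α 1 + r • α 2 := by
    rw [s, c4 (CoxeterMatrix.F₄.M 2 1) rfl]
  have s22 : sr CoxeterMatrix.F₄.M hα 2 (α 2) = - α 2 := by
    rw [s, c1 (CoxeterMatrix.F₄.M 2 2) rfl]; module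
  have s23 : sr CoxeterMatrix.F₄.M hα 2 (α 3) = α 3 + α 2 := by
    rw [s, c3 (CoxeterMatrix.F₄.M 2 3) rfl]; module
  have s30 : sr CoxeterMatrix.F₄.M hα 3 (α 0) = α 0 := by
    rw [s, c2 (CoxeterMatrix.F₄.M 3 0) rfl]; module
  have s31 : sr CoxeterMatrix.F₄.M hα 3 (α 1) = α 1 := by
    rw [s, c2 (CoxeterMatrix.F₄.M 3 1) rfl]; module
  have s32 : sr CoxeterMatrix.F₄.M hα 3 (α 2) = α 2 + α 3 := by
    rw [s, c3 (CoxeterMatrix.F₄.M 3 2) rfl]; module
  have s33 : sr CoxeterMatrix.F₄.M hα 3 (α 3) = - α 3 := by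
    rw [s, c1 (CoxeterMatrix.F₄.M 3 3) rfl]; module
  clear s
  set β : Fin 4 → EuclideanSpace ℝ (Fin 4) :=
    ![α 1 + r • α 2 + r • α 3, α 0, α 1, α 1 + r • α 2] with hβ
  have b0 : β 0 = α 1 + r • α 2 + r • α 3 := rfl
  have b1 : β 1 = α 0 := rfl
  have b2 : β 2 = α 1 := rfl
  have b3 : β 3 = α 1 + r • α 2 := rfl
  have hrpos : 0 < r := Real.sqrt_pos.2 (by norm_num)
  have hli : LinearIndependent ℝ β := by
    rw [Fintype.linearIndependent_iff] at hα ⊢
    intro c hc
    rw [Fin.sum_univ_four, b0, b1, b2, b3] at hc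
    have h1 := hα ![c 1, c 0 + c 2 + c 3, r * c 0 + r * c 3, r * c 0] (by
      rw [Fin.sum_univ_four]
      show c 1 • α 0 + (c 0 + c 2 + c 3) • α 1 + (r * c 0 + r * c 3) • α 2 + (r * c 0) • α 3 = 0
      rw [← hc]; module)
    have e0 : c 1 = 0 := h1 0
    have e1 : c 0 + c 2 + c 3 = 0 := h1 1
    have e2 : r * c 0 + r * c 3 = 0 := h1 2
    have e3 : r * c 0 = 0 := h1 3
    have f0 : c 0 = 0 := by
      rcases mul_eq_zero.1 e3 with h | h
      · exact absurd h hrpos.ne'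
      · exact h
    have f3 : c 3 = 0 := by
      rw [f0, mul_zero, zero_add] at e2
      rcases mul_eq_zero.1 e2 with h | h
      · exact absurd h hrpos.ne'
      · exact h
    have f2 : c 2 = 0 := by rw [f0, f3] at e1; simpa using e1
    intro i
    fin_cases i
    · exact f0
    · exact e0
    · exact f2
    · exact f3
  have i0 := inv_sr hα h 0
  have i1 := inv_sr hα h 1
  have i2 := inv_sr hα h 2
  have i3 := inv_sr hα h 3
  refine cv_D (by norm_num) hli ?_
  have key : ∀ i : Fin 4, ∃ g : EuclideanSpace ℝ (Fin 4) →ₗ[ℝ] EuclideanSpace ℝ (Fin 4),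
      Inv K o g ∧ ∀ j, g (β j) = β j + (2 * Real.cos (Real.pi / (matrixD 4 i j))) • β i := by
    intro i
    have hg3 : Inv K o (sr CoxeterMatrix.F₄.M hα 2 ∘ₗ sr CoxeterMatrix.F₄.M hα 1 ∘ₗ
        sr CoxeterMatrix.F₄.M hα 2) := i2.comp (i1.comp i2)
    fin_cases i
    · refine ⟨sr CoxeterMatrix.F₄.M hα 3 ∘ₗ (sr CoxeterMatrix.F₄.M hα 2 ∘ₗ sr CoxeterMatrix.F₄.M hα 1 ∘ₗ
        sr CoxeterMatrix.F₄.M hα 2) ∘ₗ sr CoxeterMatrix.F₄.M hα 3, i3.comp (hg3.comp i3), ?_⟩
      intro j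
      fin_cases j
      · show (sr CoxeterMatrix.F₄.M hα 3 ∘ₗ (sr CoxeterMatrix.F₄.M hα 2 ∘ₗ sr CoxeterMatrix.F₄.M hα 1 ∘ₗ
        sr CoxeterMatrix.F₄.M hα 2) ∘ₗ sr CoxeterMatrix.F₄.M hα 3) (β 0) =
          β 0 + (2 * Real.cos (Real.pi / (matrixD 4 0 0))) • β 0
        rw [c1 (matrixD 4 0 0) rfl]
        simp only [LinearMap.comp_apply, b0, b1, b2, b3, map_add, map_smul, map_neg, smul_add,
          smul_neg, smul_smul, hr, s00, s01, s02, s03, s10, s11, s12, s13, s20, s21, s22, s23,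
          s30, s31, s32, s33]
        try module
      · show (sr CoxeterMatrix.F₄.M hα 3 ∘ₗ (sr CoxeterMatrix.F₄.M hα 2 ∘ₗ sr CoxeterMatrix.F₄.M hα 1 ∘ₗ
        sr CoxeterMatrix.F₄.M hα 2) ∘ₗ sr CoxeterMatrix.F₄.M hα 3) (β 1) =
          β 1 + (2 * Real.cos (Real.pi / (matrixD 4 0 1))) • β 0
        rw [c3 (matrixD 4 0 1) rfl]
        simp only [LinearMap.comp_apply, b0, b1, b2, b3, map_add, map_smul, map_neg, smul_add,
          smul_neg, smul_smul, hr, s00, s01, s02, s03, s10, s11, s12, s13, s20, s21, s22, s23,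
          s30, s31, s32, s33]
        try module
      · show (sr CoxeterMatrix.F₄.M hα 3 ∘ₗ (sr CoxeterMatrix.F₄.M hα 2 ∘ₗ sr CoxeterMatrix.F₄.M hα 1 ∘ₗ
        sr CoxeterMatrix.F₄.M hα 2) ∘ₗ sr CoxeterMatrix.F₄.M hα 3) (β 2) =
          β 2 + (2 * Real.cos (Real.pi / (matrixD 4 0 2))) • β 0
        rw [c2 (matrixD 4 0 2) rfl]
        simp only [LinearMap.comp_apply, b0, b1, b2, b3, map_add, map_smul, map_neg, smul_add,
          smul_neg, smul_smul, hr, s00, s01, s02, s03, s10, s11, s12, s13, s20, s21, s22, s23,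
          s30, s31, s32, s33]
        try module
      · show (sr CoxeterMatrix.F₄.M hα 3 ∘ₗ (sr CoxeterMatrix.F₄.M hα 2 ∘ₗ sr CoxeterMatrix.F₄.M hα 1 ∘ₗ
        sr CoxeterMatrix.F₄.M hα 2) ∘ₗ sr CoxeterMatrix.F₄.M hα 3) (β 3) =
          β 3 + (2 * Real.cos (Real.pi / (matrixD 4 0 3))) • β 0
        rw [c2 (matrixD 4 0 3) rfl]
        simp only [LinearMap.comp_apply, b0, b1, b2, b3, map_add, map_smul, map_neg, smul_add,
          smul_neg, smul_smul, hr, s00, s01, s02, s03, s10, s11, s12, s13, s20, s21, s22, s23,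
          s30, s31, s32, s33]
        try module
    · refine ⟨sr CoxeterMatrix.F₄.M hα 0, i0, ?_⟩
      intro j
      fin_cases j
      · show (sr CoxeterMatrix.F₄.M hα 0) (β 0) =
          β 0 + (2 * Real.cos (Real.pi / (matrixD 4 1 0))) • β 1
        rw [c3 (matrixD 4 1 0) rfl]
        simp only [LinearMap.comp_apply, b0, b1, b2, b3, map_add, map_smul, map_neg, smul_add,
          smul_neg, smul_smul, hr, s00, s01, s02, s03, s10, s11, s12, s13, s20, s21, s22, s23,
          s30, s31, s32, s33]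
        try module
      · show (sr CoxeterMatrix.F₄.M hα 0) (β 1) =
          β 1 + (2 * Real.cos (Real.pi / (matrixD 4 1 1))) • β 1
        rw [c1 (matrixD 4 1 1) rfl]
        simp only [LinearMap.comp_apply, b0, b1, b2, b3, map_add, map_smul, map_neg, smul_add,
          smul_neg, smul_smul, hr, s00, s01, s02, s03, s10, s11, s12, s13, s20, s21, s22, s23,
          s30, s31, s32, s33]
        try module
      · show (sr CoxeterMatrix.F₄.M hα 0) (β 2) =
          β 2 + (2 * Real.cos (Real.pi / (matrixD 4 1 2))) • β 1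
        rw [c3 (matrixD 4 1 2) rfl]
        simp only [LinearMap.comp_apply, b0, b1, b2, b3, map_add, map_smul, map_neg, smul_add,
          smul_neg, smul_smul, hr, s00, s01, s02, s03, s10, s11, s12, s13, s20, s21, s22, s23,
          s30, s31, s32, s33]
        try module
      · show (sr CoxeterMatrix.F₄.M hα 0) (β 3) =
          β 3 + (2 * Real.cos (Real.pi / (matrixD 4 1 3))) • β 1
        rw [c3 (matrixD 4 1 3) rfl]
        simp only [LinearMap.comp_apply, b0, b1, b2, b3, map_add, map_smul, map_neg, smul_add,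
          smul_neg, smul_smul, hr, s00, s01, s02, s03, s10, s11, s12, s13, s20, s21, s22, s23,
          s30, s31, s32, s33]
        try module
    · refine ⟨sr CoxeterMatrix.F₄.M hα 1, i1, ?_⟩
      intro j
      fin_cases j
      · show (sr CoxeterMatrix.F₄.M hα 1) (β 0) =
          β 0 + (2 * Real.cos (Real.pi / (matrixD 4 2 0))) • β 2
        rw [c2 (matrixD 4 2 0) rfl]
        simp only [LinearMap.comp_apply, b0, b1, b2, b3, map_add, map_smul, map_neg, smul_add,
          smul_neg, smul_smul, hr, s00, s01, s02, s03, s10, s11, s12, s13, s20, s21, s22, s23,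
          s30, s31, s32, s33]
        try module
      · show (sr CoxeterMatrix.F₄.M hα 1) (β 1) =
          β 1 + (2 * Real.cos (Real.pi / (matrixD 4 2 1))) • β 2
        rw [c3 (matrixD 4 2 1) rfl]
        simp only [LinearMap.comp_apply, b0, b1, b2, b3, map_add, map_smul, map_neg, smul_add,
          smul_neg, smul_smul, hr, s00, s01, s02, s03, s10, s11, s12, s13, s20, s21, s22, s23,
          s30, s31, s32, s33]
        try module
      · show (sr CoxeterMatrix.F₄.M hα 1) (β 2) =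
          β 2 + (2 * Real.cos (Real.pi / (matrixD 4 2 2))) • β 2
        rw [c1 (matrixD 4 2 2) rfl]
        simp only [LinearMap.comp_apply, b0, b1, b2, b3, map_add, map_smul, map_neg, smul_add,
          smul_neg, smul_smul, hr, s00, s01, s02, s03, s10, s11, s12, s13, s20, s21, s22, s23,
          s30, s31, s32, s33]
        try module
      · show (sr CoxeterMatrix.F₄.M hα 1) (β 3) =
          β 3 + (2 * Real.cos (Real.pi / (matrixD 4 2 3))) • β 2
        rw [c2 (matrixD 4 2 3) rfl]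
        simp only [LinearMap.comp_apply, b0, b1, b2, b3, map_add, map_smul, map_neg, smul_add,
          smul_neg, smul_smul, hr, s00, s01, s02, s03, s10, s11, s12, s13, s20, s21, s22, s23,
          s30, s31, s32, s33]
        try module
    · refine ⟨sr CoxeterMatrix.F₄.M hα 2 ∘ₗ sr CoxeterMatrix.F₄.M hα 1 ∘ₗ
        sr CoxeterMatrix.F₄.M hα 2, hg3, ?_⟩
      intro j
      fin_cases j
      · show (sr CoxeterMatrix.F₄.M hα 2 ∘ₗ sr CoxeterMatrix.F₄.M hα 1 ∘ₗ
        sr CoxeterMatrix.F₄.M hα 2) (β 0) =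
          β 0 + (2 * Real.cos (Real.pi / (matrixD 4 3 0))) • β 3
        rw [c2 (matrixD 4 3 0) rfl]
        simp only [LinearMap.comp_apply, b0, b1, b2, b3, map_add, map_smul, map_neg, smul_add,
          smul_neg, smul_smul, hr, s00, s01, s02, s03, s10, s11, s12, s13, s20, s21, s22, s23,
          s30, s31, s32, s33]
        try module
      · show (sr CoxeterMatrix.F₄.M hα 2 ∘ₗ sr CoxeterMatrix.F₄.M hα 1 ∘ₗ
        sr CoxeterMatrix.F₄.M hα 2) (β 1) =
          β 1 + (2 * Real.cos (Real.pi / (matrixD 4 3 1))) • β 3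
        rw [c3 (matrixD 4 3 1) rfl]
        simp only [LinearMap.comp_apply, b0, b1, b2, b3, map_add, map_smul, map_neg, smul_add,
          smul_neg, smul_smul, hr, s00, s01, s02, s03, s10, s11, s12, s13, s20, s21, s22, s23,
          s30, s31, s32, s33]
        try module
      · show (sr CoxeterMatrix.F₄.M hα 2 ∘ₗ sr CoxeterMatrix.F₄.M hα 1 ∘ₗ
        sr CoxeterMatrix.F₄.M hα 2) (β 2) =
          β 2 + (2 * Real.cos (Real.pi / (matrixD 4 3 2))) • β 3
        rw [c2 (matrixD 4 3 2) rfl]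
        simp only [LinearMap.comp_apply, b0, b1, b2, b3, map_add, map_smul, map_neg, smul_add,
          smul_neg, smul_smul, hr, s00, s01, s02, s03, s10, s11, s12, s13, s20, s21, s22, s23,
          s30, s31, s32, s33]
        try module
      · show (sr CoxeterMatrix.F₄.M hα 2 ∘ₗ sr CoxeterMatrix.F₄.M hα 1 ∘ₗ
        sr CoxeterMatrix.F₄.M hα 2) (β 3) =
          β 3 + (2 * Real.cos (Real.pi / (matrixD 4 3 3))) • β 3
        rw [c1 (matrixD 4 3 3) rfl]
        simp only [LinearMap.comp_apply, b0, b1, b2, b3, map_add, map_smul, map_neg, smul_add,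
          smul_neg, smul_smul, hr, s00, s01, s02, s03, s10, s11, s12, s13, s20, s21, s22, s23,
          s30, s31, s32, s33]
        try module
  intro i c hc
  obtain ⟨g, hg, hgb⟩ := key i
  have h1 := hg _ hc
  rw [map_sum] at h1
  simpa only [map_smul, hgb] using h1

end Pool.Agent.Lib.MP_5e7226_co.RG
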