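import Pool.Agent.Lib.MP_5e7226_co.RG.CvD

set_option autoImplicit false

namespace Pool.Agent.Lib.MP_5e7226_co.RG

variable {d : ℕ}

/-- The coefficients `2 cos (π / M i j)` of `H_4`. -/
noncomputable def CvH4_C (τ : ℝ) (i j : Fin 4) : ℝ :=
  (![![-2, 1, 0, 0], ![1, -2, 1, 0], ![0, 1, -2, τ], ![0, 0, τ, -2]] : Matrix (Fin 4) (Fin 4) ℝ) i j

theorem CvH4_C_eq (i j : Fin 4) :
    2 * Real.cos (Real.pi / CoxeterMatrix.H₄.M i j) = CvH4_C ((1 + Real.sqrt 5) / 2) i j := by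
  have h1 := cos_one
  have h2 := cos_two
  have h3 := cos_three
  have h5 := cos_five
  fin_cases i <;> fin_cases j <;> first | exact h1 | exact h2 | exact h3 | exact h5

/-- The reflection `v ↦ v - f v • (x0 α0 + x1 α1 + x2 α2 + x3 α3)`, `f (α j) = y j`, maps `K` into itself. -/
def CvH4_P {α : Fin 4 → EuclideanSpace ℝ (Fin 4)} (_hα : LinearIndependent ℝ α)
    (K : Set (EuclideanSpace ℝ (Fin 4))) (o : EuclideanSpace ℝ (Fin 4)) (_τ : ℝ)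
    (x0 x1 x2 x3 y0 y1 y2 y3 : ℝ) : Prop :=
  ∃ g : EuclideanSpace ℝ (Fin 4) →ₗ[ℝ] EuclideanSpace ℝ (Fin 4), ∃ f : EuclideanSpace ℝ (Fin 4) →ₗ[ℝ] ℝ,
    Inv K o g ∧ (∀ v, g v = v - f v • (x0 • α 0 + x1 • α 1 + x2 • α 2 + x3 • α 3)) ∧
    f (α 0) = y0 ∧ f (α 1) = y1 ∧ f (α 2) = y2 ∧ f (α 3) = y3

/-- Conjugation with a simple reflection. -/
theorem CvH4_step {α : Fin 4 → EuclideanSpace ℝ (Fin 4)} (hα : LinearIndependent ℝ α)
    {K : Set (EuclideanSpace ℝ (Fin 4))} {o : EuclideanSpace ℝ (Fin 4)}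
    {s : EuclideanSpace ℝ (Fin 4) →ₗ[ℝ] EuclideanSpace ℝ (Fin 4)} (hs : Inv K o s) (hss : ∀ v, s (s v) = v)
    {g : EuclideanSpace ℝ (Fin 4) →ₗ[ℝ] EuclideanSpace ℝ (Fin 4)} {f : EuclideanSpace ℝ (Fin 4) →ₗ[ℝ] ℝ}
    {β : EuclideanSpace ℝ (Fin 4)} (hg : Inv K o g) (hgf : ∀ v, g v = v - f v • β) :
    Inv K o (s ∘ₗ g ∘ₗ s) ∧ ∀ v, (s ∘ₗ g ∘ₗ s) v = v - (f ∘ₗ s) v • s β := by
  refine ⟨hs.comp (hg.comp hs), fun v => ?_⟩
  rw [LinearMap.comp_apply, LinearMap.comp_apply, LinearMap.comp_apply, hgf, map_sub, map_smul, hss]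

theorem CvH4_invol {α : Fin 4 → EuclideanSpace ℝ (Fin 4)} (hα : LinearIndependent ℝ α) {C : Fin 4 → Fin 4 → ℝ}
    {i : Fin 4} (hC : C i i = -2) {s : EuclideanSpace ℝ (Fin 4) →ₗ[ℝ] EuclideanSpace ℝ (Fin 4)}
    (hs : ∀ j, s (α j) = α j + C i j • α i) (v : EuclideanSpace ℝ (Fin 4)) : s (s v) = v := by
  have h1 : s ∘ₗ s = LinearMap.id := by
    refine ext_bas hα fun j => ?_
    rw [LinearMap.comp_apply, hs, map_add, map_smul, hs, hs, hC, LinearMap.id_apply]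
    module
  have h2 := LinearMap.congr_fun h1 v
  exact h2

theorem CvH4_s0 {α : Fin 4 → EuclideanSpace ℝ (Fin 4)} (hα : LinearIndependent ℝ α)
    {K : Set (EuclideanSpace ℝ (Fin 4))} {o : EuclideanSpace ℝ (Fin 4)} {τ : ℝ}
    {s : Fin 4 → EuclideanSpace ℝ (Fin 4) →ₗ[ℝ] EuclideanSpace ℝ (Fin 4)} (hK : ∀ i, Inv K o (s i))
    (hC : ∀ i j, s i (α j) = α j + CvH4_C τ i j • α i) {x0 x1 x2 x3 y0 y1 y2 y3 a b c : ℝ}
    (h : CvH4_P hα K o τ x0 x1 x2 x3 y0 y1 y2 y3) (h1 : a = x1 - x0) (h2 : b = -y0) (h3 : c = y1 + y0) :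
    CvH4_P hα K o τ a x1 x2 x3 b c y2 y3 := by
  obtain ⟨g, f, hg, hgf, e0, e1, e2, e3⟩ := h
  have hst := CvH4_step hα (hK 0) (CvH4_invol hα (C := CvH4_C τ) (i := 0) (by simp [CvH4_C]) (hC 0)) hg hgf
  refine ⟨s 0 ∘ₗ g ∘ₗ s 0, f ∘ₗ s 0, hst.1, fun v => ?_, ?_, ?_, ?_, ?_⟩
  · rw [hst.2 v]
    congr 2
    simp only [map_add, map_smul, hC, CvH4_C, h1]
    simp
    module
  all_goals
    simp only [LinearMap.comp_apply, hC, CvH4_C, map_add, map_smul, e0, e1, e2, e3, h2, h3]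
    simp
    try ring

theorem CvH4_s1 {α : Fin 4 → EuclideanSpace ℝ (Fin 4)} (hα : LinearIndependent ℝ α)
    {K : Set (EuclideanSpace ℝ (Fin 4))} {o : EuclideanSpace ℝ (Fin 4)} {τ : ℝ}
    {s : Fin 4 → EuclideanSpace ℝ (Fin 4) →ₗ[ℝ] EuclideanSpace ℝ (Fin 4)} (hK : ∀ i, Inv K o (s i))
    (hC : ∀ i j, s i (α j) = α j + CvH4_C τ i j • α i) {x0 x1 x2 x3 y0 y1 y2 y3 a b c e : ℝ}
    (h : CvH4_P hα K o τ x0 x1 x2 x3 y0 y1 y2 y3) (h1 : a = x0 + x2 - x1) (h2 : b = y0 + y1) (h3 : c = -y1)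
    (h4 : e = y2 + y1) : CvH4_P hα K o τ x0 a x2 x3 b c e y3 := by
  obtain ⟨g, f, hg, hgf, e0, e1, e2, e3⟩ := h
  have hst := CvH4_step hα (hK 1) (CvH4_invol hα (C := CvH4_C τ) (i := 1) (by simp [CvH4_C]) (hC 1)) hg hgf
  refine ⟨s 1 ∘ₗ g ∘ₗ s 1, f ∘ₗ s 1, hst.1, fun v => ?_, ?_, ?_, ?_, ?_⟩
  · rw [hst.2 v]
    congr 2
    simp only [map_add, map_smul, hC, CvH4_C, h1]
    simp
    module
  all_goals
    simp only [LinearMap.comp_apply, hC, CvH4_C, map_add, map_smul, e0, e1, e2, e3, h2, h3, h4]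
    simp
    try ring

theorem CvH4_s2 {α : Fin 4 → EuclideanSpace ℝ (Fin 4)} (hα : LinearIndependent ℝ α)
    {K : Set (EuclideanSpace ℝ (Fin 4))} {o : EuclideanSpace ℝ (Fin 4)} {τ : ℝ}
    {s : Fin 4 → EuclideanSpace ℝ (Fin 4) →ₗ[ℝ] EuclideanSpace ℝ (Fin 4)} (hK : ∀ i, Inv K o (s i))
    (hC : ∀ i j, s i (α j) = α j + CvH4_C τ i j • α i) {x0 x1 x2 x3 y0 y1 y2 y3 a b c e : ℝ}
    (h : CvH4_P hα K o τ x0 x1 x2 x3 y0 y1 y2 y3) (h1 : a = x1 + τ * x3 - x2) (h2 : b = y1 + y2) (h3 : c = -y2)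
    (h4 : e = y3 + τ * y2) : CvH4_P hα K o τ x0 x1 a x3 y0 b c e := by
  obtain ⟨g, f, hg, hgf, e0, e1, e2, e3⟩ := h
  have hst := CvH4_step hα (hK 2) (CvH4_invol hα (C := CvH4_C τ) (i := 2) (by simp [CvH4_C]) (hC 2)) hg hgf
  refine ⟨s 2 ∘ₗ g ∘ₗ s 2, f ∘ₗ s 2, hst.1, fun v => ?_, ?_, ?_, ?_, ?_⟩
  · rw [hst.2 v]
    congr 2
    simp only [map_add, map_smul, hC, CvH4_C, h1]
    simp
    module
  all_goals
    simp only [LinearMap.comp_apply, hC, CvH4_C, map_add, map_smul, e0, e1, e2, e3, h2, h3, h4]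
    simp
    try ring

theorem CvH4_s3 {α : Fin 4 → EuclideanSpace ℝ (Fin 4)} (hα : LinearIndependent ℝ α)
    {K : Set (EuclideanSpace ℝ (Fin 4))} {o : EuclideanSpace ℝ (Fin 4)} {τ : ℝ}
    {s : Fin 4 → EuclideanSpace ℝ (Fin 4) →ₗ[ℝ] EuclideanSpace ℝ (Fin 4)} (hK : ∀ i, Inv K o (s i))
    (hC : ∀ i j, s i (α j) = α j + CvH4_C τ i j • α i) {x0 x1 x2 x3 y0 y1 y2 y3 a b c : ℝ}
    (h : CvH4_P hα K o τ x0 x1 x2 x3 y0 y1 y2 y3) (h1 : a = τ * x2 - x3) (h2 : b = y2 + τ * y3) (h3 : c = -y3) :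
    CvH4_P hα K o τ x0 x1 x2 a y0 y1 b c := by
  obtain ⟨g, f, hg, hgf, e0, e1, e2, e3⟩ := h
  have hst := CvH4_step hα (hK 3) (CvH4_invol hα (C := CvH4_C τ) (i := 3) (by simp [CvH4_C]) (hC 3)) hg hgf
  refine ⟨s 3 ∘ₗ g ∘ₗ s 3, f ∘ₗ s 3, hst.1, fun v => ?_, ?_, ?_, ?_, ?_⟩
  · rw [hst.2 v]
    congr 2
    simp only [map_add, map_smul, hC, CvH4_C, h1]
    simp
    module
  all_goals
    simp only [LinearMap.comp_apply, hC, CvH4_C, map_add, map_smul, e0, e1, e2, e3, h2, h3]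
    simp
    try ring

/-- The reflection in `γ = τ α0 + 2 τ α1 + (3 τ + 1) α2 + (2 τ + 2) α3`. -/
theorem CvH4_gamma {α : Fin 4 → EuclideanSpace ℝ (Fin 4)} (hα : LinearIndependent ℝ α)
    {K : Set (EuclideanSpace ℝ (Fin 4))} {o : EuclideanSpace ℝ (Fin 4)} {τ : ℝ} (hτ : τ * τ = τ + 1)
    {s : Fin 4 → EuclideanSpace ℝ (Fin 4) →ₗ[ℝ] EuclideanSpace ℝ (Fin 4)} (hK : ∀ i, Inv K o (s i))
    (hC : ∀ i j, s i (α j) = α j + CvH4_C τ i j • α i) :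
    CvH4_P hα K o τ τ (2 * τ) (1 + 3 * τ) (2 + 2 * τ) 0 (-1) 0 1 := by
  have h0 : CvH4_P hα K o τ 0 0 1 0 0 (-1) 2 (-τ) := by
    refine ⟨s 2, (bas hα).constr ℝ (![0, -1, 2, -τ] : Fin 4 → ℝ), hK 2, fun v => ?_, ?_, ?_, ?_, ?_⟩
    · have h1 : s 2 = LinearMap.id - ((bas hα).constr ℝ (![0, -1, 2, -τ] : Fin 4 → ℝ)).smulRight (α 2) := by
        refine ext_bas hα fun j => ?_
        have h2 := (bas hα).constr_basis ℝ (![0, -1, 2, -τ] : Fin 4 → ℝ) j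
        rw [bas_apply] at h2
        rw [hC, LinearMap.sub_apply, LinearMap.smulRight_apply, h2, LinearMap.id_apply, CvH4_C]
        fin_cases j <;> simp <;> module
      rw [h1, LinearMap.sub_apply, LinearMap.smulRight_apply, LinearMap.id_apply]
      simp
    all_goals
      rw [← bas_apply hα, Module.Basis.constr_basis]
      rfl
  have h1 : CvH4_P hα K o τ 0 0 1 τ 0 (-1) (1 + -1 * τ) τ :=
    CvH4_s3 hα hK hC h0 (by linear_combination (0) * hτ) (by linear_combination (1) * hτ) (by ring)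
  have h2 : CvH4_P hα K o τ 0 1 1 τ (-1) 1 (-τ) τ :=
    CvH4_s1 hα hK hC h1 (by ring) (by ring) (by ring) (by ring)
  have h3 : CvH4_P hα K o τ 0 1 (1 + 1 * τ) τ (-1) (1 + -1 * τ) τ (-1) :=
    CvH4_s2 hα hK hC h2 (by linear_combination (-1) * hτ) (by ring) (by ring) (by linear_combination (1) * hτ)
  have h4 : CvH4_P hα K o τ 0 1 (1 + 1 * τ) (1 + 1 * τ) (-1) (1 + -1 * τ) 0 1 :=
    CvH4_s3 hα hK hC h3 (by linear_combination (-1) * hτ) (by linear_combination (0) * hτ) (by ring)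
  have h5 : CvH4_P hα K o τ 1 1 (1 + 1 * τ) (1 + 1 * τ) 1 (-τ) 0 1 :=
    CvH4_s0 hα hK hC h4 (by ring) (by ring) (by ring)
  have h6 : CvH4_P hα K o τ 1 (1 + 1 * τ) (1 + 1 * τ) (1 + 1 * τ) (1 + -1 * τ) τ (-τ) 1 :=
    CvH4_s1 hα hK hC h5 (by ring) (by ring) (by ring) (by ring)
  have h7 : CvH4_P hα K o τ 1 (1 + 1 * τ) (1 + 2 * τ) (1 + 1 * τ) (1 + -1 * τ) 0 τ (-τ) :=
    CvH4_s2 hα hK hC h6 (by linear_combination (-1) * hτ) (by ring) (by ring) (by linear_combination (1) * hτ)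
  have h8 : CvH4_P hα K o τ 1 (1 + 1 * τ) (1 + 2 * τ) (1 + 2 * τ) (1 + -1 * τ) 0 (-1) τ :=
    CvH4_s3 hα hK hC h7 (by linear_combination (-2) * hτ) (by linear_combination (1) * hτ) (by ring)
  have h9 : CvH4_P hα K o τ τ (1 + 1 * τ) (1 + 2 * τ) (1 + 2 * τ) (-1 + 1 * τ) (1 + -1 * τ) (-1) τ :=
    CvH4_s0 hα hK hC h8 (by ring) (by ring) (by ring)
  have h10 : CvH4_P hα K o τ τ (2 * τ) (1 + 2 * τ) (1 + 2 * τ) 0 (-1 + 1 * τ) (-τ) τ :=
    CvH4_s1 hα hK hC h9 (by ring) (by ring) (by ring) (by ring)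
  have h11 : CvH4_P hα K o τ τ (2 * τ) (1 + 3 * τ) (1 + 2 * τ) 0 (-1) τ (-1) :=
    CvH4_s2 hα hK hC h10 (by linear_combination (-2) * hτ) (by ring) (by ring) (by linear_combination (1) * hτ)
  have h12 : CvH4_P hα K o τ τ (2 * τ) (1 + 3 * τ) (2 + 2 * τ) 0 (-1) 0 1 :=
    CvH4_s3 hα hK hC h11 (by linear_combination (-3) * hτ) (by linear_combination (0) * hτ) (by ring)
  exact h12

/-- The coefficients `2 cos (π / M i j)` of `D_4`. -/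
noncomputable def CvH4_D (i j : Fin 4) : ℝ :=
  (![![-2, 1, 0, 0], ![1, -2, 1, 1], ![0, 1, -2, 0], ![0, 1, 0, -2]] : Matrix (Fin 4) (Fin 4) ℝ) i j

theorem CvH4_D_eq (i j : Fin 4) : 2 * Real.cos (Real.pi / matrixD 4 i j) = CvH4_D i j := by
  have h1 := cos_one
  have h2 := cos_two
  have h3 := cos_three
  fin_cases i <;> fin_cases j <;> first | exact h1 | exact h2 | exact h3

/-- PROOF. `H_4` contains `D_4` (and `A_4`): find `β : Fin 4 → _` with `Invariant (matrixD 4) β o K` (each `β k = w (α j)`; the reflection in `β k` is `w s_j w⁻¹`) and use `cv_D` (or `cv_A`; then the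
conclusion is `SymA K o`, tell helper82). -/
theorem cv_H4 {α : Fin 4 → EuclideanSpace ℝ (Fin 4)} {o : EuclideanSpace ℝ (Fin 4)}
    {K : Set (EuclideanSpace ℝ (Fin 4))} (hα : LinearIndependent ℝ α)
    (h : Invariant CoxeterMatrix.H₄.M α o K) : SymD K o := by
  obtain ⟨τ, hτd⟩ : ∃ τ : ℝ, τ = (1 + Real.sqrt 5) / 2 := ⟨_, rfl⟩
  have h5 : Real.sqrt 5 * Real.sqrt 5 = 5 := Real.mul_self_sqrt (by norm_num)
  have hτ : τ * τ = τ + 1 := by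
    rw [hτd]
    linear_combination (1 / 4) * h5
  have hτ0 : 0 < τ := by
    rw [hτd]
    have := Real.sqrt_nonneg 5
    linarith
  have hK : ∀ i, Inv K o (sr CoxeterMatrix.H₄.M hα i) := inv_sr hα h
  have hC : ∀ i j, sr CoxeterMatrix.H₄.M hα i (α j) = α j + CvH4_C τ i j • α i := by
    intro i j
    rw [sr_apply, CvH4_C_eq, hτd]
  obtain ⟨g, f, hg, hgf, e0, e1, e2, e3⟩ := CvH4_gamma hα hτ hK hC
  obtain ⟨γ, hγ⟩ : ∃ γ, γ = τ • α 0 + (2 * τ) • α 1 + (1 + 3 * τ) • α 2 + (2 + 2 * τ) • α 3 := ⟨_, rfl⟩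
  rw [← hγ] at hgf
  obtain ⟨β, hβ⟩ : ∃ β : Fin 4 → EuclideanSpace ℝ (Fin 4), β = ![α 0, α 1, α 2, γ] := ⟨_, rfl⟩
  have b0 : β 0 = α 0 := by rw [hβ]; rfl
  have b1 : β 1 = α 1 := by rw [hβ]; rfl
  have b2 : β 2 = α 2 := by rw [hβ]; rfl
  have b3 : β 3 = γ := by rw [hβ]; rfl
  have hspan : (⊤ : Submodule ℝ (EuclideanSpace ℝ (Fin 4))) ≤ Submodule.span ℝ (Set.range β) := by
    rw [← hα.span_eq_top_of_card_eq_finrank' (by simp), Submodule.span_le]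
    rintro _ ⟨j, rfl⟩
    have hm : ∀ k, β k ∈ Submodule.span ℝ (Set.range β) := fun k => Submodule.subset_span ⟨k, rfl⟩
    fin_cases j
    · exact b0 ▸ hm 0
    · exact b1 ▸ hm 1
    · exact b2 ▸ hm 2
    · have h6 : α 3 = (2 + 2 * τ)⁻¹ • (β 3 - τ • β 0 - (2 * τ) • β 1 - (1 + 3 * τ) • β 2) := by
        rw [eq_inv_smul_iff₀ (by positivity), b0, b1, b2, b3, hγ]
        module
      show α 3 ∈ Submodule.span ℝ (Set.range β)
      rw [h6]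
      exact Submodule.smul_mem _ _ (Submodule.sub_mem _ (Submodule.sub_mem _ (Submodule.sub_mem _ (hm 3)
        (Submodule.smul_mem _ _ (hm 0))) (Submodule.smul_mem _ _ (hm 1))) (Submodule.smul_mem _ _ (hm 2)))
  have hβi : LinearIndependent ℝ β := linearIndependent_of_top_le_span_of_card_eq_finrank hspan (by simp)
  have hgen : ∀ i, ∃ G : EuclideanSpace ℝ (Fin 4) →ₗ[ℝ] EuclideanSpace ℝ (Fin 4), Inv K o G ∧
      ∀ j, G (β j) = β j + CvH4_D i j • β i := by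
    have hfγ : f γ = 2 := by
      rw [hγ]
      simp only [map_add, map_smul, e0, e1, e2, e3, smul_eq_mul]
      ring
    intro i
    fin_cases i
    · refine ⟨_, hK 0, fun j => ?_⟩
      fin_cases j
      · show sr CoxeterMatrix.H₄.M hα 0 (β 0) = β 0 + CvH4_D 0 0 • β 0
        rw [b0, hC]; simp [CvH4_C, CvH4_D]
      · show sr CoxeterMatrix.H₄.M hα 0 (β 1) = β 1 + CvH4_D 0 1 • β 0
        rw [b0, b1, hC]; simp [CvH4_C, CvH4_D]
      · show sr CoxeterMatrix.H₄.M hα 0 (β 2) = β 2 + CvH4_D 0 2 • β 0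
        rw [b0, b2, hC]; simp [CvH4_C, CvH4_D]
      · show sr CoxeterMatrix.H₄.M hα 0 (β 3) = β 3 + CvH4_D 0 3 • β 0
        rw [b0, b3, hγ]
        simp only [map_add, map_smul, hC, CvH4_C, CvH4_D]
        simp
        module
    · refine ⟨_, hK 1, fun j => ?_⟩
      fin_cases j
      · show sr CoxeterMatrix.H₄.M hα 1 (β 0) = β 0 + CvH4_D 1 0 • β 1
        rw [b0, b1, hC]; simp [CvH4_C, CvH4_D]
      · show sr CoxeterMatrix.H₄.M hα 1 (β 1) = β 1 + CvH4_D 1 1 • β 1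
        rw [b1, hC]; simp [CvH4_C, CvH4_D]
      · show sr CoxeterMatrix.H₄.M hα 1 (β 2) = β 2 + CvH4_D 1 2 • β 1
        rw [b1, b2, hC]; simp [CvH4_C, CvH4_D]
      · show sr CoxeterMatrix.H₄.M hα 1 (β 3) = β 3 + CvH4_D 1 3 • β 1
        rw [b1, b3, hγ]
        simp only [map_add, map_smul, hC, CvH4_C, CvH4_D]
        simp
        module
    · refine ⟨_, hK 2, fun j => ?_⟩
      fin_cases j
      · show sr CoxeterMatrix.H₄.M hα 2 (β 0) = β 0 + CvH4_D 2 0 • β 2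
        rw [b0, b2, hC]; simp [CvH4_C, CvH4_D]
      · show sr CoxeterMatrix.H₄.M hα 2 (β 1) = β 1 + CvH4_D 2 1 • β 2
        rw [b1, b2, hC]; simp [CvH4_C, CvH4_D]
      · show sr CoxeterMatrix.H₄.M hα 2 (β 2) = β 2 + CvH4_D 2 2 • β 2
        rw [b2, hC]; simp [CvH4_C, CvH4_D]
      · show sr CoxeterMatrix.H₄.M hα 2 (β 3) = β 3 + CvH4_D 2 3 • β 2
        have h7 : sr CoxeterMatrix.H₄.M hα 2 γ = γ + (2 * (τ * τ - τ - 1)) • α 2 := by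
          rw [hγ]
          simp only [map_add, map_smul, hC, CvH4_C]
          simp
          module
        rw [b2, b3, h7, show 2 * (τ * τ - τ - 1) = 0 by rw [hτ]; ring]
        simp [CvH4_D]
    · refine ⟨g, hg, fun j => ?_⟩
      fin_cases j
      · show g (β 0) = β 0 + CvH4_D 3 0 • β 3
        rw [b0, b3, hgf, e0]; simp [CvH4_D]
      · show g (β 1) = β 1 + CvH4_D 3 1 • β 3
        rw [b1, b3, hgf, e1]; simp [CvH4_D]
      · show g (β 2) = β 2 + CvH4_D 3 2 • β 3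
        rw [b2, b3, hgf, e2]; simp [CvH4_D]
      · show g (β 3) = β 3 + CvH4_D 3 3 • β 3
        rw [b3, hgf, hfγ]
        simp [CvH4_D]
        module
  refine cv_D (d := 4) (by norm_num) hβi fun i c hc => ?_
  obtain ⟨G, hG, hGβ⟩ := hgen i
  have h8 := hG _ hc
  rw [map_sum] at h8
  simpa only [map_smul, hGβ, CvH4_D_eq] using h8

end Pool.Agent.Lib.MP_5e7226_co.RG
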