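import Pool.Agent.Lib.MP_5e7226_co.RG.MnA4
import Pool.Agent.Lib.MP_5e7226_co.SX.S4Geo

set_option autoImplicit false

/-! Main row A. -/

namespace Pool.Agent.Lib.MP_5e7226_co.RG

open scoped InnerProductSpace
open Finset

variable {d : ℕ}

private theorem mem_hull_of_abs {E : Type*} [AddCommGroup E] [Module ℝ E] (o : E) (v : Fin d → E)
    (α : Fin d → ℝ) (hα : ∑ i, |α i| ≤ 1) (hne : Nonempty (Fin d)) :
    o + ∑ i, α i • v i ∈ convexHull ℝ (⋃ i, ({o + v i, o - (1 : ℝ) • v i} : Set E)) := by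
  classical
  set H := convexHull ℝ (⋃ i, ({o + v i, o - (1 : ℝ) • v i} : Set E)) with hH
  have hconv : Convex ℝ H := convex_convexHull ℝ _
  have hplus : ∀ i, o + v i ∈ H := fun i => subset_convexHull ℝ _
    (Set.mem_iUnion.2 ⟨i, by simp⟩)
  have hminus : ∀ i, o - (1 : ℝ) • v i ∈ H := fun i => subset_convexHull ℝ _
    (Set.mem_iUnion.2 ⟨i, by simp⟩)
  obtain ⟨i₀⟩ := hne
  have ho : o ∈ H := by
    have h1 := hconv (hplus i₀) (hminus i₀) (a := 1 / 2) (b := 1 / 2) (by norm_num) (by norm_num)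
      (by norm_num)
    have e : (1 / 2 : ℝ) • (o + v i₀) + (1 / 2 : ℝ) • (o - (1 : ℝ) • v i₀) = o := by
      rw [one_smul, smul_add, smul_sub]
      have : (1 / 2 : ℝ) • o + (1 / 2 : ℝ) • o = o := by rw [← add_smul]; norm_num
      calc _ = (1 / 2 : ℝ) • o + (1 / 2 : ℝ) • o := by abel
        _ = o := this
    rwa [e] at h1
  let p : Fin d → E := fun i => if 0 ≤ α i then o + v i else o - (1 : ℝ) • v i
  have hp : ∀ i, p i ∈ H := by
    intro i
    simp only [p]
    split_ifs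
    · exact hplus i
    · exact hminus i
  have hpe : ∀ i, |α i| • p i = |α i| • o + α i • v i := by
    intro i
    simp only [p]
    split_ifs with h
    · rw [smul_add, abs_of_nonneg h]
    · rw [one_smul, smul_sub, abs_of_neg (not_le.1 h), neg_smul, neg_smul, sub_neg_eq_add]
  set s := ∑ i, |α i| with hs
  rcases eq_or_lt_of_le (show 0 ≤ s from sum_nonneg (fun _ _ => abs_nonneg _)) with h0 | h0
  · have hz : ∀ i, α i = 0 := by
      intro i
      have := (sum_eq_zero_iff_of_nonneg (fun i _ => abs_nonneg (α i))).1 h0.symm i (mem_univ i)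
      exact abs_eq_zero.1 this
    have : o + ∑ i, α i • v i = o := by simp [hz]
    rw [this]; exact ho
  · have hz : ∑ i, (|α i| / s) • p i ∈ H := by
      apply hconv.sum_mem
      · intro i _; positivity
      · rw [← sum_div, ← hs]; exact div_self h0.ne'
      · intro i _; exact hp i
    have h1 := hconv ho hz (a := 1 - s) (b := s) (by linarith) h0.le (by ring)
    have e : (1 - s) • o + s • ∑ i, (|α i| / s) • p i = o + ∑ i, α i • v i := by
      rw [smul_sum]
      have : ∀ i ∈ (univ : Finset (Fin d)), s • (|α i| / s) • p i = |α i| • o + α i • v i := by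
        intro i _
        rw [smul_smul, mul_div_cancel₀ _ h0.ne', hpe]
      rw [sum_congr rfl this, sum_add_distrib, ← sum_smul, ← hs, ← add_assoc, ← add_smul]
      have : (1 : ℝ) - s + s = 1 := by ring
      rw [this, one_smul]
    rwa [e] at h1

/-- The cross-body in coordinates. -/
theorem crossBody_of_coords (hd : 0 < d) {K : Set (EuclideanSpace ℝ (Fin d))}
    {o : EuclideanSpace ℝ (Fin d)} (hc : Convex ℝ K) {v : Fin d → EuclideanSpace ℝ (Fin d)}
    (hv : LinearIndependent ℝ v)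
    (hK : K = {x | ∃ c : Fin d → ℝ, ∑ i, |c i| ≤ 1 ∧ x = o + ∑ i, c i • v i}) : IsCrossBody K o := by
  refine ⟨v, fun _ => 1, hv, fun _ => one_pos, ?_⟩
  apply Set.Subset.antisymm
  · intro x hx
    rw [hK] at hx
    obtain ⟨c, hc, rfl⟩ := hx
    exact mem_hull_of_abs o _ _ hc ⟨⟨0, hd⟩⟩
  · have hmem : ∀ i, ∀ s : ℝ, (s = 1 ∨ s = -1) → o + s • v i ∈ K := by
      intro i s hs
      rw [hK]
      refine ⟨fun j => if j = i then s else 0, ?_, ?_⟩
      · rw [sum_eq_single i (fun j _ hj => by beta_reduce; rw [if_neg hj, abs_zero])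
          (fun h => absurd (mem_univ i) h)]
        beta_reduce
        rw [if_pos rfl]
        rcases hs with h | h <;> rw [h] <;> simp
      · congr 1
        rw [sum_eq_single i (fun j _ hj => by beta_reduce; rw [if_neg hj, zero_smul])
          (fun h => absurd (mem_univ i) h)]
        beta_reduce
        rw [if_pos rfl]
    apply convexHull_min _ hc
    intro x hx
    obtain ⟨i, hi⟩ := Set.mem_iUnion.1 hx
    simp only [Set.mem_insert_iff, Set.mem_singleton_iff] at hi
    rcases hi with rfl | rfl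
    · have := hmem i 1 (Or.inl rfl)
      rwa [one_smul] at this
    · have := hmem i (-1) (Or.inr rfl)
      rwa [neg_smul, ← sub_eq_add_neg] at this

/-- `d = 3`. -/
theorem main_A_three {K : Set (EuclideanSpace ℝ (Fin 3))} {o : EuclideanSpace ℝ (Fin 3)}
    (hconv : Convex ℝ K) (hcomp : IsCompact K) (hint : (interior K).Nonempty) (h : SymA K o) : Good K o := by
  obtain ⟨b, hK, hc⟩ := symA_basis hconv hcomp hint h
  have hG := SX.dual_GK hK
  have hI : ∀ (N : ℕ), (∃ z : Fin N → Fin 4 → ℝ, ∀ q ∈ SX.GK b K, ∃ i, SX.Works (SX.GK b K) q.1 (z i)) →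
      IlluminatedBy K N := by
    rintro N ⟨z, hz⟩
    obtain ⟨v, hv⟩ := SX.illum_dirs hK z hz
    exact SX.illum_points (by norm_num) hcomp hv (by simp)
  have hS : ∀ (N : ℕ), (∃ z : Fin N → Fin 4 → ℝ, ∀ q ∈ SX.swp (SX.GK b K), ∃ i,
      SX.Works (SX.swp (SX.GK b K)) q.1 (z i)) → SeparatedBy K o N := by
    rintro N ⟨z, hz⟩
    have h1 := SX.sep_of_works hK z hz (N := N) (by simp)
    rw [← hc]
    exact sep_to_hyperplanes hcomp _ h1
  refine ⟨hS _ (SX.S4.core8 (SX.dual_swp hG)), fun hn => ?_, hI _ (SX.S4.core8 hG), fun hn => ?_⟩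
  · rcases SX.S4.core4 (SX.dual_swp hG) with h1 | h1
    · exact (hn (hS 7 h1)).elim
    · obtain ⟨v, hv, hKv⟩ := SX.S4.cross_end4 hK h1
      rw [hc] at hKv
      exact crossBody_of_coords (by norm_num) hconv hv hKv
  · rcases SX.S4.core4 hG with h1 | h1
    · exact (hn (hI 7 h1)).elim
    · obtain ⟨v, hv, hKv⟩ := SX.S4.cube_end4 hK h1
      exact ⟨_, v, hv, hKv⟩

/-- Same as in `Mn.lean`. -/
private theorem good_of_lt' {K : Set (EuclideanSpace ℝ (Fin d))} {o : EuclideanSpace ℝ (Fin d)} (hd : 1 ≤ d)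
    (h1 : IlluminatedBy K (2 ^ d - 1)) (h2 : SeparatedBy K o (2 ^ d - 1)) : Good K o := by
  have h0 : 1 < 2 ^ d := Nat.one_lt_two_pow (by omega)
  refine ⟨?_, fun h => (h h2).elim, ?_, fun h => (h h1).elim⟩
  · obtain ⟨w, b, hw⟩ := h2
    refine ⟨fun i => if h : (i : ℕ) < 2 ^ d - 1 then w ⟨i, h⟩ else 0,
      fun i => if h : (i : ℕ) < 2 ^ d - 1 then b ⟨i, h⟩ else 0, fun u x₀ hu hx₀ hmax => ?_⟩
    obtain ⟨i, h1, h2⟩ := hw u x₀ hu hx₀ hmax
    refine ⟨⟨i, by omega⟩, ?_, fun x hx hux => ?_⟩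
    · simpa using h1
    · simpa using h2 x hx hux
  · obtain ⟨p, hp, hq⟩ := h1
    refine ⟨fun i => if h : (i : ℕ) < 2 ^ d - 1 then p ⟨i, h⟩ else p ⟨0, by omega⟩, fun i => ?_, fun q hqK => ?_⟩
    · dsimp only
      split_ifs
      · exact hp _
      · exact hp _
    · obtain ⟨i, s, hs, h1⟩ := hq q hqK
      refine ⟨⟨i, by omega⟩, s, hs, ?_⟩
      simpa using h1

theorem main_A (hd : 3 ≤ d) {K : Set (EuclideanSpace ℝ (Fin d))} {o : EuclideanSpace ℝ (Fin d)}
    (hconv : Convex ℝ K) (hcomp : IsCompact K) (hint : (interior K).Nonempty) (h : SymA K o) : Good K o := by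
  rcases hd.eq_or_lt with h3 | h4
  · subst h3
    exact main_A_three hconv hcomp hint h
  · obtain ⟨h1, h2⟩ := main_A_ge4 h4 hconv hcomp hint h
    exact good_of_lt' (by omega) h1 h2

end Pool.Agent.Lib.MP_5e7226_co.RG
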