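import Pool.Agent.Lib.MP_5e7226_co.RG.Cv0
import Pool.Agent.Lib.MP_5e7226_co.SX.Gm2
import Pool.Agent.Lib.MP_5e7226_co.E6X.Geo
import Pool.Agent.Lib.MP_5e7226_co.E6X.Swp

set_option autoImplicit false

/-! Main row `E_6`. -/

namespace Pool.Agent.Lib.MP_5e7226_co.RG

open scoped InnerProductSpace

theorem cos_E6 (i j : Fin 6) :
    2 * Real.cos (Real.pi / (CoxeterMatrix.E₆.M i j : ℝ)) = -E6X.C6 i j := by
  have h : ∀ i j : Fin 6, (CoxeterMatrix.E₆.M i j = 1 ∧ E6X.C i j = 2) ∨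
      (CoxeterMatrix.E₆.M i j = 2 ∧ E6X.C i j = 0) ∨ (CoxeterMatrix.E₆.M i j = 3 ∧ E6X.C i j = -1) := by
    decide
  rcases h i j with ⟨h1, h2⟩ | ⟨h1, h2⟩ | ⟨h1, h2⟩
  · rw [h1, cos_one, E6X.C6, h2]
    norm_num
  · rw [h1, cos_two, E6X.C6, h2]
    norm_num
  · rw [h1, cos_three, E6X.C6, h2]
    norm_num

theorem main_E6 {α : Fin 6 → EuclideanSpace ℝ (Fin 6)} (hα : LinearIndependent ℝ α)
    {K : Set (EuclideanSpace ℝ (Fin 6))} {o : EuclideanSpace ℝ (Fin 6)}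
    (hconv : Convex ℝ K) (hcomp : IsCompact K) (hint : (interior K).Nonempty)
    (h : Invariant CoxeterMatrix.E₆.M α o K) : IlluminatedBy K 63 ∧ SeparatedBy K o 63 := by
  have hs : E6X.RSym E6X.C6 (bas hα) o K := by
    intro i x hx
    simp only [bas_apply] at hx ⊢
    have h1 := h i x hx
    simp only [cos_E6, neg_smul, ← sub_eq_add_neg] at h1
    exact h1
  have hK : HX.Body o K := ⟨hconv, hcomp, E6X.mem_interior_E6 hconv hcomp hint hs⟩
  have hG := E6X.dual6_GK hK hs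
  constructor
  · obtain ⟨ι, i1, hcard, z, hz⟩ := E6X.core hG
    obtain ⟨v, hv⟩ := HX.illum_dirs hK z hz
    exact SX.illum_points (by norm_num) hcomp hv (hcard.trans (by norm_num))
  · obtain ⟨ι, i1, hcard, z, hz⟩ := E6X.core_swp hG
    exact sep_to_hyperplanes hcomp o (HX.sep_of_works hK z hz (hcard.trans (by norm_num)))

end Pool.Agent.Lib.MP_5e7226_co.RG
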