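import Pool.Agent.Lib.MP_5e7226_co.RG.Cv0
import Pool.Agent.Lib.MP_5e7226_co.HX.H3c
import Pool.Agent.Lib.MP_5e7226_co.HX.Pts

set_option autoImplicit false

/-! Type `H_3`. -/

namespace Pool.Agent.Lib.MP_5e7226_co.RG

open Finset
open Pool.Agent.Lib.MP_5e7226_co.HX (Refl rootH3 gvec)
open Pool.Agent.Lib.MP_5e7226_co.DX (co sum_co co_sum)

/-- The golden ratio. -/
noncomputable def ph : ℝ := (1 + Real.sqrt 5) / 2

theorem ph_sq : ph ^ 2 = ph + 1 := by
  have h5 : Real.sqrt 5 ^ 2 = 5 := Real.sq_sqrt (by norm_num)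
  unfold ph
  linear_combination h5 / 4

/-- The reflection with unit normal `a`. -/
def rfH (a x : Fin 3 → ℝ) : Fin 3 → ℝ := fun i => x i - 2 * (∑ j, a j * x j) * a i

theorem rf_conj {a c : Fin 3 → ℝ} (hc : ∑ j, c j * c j = 1) (x : Fin 3 → ℝ) :
    rfH c (rfH a (rfH c x)) = rfH (rfH c a) x := by
  funext i
  simp only [rfH, Fin.sum_univ_three] at hc ⊢
  linear_combination 4 * (c 0 * x 0 + c 1 * x 1 + c 2 * x 2) * c i * hc

section

variable {b : Module.Basis (Fin 3) ℝ (EuclideanSpace ℝ (Fin 3))} {o : EuclideanSpace ℝ (Fin 3)}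
  {K : Set (EuclideanSpace ℝ (Fin 3))}

theorem refl_iff {a : Fin 3 → ℝ} :
    Refl b o K a ↔ ∀ x : Fin 3 → ℝ, o + ∑ i, x i • b i ∈ K → o + ∑ i, rfH a x i • b i ∈ K := by
  constructor
  · intro h x hx
    have h1 := h _ hx
    rw [co_sum] at h1
    exact h1
  · intro h p hp
    refine h (co b o p) ?_
    rw [sum_co]
    simpa using hp

theorem refl_conj {a c : Fin 3 → ℝ} (ha : Refl b o K a) (hc : Refl b o K c) (h1 : ∑ j, c j * c j = 1) :
    Refl b o K (rfH c a) := by
  rw [refl_iff] at *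
  intro x hx
  rw [← rf_conj h1]
  exact hc _ (ha _ (hc _ hx))

theorem refl_neg {a : Fin 3 → ℝ} (ha : Refl b o K a) : Refl b o K (fun i => -a i) := by
  rw [refl_iff] at *
  intro x hx
  have h1 := ha x hx
  convert h1 using 4 with i
  simp only [rfH, Fin.sum_univ_three]
  ring

/-- All roots from the three simple roots. -/
theorem all_roots (h0 : Refl b o K ![1, 0, 0]) (h1 : Refl b o K ![0, 1, 0])
    (h2 : Refl b o K ![-1 / 2, -ph / 2, (ph - 1) / 2]) : ∀ a ∈ rootH3, Refl b o K a := by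
  have hp := ph_sq
  -- changes of signs
  have f0 : ∀ x y z : ℝ, Refl b o K ![x, y, z] → Refl b o K ![-x, y, z] := by
    intro x y z h
    have := refl_conj h h0 (by simp [Fin.sum_univ_three])
    convert this using 1
    funext i
    fin_cases i <;> simp [rfH, Fin.sum_univ_three] <;> ring
  have f1 : ∀ x y z : ℝ, Refl b o K ![x, y, z] → Refl b o K ![x, -y, z] := by
    intro x y z h
    have := refl_conj h h1 (by simp [Fin.sum_univ_three])
    convert this using 1
    funext i
    fin_cases i <;> simp [rfH, Fin.sum_univ_three] <;> ring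
  have f2 : ∀ x y z : ℝ, Refl b o K ![x, y, z] → Refl b o K ![x, y, -z] := by
    intro x y z h
    have := refl_neg (f0 _ _ _ (f1 _ _ _ h))
    convert this using 1
    funext i
    fin_cases i <;> simp
  -- the first family
  have k0 : Refl b o K ![1 / 2, ph / 2, (ph - 1) / 2] := by
    have := f0 _ _ _ (f1 _ _ _ h2)
    convert this using 1
    funext i
    fin_cases i <;> simp <;> ring
  -- the second family
  have k1 : Refl b o K ![ph / 2, (ph - 1) / 2, 1 / 2] := by
    have h3 : Refl b o K (rfH ![-1 / 2, -ph / 2, (ph - 1) / 2] ![0, 1, 0]) :=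
      refl_conj h1 h2 (by simp [Fin.sum_univ_three]; linear_combination hp / 2)
    have h4 : rfH ![-1 / 2, -ph / 2, (ph - 1) / 2] ![0, 1, 0] = ![-(ph / 2), -((ph - 1) / 2), 1 / 2] := by
      funext i
      fin_cases i <;> simp [rfH, Fin.sum_univ_three]
      · ring
      · linear_combination -hp / 2
      · linear_combination hp / 2
    rw [h4] at h3
    simpa using f0 _ _ _ (f1 _ _ _ h3)
  -- the third family
  have k2 : Refl b o K ![(ph - 1) / 2, 1 / 2, ph / 2] := by
    have h3 : Refl b o K (rfH ![1 / 2, ph / 2, (ph - 1) / 2] ![-(ph / 2), -((ph - 1) / 2), 1 / 2]) :=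
      refl_conj (f0 _ _ _ (f1 _ _ _ k1)) k0 (by simp [Fin.sum_univ_three]; linear_combination hp / 2)
    have h4 : rfH ![1 / 2, ph / 2, (ph - 1) / 2] ![-(ph / 2), -((ph - 1) / 2), 1 / 2] =
        ![-((ph - 1) / 2), 1 / 2, ph / 2] := by
      funext i
      fin_cases i <;> simp [rfH, Fin.sum_univ_three]
      · linear_combination (1 / 4 : ℝ) * hp
      · linear_combination (ph / 4 : ℝ) * hp
      · linear_combination (1 / 4 : ℝ) * (ph - 1) * hp
    rw [h4] at h3
    simpa using f0 _ _ _ h3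
  have h3 : Refl b o K ![0, 0, 1] := by
    have h3 : Refl b o K (rfH ![(ph - 1) / 2, 1 / 2, ph / 2] ![-(1 / 2), -(ph / 2), -((ph - 1) / 2)]) :=
      refl_conj (f0 _ _ _ (f1 _ _ _ (f2 _ _ _ k0))) k2 (by simp [Fin.sum_univ_three]; linear_combination hp / 2)
    have h4 : rfH ![(ph - 1) / 2, 1 / 2, ph / 2] ![-(1 / 2), -(ph / 2), -((ph - 1) / 2)] = ![0, 0, 1] := by
      funext i
      fin_cases i <;> simp [rfH, Fin.sum_univ_three]
      · linear_combination (1 / 4 + ph / 4 : ℝ) * hp
      · linear_combination (1 / 4 : ℝ) * hp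
      · linear_combination (ph / 4 + 1 / 2 : ℝ) * hp
    rwa [h4] at h3
  have gen : ∀ x y z : ℝ, Refl b o K ![x, y, z] → ∀ e : Fin 3 → ℝ, (∀ i, e i = 1 ∨ e i = -1) →
      Refl b o K ![e 0 * x, e 1 * y, e 2 * z] := by
    intro x y z h e he
    have a0 : Refl b o K ![e 0 * x, y, z] := by
      rcases he 0 with h' | h' <;> rw [h']
      · simpa using h
      · simpa using f0 _ _ _ h
    have a1 : Refl b o K ![e 0 * x, e 1 * y, z] := by
      rcases he 1 with h' | h' <;> rw [h']
      · simpa using a0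
      · simpa using f1 _ _ _ a0
    rcases he 2 with h' | h' <;> rw [h']
    · simpa using a1
    · simpa using f2 _ _ _ a1
  rintro a (⟨i, rfl⟩ | ⟨k, e, he, rfl⟩)
  · fin_cases i
    · convert h0 using 1
      funext i
      fin_cases i <;> simp
    · convert h1 using 1
      funext i
      fin_cases i <;> simp
    · convert h3 using 1
      funext i
      fin_cases i <;> simp
  · fin_cases k
    · convert gen _ _ _ k0 e he using 1
      funext i
      fin_cases i
      · show e 0 * 1 / 2 = e 0 * (1 / 2)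
        ring
      · show e 1 * ph / 2 = e 1 * (ph / 2)
        ring
      · show e 2 * (ph - 1) / 2 = e 2 * ((ph - 1) / 2)
        ring
    · convert gen _ _ _ k1 e he using 1
      funext i
      fin_cases i
      · show e 0 * ph / 2 = e 0 * (ph / 2)
        ring
      · show e 1 * (ph - 1) / 2 = e 1 * ((ph - 1) / 2)
        ring
      · show e 2 * 1 / 2 = e 2 * (1 / 2)
        ring
    · convert gen _ _ _ k2 e he using 1
      funext i
      fin_cases i
      · show e 0 * (ph - 1) / 2 = e 0 * ((ph - 1) / 2)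
        ring
      · show e 1 * 1 / 2 = e 1 * (1 / 2)
        ring
      · show e 2 * ph / 2 = e 2 * (ph / 2)
        ring

end

/-- The orthonormal basis: the first and the third simple root, and a third vector. -/
noncomputable def orth (α : Fin 3 → EuclideanSpace ℝ (Fin 3)) : Fin 3 → EuclideanSpace ℝ (Fin 3) :=
  ![α 0, α 2, ph • ((2 : ℝ) • α 1 + α 0 + ph • α 2)]

theorem orth_indep {α : Fin 3 → EuclideanSpace ℝ (Fin 3)} (hα : LinearIndependent ℝ α) :
    LinearIndependent ℝ (orth α) := by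
  rw [Fintype.linearIndependent_iff] at *
  intro g hg
  have hp := ph_sq
  have hph : ph ≠ 0 := by
    intro h
    rw [h] at hp
    norm_num at hp
  have h1 := hα ![g 0 + ph * g 2, 2 * ph * g 2, g 1 + ph ^ 2 * g 2] (by
    rw [← hg]
    simp only [orth, Fin.sum_univ_three, Matrix.cons_val_zero, Matrix.cons_val_one, Matrix.cons_val]
    module)
  have a0 := h1 0
  have a1 := h1 1
  have a2 := h1 2
  simp only [Matrix.cons_val_zero, Matrix.cons_val_one, Matrix.cons_val] at a0 a1 a2
  have g2 : g 2 = 0 := by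
    rcases mul_eq_zero.1 a1 with h | h
    · exact absurd h (mul_ne_zero two_ne_zero hph)
    · exact h
  rw [g2] at a0 a2
  intro i
  fin_cases i
  · simpa using a0
  · simpa using a2
  · exact g2

/-- Owner helper44. -/
theorem main_H3 {α : Fin 3 → EuclideanSpace ℝ (Fin 3)} (hα : LinearIndependent ℝ α)
    {K : Set (EuclideanSpace ℝ (Fin 3))} {o : EuclideanSpace ℝ (Fin 3)}
    (hconv : Convex ℝ K) (hcomp : IsCompact K) (hint : (interior K).Nonempty)
    (h : Invariant CoxeterMatrix.H₃.M α o K) : IlluminatedBy K 7 ∧ SeparatedBy K o 7 := by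
  have hp := ph_sq
  have hb := orth_indep hα
  set b := bas hb with hbdef
  have b0 : b 0 = α 0 := by rw [hbdef, bas_apply]; rfl
  have b1 : b 1 = α 2 := by rw [hbdef, bas_apply]; rfl
  have b2 : b 2 = ph • ((2 : ℝ) • α 1 + α 0 + ph • α 2) := by rw [hbdef, bas_apply]; rfl
  have c5 : 2 * Real.cos (Real.pi / ((5 : ℕ) : ℝ)) = ph := cos_five
  have ex : ∀ x : Fin 3 → ℝ, ∑ i, x i • b i =
      ∑ i, (![x 0 + ph * x 2, 2 * ph * x 2, x 1 + ph ^ 2 * x 2] : Fin 3 → ℝ) i • α i := by
    intro x
    simp only [Fin.sum_univ_three, Matrix.cons_val_zero, Matrix.cons_val_one, Matrix.cons_val, b0, b1, b2]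
    module
  have r0 : Refl b o K ![1, 0, 0] := by
    rw [refl_iff]
    intro x hx
    rw [ex] at hx
    have h1 := h 0 _ hx
    convert h1 using 2
    have m0 : CoxeterMatrix.H₃.M 0 0 = 1 := rfl
    have m1 : CoxeterMatrix.H₃.M 0 1 = 3 := rfl
    have m2 : CoxeterMatrix.H₃.M 0 2 = 2 := rfl
    simp only [Fin.sum_univ_three, Matrix.cons_val_zero, Matrix.cons_val_one, Matrix.cons_val, b0, b1, b2,
      m0, m1, m2, cos_one, cos_two, cos_three, rfH]
    module
  have r1 : Refl b o K ![0, 1, 0] := by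
    rw [refl_iff]
    intro x hx
    rw [ex] at hx
    have h1 := h 2 _ hx
    convert h1 using 2
    have m0 : CoxeterMatrix.H₃.M 2 0 = 2 := rfl
    have m1 : CoxeterMatrix.H₃.M 2 1 = 5 := rfl
    have m2 : CoxeterMatrix.H₃.M 2 2 = 1 := rfl
    simp only [Fin.sum_univ_three, Matrix.cons_val_zero, Matrix.cons_val_one, Matrix.cons_val, b0, b1, b2,
      m0, m1, m2, cos_one, cos_two, c5, rfH]
    module
  have r2 : Refl b o K ![-1 / 2, -ph / 2, (ph - 1) / 2] := by
    rw [refl_iff]
    intro x hx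
    rw [ex] at hx
    have h1 := h 1 _ hx
    convert h1 using 2
    have m0 : CoxeterMatrix.H₃.M 1 0 = 3 := rfl
    have m1 : CoxeterMatrix.H₃.M 1 1 = 1 := rfl
    have m2 : CoxeterMatrix.H₃.M 1 2 = 5 := rfl
    simp only [Fin.sum_univ_three, Matrix.cons_val_zero, Matrix.cons_val_one, Matrix.cons_val, b0, b1, b2,
      m0, m1, m2, cos_one, cos_three, c5, rfH]
    match_scalars
    · linear_combination -(-1 / 2 * x 0 + -ph / 2 * x 1 + (ph - 1) / 2 * x 2) * hp
    · linear_combination -(-1 / 2 * x 0 + -ph / 2 * x 1 + (ph - 1) / 2 * x 2) * ph * hp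
    · linear_combination (-(ph + 1) * x 2 - 2 * (-1 / 2 * x 0 + -ph / 2 * x 1 + (ph - 1) / 2 * x 2)) * hp
  obtain ⟨h1, h2⟩ := HX.main_H3 hconv hcomp hint (all_roots r0 r1 r2)
  exact ⟨HX.points_of_dirs hcomp h1, sep_to_hyperplanes hcomp o h2⟩

end Pool.Agent.Lib.MP_5e7226_co.RG
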