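import Pool.Agent.Lib.MP_5e7226_co.RG.Strict
import Pool.Agent.Lib.MP_5e7226_co.RG.MnA
import Pool.Agent.Lib.MP_5e7226_co.RG.MnD
import Pool.Agent.Lib.MP_5e7226_co.RG.MnE6
import Pool.Agent.Lib.MP_5e7226_co.RG.MnH3
import Pool.Agent.Lib.MP_5e7226_co.RG.CvB
import Pool.Agent.Lib.MP_5e7226_co.RG.CvB3
import Pool.Agent.Lib.MP_5e7226_co.RG.CvF4
import Pool.Agent.Lib.MP_5e7226_co.RG.CvH4
import Pool.Agent.Lib.MP_5e7226_co.RG.CvE7
import Pool.Agent.Lib.MP_5e7226_co.RG.CvE8

set_option autoImplicit false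

namespace Pool.Agent.Lib.MP_5e7226_co.RG

variable {d : ℕ}

theorem final {M : Matrix (Fin d) (Fin d) ℕ} (hM : FiniteType d M)
    {α : Fin d → EuclideanSpace ℝ (Fin d)} (hα : LinearIndependent ℝ α)
    {K : Set (EuclideanSpace ℝ (Fin d))} {o : EuclideanSpace ℝ (Fin d)}
    (hconv : Convex ℝ K) (hcomp : IsCompact K) (hint : (interior K).Nonempty)
    (h : Invariant M α o K) : Good K o := by
  cases hM with
  | A _ hd => exact main_A hd hconv hcomp hint (cv_A (by omega) hα h)
  | B _ hd =>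
    rcases Nat.lt_or_ge 3 d with h3 | h3
    · exact main_D (by omega) hconv hcomp hint (cv_B hd hα h)
    · obtain rfl : d = 3 := by omega
      exact main_A le_rfl hconv hcomp hint (symA_three (cv_B le_rfl hα h))
  | D _ hd => exact main_D hd hconv hcomp hint (cv_D (by omega) hα h)
  | E6 =>
    obtain ⟨h1, h2⟩ := main_E6 hα hconv hcomp hint h
    exact good_of_strict (by norm_num) h1 h2
  | E7 => exact main_A (by norm_num) hconv hcomp hint (cv_E7 hα h)
  | E8 => exact main_A (by norm_num) hconv hcomp hint (cv_E8 hα h)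
  | F4 => exact main_D (by norm_num) hconv hcomp hint (cv_F4 hα h)
  | H3 =>
    obtain ⟨h1, h2⟩ := main_H3 hα hconv hcomp hint h
    exact good_of_strict (by norm_num) h1 h2
  | H4 => exact main_D (by norm_num) hconv hcomp hint (cv_H4 hα h)

end Pool.Agent.Lib.MP_5e7226_co.RG
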