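import Pool.Agent.Lib.MP_5e7226_co.RG.Sys
import Pool.Agent.Lib.MP_5e7226_co.RG.Cl5
import Pool.Agent.Lib.MP_5e7226_co.RG.Fin

set_option autoImplicit false

/-! The bodies invariant under a finite irreducible group generated by reflections. -/

namespace Pool.Agent.Lib.MP_5e7226_co.RG

open Finset

/-- The bodies invariant under a finite irreducible group generated by reflections. -/
theorem final_group
    {d : ℕ} {W : Subgroup (EuclideanSpace ℝ (Fin d) ≃ₗ[ℝ] EuclideanSpace ℝ (Fin d))} [Finite W] (hd : 3 ≤ d)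
    (hgen : Subgroup.closure {g | g ∈ W ∧ CL.IsReflection g} = W)
    (hirr : ∀ p : Submodule ℝ (EuclideanSpace ℝ (Fin d)), (∀ g ∈ W, ∀ x ∈ p, g x ∈ p) → p = ⊥ ∨ p = ⊤)
    {K : Set (EuclideanSpace ℝ (Fin d))} {o : EuclideanSpace ℝ (Fin d)}
    (hconv : Convex ℝ K) (hcomp : IsCompact K) (hint : (interior K).Nonempty)
    (hK : ∀ g ∈ W, ∀ x, o + x ∈ K → o + g x ∈ K) : Good K o := by
  obtain ⟨M, α, B, f, hC, hP, hN, hα, hg, hB, hgr, -⟩ := exists_coxeter_of_group (by omega) hgen hirr
  obtain ⟨e, hM⟩ := classify_form hd B hB.symm hB.pos hα hC.diag hC.off hgr (by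
    classical
    intro S hS hS'
    obtain ⟨i, hi, j, hj, h⟩ := hN S.toFinset (by simpa using hS) (by
      intro h
      apply hS'
      rw [← Set.coe_toFinset S, h, coe_univ])
    exact ⟨i, by simpa using hi, j, by simpa using hj, h⟩)
  refine final hM (hα.comp e e.injective) hconv hcomp hint ?_
  intro i c hx
  obtain ⟨g, hgW, hgα⟩ := hg (e i)
  have h1 := hK g hgW _ hx
  have h2 : g (∑ j, c j • (α ∘ e) j) =
      ∑ j, c j • ((α ∘ e) j + (2 * Real.cos (Real.pi / M (e i) (e j))) • (α ∘ e) i) := by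
    rw [map_sum]
    refine sum_congr rfl fun j _ => ?_
    rw [map_smul]
    congr 1
    exact hgα (e j)
  rw [h2] at h1
  exact h1

end Pool.Agent.Lib.MP_5e7226_co.RG
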