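import Pool.Agent.Lib.MP_5e7226_co.RG.Cv0
import Pool.Agent.Lib.MP_5e7226_co.SX.Gm2
import Pool.Agent.Lib.MP_5e7226_co.SX.Gm3
import Pool.Agent.Lib.MP_5e7226_co.SX.SmF

set_option autoImplicit false

/-! Main row A, `d ≥ 4`. -/

namespace Pool.Agent.Lib.MP_5e7226_co.RG

open scoped InnerProductSpace

variable {d : ℕ}

/-- The affine basis of `SymA`. -/
theorem symA_basis {K : Set (EuclideanSpace ℝ (Fin d))} {o : EuclideanSpace ℝ (Fin d)}
    (hconv : Convex ℝ K) (hcomp : IsCompact K) (hint : (interior K).Nonempty) (h : SymA K o) :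
    ∃ b : AffineBasis (Fin (d + 1)) ℝ (EuclideanSpace ℝ (Fin d)), SX.SymBody b K ∧ SX.cen b = o := by
  obtain ⟨a, ha, ho, hs⟩ := h
  have htop : affineSpan ℝ (Set.range a) = ⊤ := by
    rw [ha.affineSpan_eq_top_iff_card_eq_finrank_add_one]
    simp
  let b : AffineBasis (Fin (d + 1)) ℝ (EuclideanSpace ℝ (Fin d)) := ⟨a, ha, htop⟩
  have hb : ∀ i, b i = a i := fun i => rfl
  refine ⟨b, ⟨hconv, hcomp, hint, fun σ p hp => ?_⟩, ?_⟩
  · have h1 : ∑ i, b.coord i p • a i = p := b.linear_combination_coord_eq_self p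
    have h2 := hs σ (fun i => b.coord i p) (b.sum_coord_apply_eq_one p) (by rw [h1]; exact hp)
    exact h2
  · rw [ho]
    unfold SX.cen
    refine Finset.sum_congr rfl fun i _ => ?_
    rw [hb]
    push_cast
    rfl

theorem main_A_ge4 (hd : 4 ≤ d) {K : Set (EuclideanSpace ℝ (Fin d))} {o : EuclideanSpace ℝ (Fin d)}
    (hconv : Convex ℝ K) (hcomp : IsCompact K) (hint : (interior K).Nonempty) (h : SymA K o) :
    IlluminatedBy K (2 ^ d - 1) ∧ SeparatedBy K o (2 ^ d - 1) := by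
  obtain ⟨b, hK, hc⟩ := symA_basis hconv hcomp hint h
  have hG := SX.dual_GK hK
  constructor
  · obtain ⟨ι, i1, hcard, z, hz⟩ := SX.all_n (n := d + 1) (by omega) hG
    rw [Nat.add_sub_cancel] at hcard
    obtain ⟨v, hv⟩ := SX.illum_dirs hK z hz
    exact SX.illum_points (by omega) hcomp hv hcard
  · obtain ⟨ι, i1, hcard, z, hz⟩ := SX.all_n (n := d + 1) (by omega) (SX.dual_swp hG)
    rw [Nat.add_sub_cancel] at hcard
    have h1 := SX.sep_of_works hK z hz hcard
    rw [← hc]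
    exact sep_to_hyperplanes hcomp _ h1

end Pool.Agent.Lib.MP_5e7226_co.RG
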