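import Pool.Agent.Lib.MP_5e7226_co.RG.Cv0
import Pool.Agent.Lib.MP_5e7226_co.DX.Gm4
import Pool.Agent.Lib.MP_5e7226_co.DX.Asm
import Pool.Agent.Lib.MP_5e7226_co.HX.Geo

set_option autoImplicit false

/-! From the sets of dual pairs to `Good K o`, and the type `D_d`, `d ≥ 5`. -/

namespace Pool.Agent.Lib.MP_5e7226_co.RG

open Finset
open Pool.Agent.Lib.MP_5e7226_co.DX (co fu GK swp Works sum_co co_sum pairing SymBody CubeData Dual)
open Pool.Agent.Lib.MP_5e7226_co.HX (Body)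

variable {d : ℕ}

/-- Directions give points outside `K` (as `illum_points` of `SX/Gm2.lean`). -/
theorem points_of_dirs {K : Set (EuclideanSpace ℝ (Fin d))} (hd : 0 < d) (hK : IsCompact K) {ι : Type} [Fintype ι]
    {v : ι → EuclideanSpace ℝ (Fin d)}
    (h : ∀ q ∈ frontier K, ∃ i, ∃ t : ℝ, 0 < t ∧ q + t • v i ∈ interior K) {N : ℕ} (hN : Fintype.card ι ≤ N) :
    IlluminatedBy K N := by
  classical
  obtain ⟨e0, he0⟩ : ∃ e : EuclideanSpace ℝ (Fin d), e ≠ 0 := by
    refine ⟨EuclideanSpace.single ⟨0, hd⟩ 1, ?_⟩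
    intro h0
    have h1 := congrArg (fun x : EuclideanSpace ℝ (Fin d) => x ⟨0, hd⟩) h0
    simp at h1
  obtain ⟨g⟩ : Nonempty (ι ↪ Fin N) := Function.Embedding.nonempty_of_card_le (by simpa using hN)
  obtain ⟨w, hw0, hw⟩ : ∃ w : Fin N → EuclideanSpace ℝ (Fin d), (∀ k, w k ≠ 0) ∧
      ∀ i, v i ≠ 0 → w (g i) = v i := by
    refine ⟨fun k => if hk : ∃ i, g i = k ∧ v i ≠ 0 then v hk.choose else e0, ?_, ?_⟩
    · intro k
      by_cases hk : ∃ i, g i = k ∧ v i ≠ 0
      · simp only [hk, dif_pos]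
        exact hk.choose_spec.2
      · simp only [hk, dif_neg, not_false_eq_true]
        exact he0
    · intro i hi
      have hk : ∃ i', g i' = g i ∧ v i' ≠ 0 := ⟨i, rfl, hi⟩
      simp only [hk, dif_pos]
      rw [g.injective hk.choose_spec.1]
  have h' : ∀ q ∈ frontier K, ∃ k, ∃ t : ℝ, 0 < t ∧ q + t • w k ∈ interior K := by
    intro q hq
    obtain ⟨i, t, ht, hi⟩ := h q hq
    have hv : v i ≠ 0 := by
      intro h0
      rw [h0, smul_zero, add_zero] at hi
      exact hq.2 hi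
    exact ⟨g i, t, ht, by rw [hw i hv]; exact hi⟩
  have hfr : IsCompact (frontier K) := hK.of_isClosed_subset isClosed_frontier hK.isClosed.frontier_subset
  have hev : ∀ᶠ δ in nhds (0 : ℝ), ∀ q ∈ frontier K, ∃ k, ∃ t : ℝ, 0 < t ∧
      q + (t * δ) • q + t • w k ∈ interior K := by
    refine IsCompact.eventually_forall_of_forall_eventually hfr ?_
    intro q₀ hq₀
    obtain ⟨k, t, ht, hk⟩ := h' q₀ hq₀
    have hcont : Continuous (fun z : ℝ × EuclideanSpace ℝ (Fin d) => z.2 + (t * z.1) • z.2 + t • w k) := by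
      fun_prop
    have hmem : (fun z : ℝ × EuclideanSpace ℝ (Fin d) => z.2 + (t * z.1) • z.2 + t • w k) (0, q₀) ∈
        interior K := by
      simpa using hk
    filter_upwards [hcont.continuousAt.preimage_mem_nhds (isOpen_interior.mem_nhds hmem)] with z hz
    exact ⟨k, t, ht, hz⟩
  obtain ⟨M, hM0, hM⟩ : ∃ M : ℝ, 0 < M ∧ ∀ x ∈ K, ‖x‖ ≤ M := by
    obtain ⟨M, hM⟩ := hK.isBounded.exists_norm_le
    exact ⟨max M 1, lt_max_of_lt_right one_pos, fun x hx => (hM x hx).trans (le_max_left _ _)⟩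
  have hev2 : ∀ᶠ δ in nhdsWithin (0 : ℝ) (Set.Ioi 0), ∀ k, -(δ⁻¹ • w k) ∉ K := by
    rw [Filter.eventually_all]
    intro k
    have hwk : 0 < ‖w k‖ := norm_pos_iff.2 (hw0 k)
    filter_upwards [Ioo_mem_nhdsGT (div_pos hwk hM0)] with δ hδ hmem
    have h1 := hM _ hmem
    rw [norm_neg, norm_smul, norm_inv, Real.norm_eq_abs, abs_of_pos hδ.1, inv_mul_le_iff₀ hδ.1] at h1
    have h2 := hδ.2
    rw [lt_div_iff₀ hM0] at h2
    linarith
  have hev3 : ∀ᶠ δ in nhdsWithin (0 : ℝ) (Set.Ioi 0), 0 < δ := self_mem_nhdsWithin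
  obtain ⟨δ, hδ1, hδ2, hδ0⟩ := ((hev.filter_mono nhdsWithin_le_nhds).and (hev2.and hev3)).exists
  refine ⟨fun k => -(δ⁻¹ • w k), hδ2, ?_⟩
  intro q hq
  obtain ⟨k, t, ht, hk⟩ := hδ1 q hq
  refine ⟨k, t * δ, mul_pos ht hδ0, ?_⟩
  have h1 : q + (t * δ) • (q - -(δ⁻¹ • w k)) = q + (t * δ) • q + t • w k := by
    rw [sub_neg_eq_add, smul_add, smul_smul, mul_assoc, mul_inv_cancel₀ hδ0.ne', mul_one, add_assoc]
  rw [h1]
  exact hk

private theorem mem_hull_of_abs {E : Type*} [AddCommGroup E] [Module ℝ E] (o : E) (v : Fin d → E)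
    (α : Fin d → ℝ) (hα : ∑ i, |α i| ≤ 1) (hne : Nonempty (Fin d)) :
    o + ∑ i, α i • v i ∈ convexHull ℝ (⋃ i, ({o + v i, o - (1 : ℝ) • v i} : Set E)) := by
  classical
  set H := convexHull ℝ (⋃ i, ({o + v i, o - (1 : ℝ) • v i} : Set E)) with hH
  have hconv : Convex ℝ H := convex_convexHull ℝ _
  have hplus : ∀ i, o + v i ∈ H := fun i => subset_convexHull ℝ _
    (Set.mem_iUnion.2 ⟨i, by simp⟩)
  have hminus : ∀ i, o - (1 : ℝ) • v i ∈ H := fun i => subset_convexHull ℝ _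
    (Set.mem_iUnion.2 ⟨i, by simp⟩)
  obtain ⟨i₀⟩ := hne
  have ho : o ∈ H := by
    have h1 := hconv (hplus i₀) (hminus i₀) (a := 1 / 2) (b := 1 / 2) (by norm_num) (by norm_num)
      (by norm_num)
    have e : (1 / 2 : ℝ) • (o + v i₀) + (1 / 2 : ℝ) • (o - (1 : ℝ) • v i₀) = o := by
      rw [one_smul, smul_add, smul_sub]
      have : (1 / 2 : ℝ) • o + (1 / 2 : ℝ) • o = o := by rw [← add_smul]; norm_num
      calc _ = (1 / 2 : ℝ) • o + (1 / 2 : ℝ) • o := by abel
        _ = o := this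
    rwa [e] at h1
  let p : Fin d → E := fun i => if 0 ≤ α i then o + v i else o - (1 : ℝ) • v i
  have hp : ∀ i, p i ∈ H := by
    intro i
    simp only [p]
    split_ifs
    · exact hplus i
    · exact hminus i
  have hpe : ∀ i, |α i| • p i = |α i| • o + α i • v i := by
    intro i
    simp only [p]
    split_ifs with h
    · rw [smul_add, abs_of_nonneg h]
    · rw [one_smul, smul_sub, abs_of_neg (not_le.1 h), neg_smul, neg_smul, sub_neg_eq_add]
  set s := ∑ i, |α i| with hs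
  rcases eq_or_lt_of_le (show 0 ≤ s from sum_nonneg (fun _ _ => abs_nonneg _)) with h0 | h0
  · have hz : ∀ i, α i = 0 := by
      intro i
      have := (sum_eq_zero_iff_of_nonneg (fun i _ => abs_nonneg (α i))).1 h0.symm i (mem_univ i)
      exact abs_eq_zero.1 this
    have : o + ∑ i, α i • v i = o := by simp [hz]
    rw [this]; exact ho
  · have hz : ∑ i, (|α i| / s) • p i ∈ H := by
      apply hconv.sum_mem
      · intro i _; positivity
      · rw [← sum_div, ← hs]; exact div_self h0.ne'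
      · intro i _; exact hp i
    have h1 := hconv ho hz (a := 1 - s) (b := s) (by linarith) h0.le (by ring)
    have e : (1 - s) • o + s • ∑ i, (|α i| / s) • p i = o + ∑ i, α i • v i := by
      rw [smul_sum]
      have : ∀ i ∈ (univ : Finset (Fin d)), s • (|α i| / s) • p i = |α i| • o + α i • v i := by
        intro i _
        rw [smul_smul, mul_div_cancel₀ _ h0.ne', hpe]
      rw [sum_congr rfl this, sum_add_distrib, ← sum_smul, ← hs, ← add_assoc, ← add_smul]
      have : (1 : ℝ) - s + s = 1 := by ring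
      rw [this, one_smul]
    rwa [e] at h1

/-- The sign vector of a map to `Bool`. -/
def sg (ε : Fin d → Bool) : Fin d → ℝ := fun i => if ε i then 1 else -1

private theorem sgn_pos {a c : Fin d → ℝ} {T : ℝ} (hT : 0 < T) (ha : ∀ i, |a i| ≤ T)
    (hc : T * ∑ i, |c i| ≤ 1) (h1 : ∑ i, c i * a i = 1) :
    0 < ∑ i, c i * sg (fun i => decide (0 ≤ a i)) i := by
  obtain ⟨s, hs'⟩ : ∃ s : Fin d → ℝ, s = sg (fun i => decide (0 ≤ a i)) := ⟨_, rfl⟩
  rw [← hs']
  have hs : ∀ i, s i = 1 ∨ s i = -1 := by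
    intro i
    rw [hs']
    unfold sg
    split_ifs
    · exact Or.inl rfl
    · exact Or.inr rfl
  have hsa : ∀ i, s i * a i = |a i| := by
    intro i
    rw [hs']
    unfold sg
    by_cases h : 0 ≤ a i
    · simp [h, abs_of_nonneg h]
    · simp [h, abs_of_neg (not_le.1 h)]
  have h2 : ∀ i, c i * a i ≤ T * |c i| := by
    intro i
    calc c i * a i ≤ |c i * a i| := le_abs_self _
      _ = |c i| * |a i| := abs_mul _ _
      _ ≤ |c i| * T := mul_le_mul_of_nonneg_left (ha i) (abs_nonneg _)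
      _ = T * |c i| := mul_comm _ _
  have h3 : ∑ i, (T * |c i| - c i * a i) = 0 := by
    apply le_antisymm
    · rw [sum_sub_distrib, ← mul_sum, h1]
      linarith
    · exact sum_nonneg fun i _ => sub_nonneg.2 (h2 i)
  have h4 : ∀ i, T * |c i| = c i * a i := by
    intro i
    have := (sum_eq_zero_iff_of_nonneg (fun i _ => sub_nonneg.2 (h2 i))).1 h3 i (mem_univ i)
    linarith
  have h5 : ∀ i, c i * s i = |c i| := by
    intro i
    have h6 : 0 ≤ c i * s i := by
      by_contra hneg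
      push Not at hneg
      have h7 : c i * a i = c i * s i * |a i| := by
        rw [← hsa i]
        rcases hs i with h | h <;> rw [h] <;> ring
      have h8 : c i * s i * |a i| ≤ 0 := mul_nonpos_of_nonpos_of_nonneg hneg.le (abs_nonneg _)
      have h9 : T * |c i| ≤ 0 := by
        rw [h4 i, h7]
        exact h8
      have h10 : |c i| = 0 := by
        have := abs_nonneg (c i)
        nlinarith
      rw [abs_eq_zero.1 h10, zero_mul] at hneg
      exact lt_irrefl _ hneg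
    rw [← abs_of_nonneg h6, abs_mul]
    rcases hs i with h | h <;> simp [h]
  rw [sum_congr rfl fun i _ => h5 i]
  by_contra hneg
  have h6 : ∑ i, |c i| = 0 := le_antisymm (not_lt.1 hneg) (sum_nonneg fun i _ => abs_nonneg _)
  have h7 : ∑ i, c i * a i = T * ∑ i, |c i| := by
    rw [mul_sum]
    exact sum_congr rfl fun i _ => (h4 i).symm
  rw [h1, h6, mul_zero] at h7
  exact one_ne_zero h7

private theorem mul_sign (r : ℝ) : ∃ s : ℝ, (s = 1 ∨ s = -1) ∧ r * s = |r| := by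
  rcases le_total 0 r with h | h
  · exact ⟨1, Or.inl rfl, by rw [mul_one, abs_of_nonneg h]⟩
  · exact ⟨-1, Or.inr rfl, by rw [abs_of_nonpos h]; ring⟩

/-- The cube is served by the sign vectors. -/
theorem cube_works {B : Module.Basis (Fin d) ℝ (EuclideanSpace ℝ (Fin d))} {o : EuclideanSpace ℝ (Fin d)}
    {K : Set (EuclideanSpace ℝ (Fin d))} {t : ℝ} (ht : 0 < t)
    (hK : K = {x | ∃ c : Fin d → ℝ, (∀ i, |c i| ≤ t) ∧ x = o + ∑ i, c i • B i}) :
    ∀ q ∈ GK B o K, ∃ ε : Fin d → Bool, Works (GK B o K) q.1 (sg ε) := by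
  rintro ⟨x, u0⟩ -
  refine ⟨fun i => decide (0 ≤ x i), ?_⟩
  intro u hu
  obtain ⟨p, hp, f, hf1, hf2, hq⟩ := hu
  obtain ⟨hx, hu⟩ := Prod.mk.injEq .. ▸ hq
  subst hx hu
  refine sgn_pos ht ?_ ?_ ?_
  · intro i
    rw [hK] at hp
    obtain ⟨c, hc, rfl⟩ := hp
    rw [co_sum]
    exact hc i
  · choose s hs1 hs2 using mul_sign
    have h1 := hf1 (o + ∑ i, (t * s (fu B f i)) • B i) (by
      rw [hK]
      refine ⟨fun i => t * s (fu B f i), fun i => ?_, rfl⟩
      rw [abs_mul, abs_of_pos ht]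
      rcases hs1 (fu B f i) with h | h <;> rw [h] <;> simp)
    rw [pairing B o f, co_sum] at h1
    rw [mul_sum]
    refine le_trans (le_of_eq ?_) h1
    refine sum_congr rfl fun i _ => ?_
    rw [← hs2 (fu B f i)]
    ring
  · rw [← pairing B o f p]
    exact hf2

/-- The cross-body is served by the sign vectors. -/
theorem cross_works {B : Module.Basis (Fin d) ℝ (EuclideanSpace ℝ (Fin d))} {o : EuclideanSpace ℝ (Fin d)}
    {K : Set (EuclideanSpace ℝ (Fin d))} {t : ℝ} (ht : 0 < t)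
    (hK : K = {x | ∃ c : Fin d → ℝ, ∑ i, |c i| ≤ 1 / t ∧ x = o + ∑ i, c i • B i}) :
    ∀ q ∈ swp (GK B o K), ∃ ε : Fin d → Bool, Works (swp (GK B o K)) q.1 (sg ε) := by
  rintro ⟨u, x0⟩ -
  refine ⟨fun i => decide (0 ≤ u i), ?_⟩
  intro x hx
  obtain ⟨p, hp, f, hf1, hf2, hq⟩ := hx
  obtain ⟨hx, hu⟩ := Prod.mk.injEq .. ▸ hq
  change x = co B o p at hx
  change u = fu B f at hu
  subst hx hu
  refine sgn_pos ht ?_ ?_ ?_
  · intro i
    obtain ⟨s, hs1, hs2⟩ := mul_sign (fu B f i)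
    have h1 := hf1 (o + ∑ j, (if j = i then s / t else 0) • B j) (by
      rw [hK]
      refine ⟨fun j => if j = i then s / t else 0, ?_, rfl⟩
      rw [sum_eq_single i (fun j _ hj => by beta_reduce; rw [if_neg hj, abs_zero])
        (fun h => absurd (mem_univ i) h)]
      beta_reduce
      rw [if_pos rfl, abs_div, abs_of_pos ht]
      rcases hs1 with h | h <;> rw [h] <;> simp)
    rw [pairing B o f, co_sum, sum_eq_single i (fun j _ hj => by rw [if_neg hj, mul_zero])
      (fun h => absurd (mem_univ i) h), if_pos rfl, mul_div_assoc', hs2, div_le_one ht] at h1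
    exact h1
  · rw [hK] at hp
    obtain ⟨c, hc, rfl⟩ := hp
    rw [co_sum]
    rw [le_div_iff₀ ht] at hc
    rw [mul_comm]
    exact hc
  · have h1 := hf2
    rw [pairing B o f p] at h1
    rw [← h1]
    exact sum_congr rfl fun i _ => mul_comm _ _

theorem affineCube_of {B : Module.Basis (Fin d) ℝ (EuclideanSpace ℝ (Fin d))} {o : EuclideanSpace ℝ (Fin d)}
    {K : Set (EuclideanSpace ℝ (Fin d))} {t : ℝ} (ht : 0 < t)
    (hK : K = {x | ∃ c : Fin d → ℝ, (∀ i, |c i| ≤ t) ∧ x = o + ∑ i, c i • B i}) : IsAffineCube K := by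
  refine ⟨o, fun i => t • B i, ?_, ?_⟩
  · have := B.linearIndependent.units_smul (fun _ => Units.mk0 t ht.ne')
    exact this
  · rw [hK]
    ext x
    constructor
    · rintro ⟨c, hc, rfl⟩
      refine ⟨fun i => c i / t, fun i => ?_, ?_⟩
      · rw [abs_div, abs_of_pos ht, div_le_one ht]
        exact hc i
      · congr 1
        refine sum_congr rfl fun i _ => ?_
        rw [smul_smul, div_mul_cancel₀ _ ht.ne']
    · rintro ⟨c, hc, rfl⟩
      refine ⟨fun i => c i * t, fun i => ?_, ?_⟩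
      · rw [abs_mul, abs_of_pos ht]
        have := hc i
        nlinarith
      · congr 1
        refine sum_congr rfl fun i _ => ?_
        rw [smul_smul]

theorem crossBody_of (hd : 0 < d) {B : Module.Basis (Fin d) ℝ (EuclideanSpace ℝ (Fin d))} {o : EuclideanSpace ℝ (Fin d)}
    {K : Set (EuclideanSpace ℝ (Fin d))} {t : ℝ} (ht : 0 < t) (hc : Convex ℝ K)
    (hK : K = {x | ∃ c : Fin d → ℝ, ∑ i, |c i| ≤ 1 / t ∧ x = o + ∑ i, c i • B i}) : IsCrossBody K o := by
  have ht' : 0 < 1 / t := one_div_pos.2 ht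
  refine ⟨fun i => (1 / t) • B i, fun _ => 1, ?_, fun _ => one_pos, ?_⟩
  · have := B.linearIndependent.units_smul (fun _ => Units.mk0 (1 / t) ht'.ne')
    exact this
  · apply Set.Subset.antisymm
    · intro x hx
      rw [hK] at hx
      obtain ⟨c, hc, rfl⟩ := hx
      have h1 : ∑ i, c i • B i = ∑ i, (t * c i) • ((1 / t) • B i) := by
        refine sum_congr rfl fun i _ => ?_
        rw [smul_smul]
        congr 1
        field_simp
      rw [h1]
      refine mem_hull_of_abs o _ _ ?_ ⟨⟨0, hd⟩⟩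
      rw [sum_congr rfl fun i _ => show |t * c i| = t * |c i| by rw [abs_mul, abs_of_pos ht], ← mul_sum]
      rw [le_div_iff₀ ht] at hc
      rw [mul_comm]
      exact hc
    · have hmem : ∀ i, ∀ s : ℝ, (s = 1 ∨ s = -1) → o + s • ((1 / t) • B i) ∈ K := by
        intro i s hs
        rw [hK]
        refine ⟨fun j => if j = i then s * (1 / t) else 0, ?_, ?_⟩
        · rw [sum_eq_single i (fun j _ hj => by beta_reduce; rw [if_neg hj, abs_zero])
            (fun h => absurd (mem_univ i) h)]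
          beta_reduce
          rw [if_pos rfl, abs_mul, abs_of_pos ht']
          rcases hs with h | h <;> rw [h] <;> simp
        · congr 1
          rw [sum_eq_single i (fun j _ hj => by beta_reduce; rw [if_neg hj, zero_smul])
            (fun h => absurd (mem_univ i) h)]
          beta_reduce
          rw [if_pos rfl, smul_smul]
      apply convexHull_min _ hc
      intro x hx
      obtain ⟨i, hi⟩ := Set.mem_iUnion.1 hx
      simp only [Set.mem_insert_iff, Set.mem_singleton_iff] at hi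
      rcases hi with rfl | rfl
      · have := hmem i 1 (Or.inl rfl)
        rwa [one_smul] at this
      · have := hmem i (-1) (Or.inr rfl)
        rwa [neg_smul, one_smul, ← sub_eq_add_neg, ← one_smul ℝ ((1 / t) • B i)] at this

/-- From the two sets of dual pairs to the final form. -/
theorem good_of (hd : 0 < d) {K : Set (EuclideanSpace ℝ (Fin d))} {o : EuclideanSpace ℝ (Fin d)} (hK : Body o K)
    (hI : (∃ (B : Module.Basis (Fin d) ℝ (EuclideanSpace ℝ (Fin d))) (t : ℝ), 0 < t ∧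
        K = {x | ∃ c : Fin d → ℝ, (∀ i, |c i| ≤ t) ∧ x = o + ∑ i, c i • B i}) ∨
      ∃ (B : Module.Basis (Fin d) ℝ (EuclideanSpace ℝ (Fin d))) (ι : Type) (_ : Fintype ι),
        Fintype.card ι ≤ 2 ^ d - 1 ∧ ∃ z : ι → Fin d → ℝ, ∀ q ∈ GK B o K, ∃ i, Works (GK B o K) q.1 (z i))
    (hS : (∃ (B : Module.Basis (Fin d) ℝ (EuclideanSpace ℝ (Fin d))) (t : ℝ), 0 < t ∧
        K = {x | ∃ c : Fin d → ℝ, ∑ i, |c i| ≤ 1 / t ∧ x = o + ∑ i, c i • B i}) ∨
      ∃ (B : Module.Basis (Fin d) ℝ (EuclideanSpace ℝ (Fin d))) (ι : Type) (_ : Fintype ι),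
        Fintype.card ι ≤ 2 ^ d - 1 ∧ ∃ z : ι → Fin d → ℝ,
          ∀ q ∈ swp (GK B o K), ∃ i, Works (swp (GK B o K)) q.1 (z i)) : Good K o := by
  have hill : ∀ (B : Module.Basis (Fin d) ℝ (EuclideanSpace ℝ (Fin d))) (ι : Type) (_ : Fintype ι) (N : ℕ),
      Fintype.card ι ≤ N → ∀ z : ι → Fin d → ℝ, (∀ q ∈ GK B o K, ∃ i, Works (GK B o K) q.1 (z i)) →
        IlluminatedBy K N := by
    intro B ι _ N hN z hz
    obtain ⟨v, hv⟩ := HX.illum_dirs hK z hz
    exact points_of_dirs hd hK.compact hv hN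
  have hsep : ∀ (B : Module.Basis (Fin d) ℝ (EuclideanSpace ℝ (Fin d))) (ι : Type) (_ : Fintype ι) (N : ℕ),
      Fintype.card ι ≤ N → ∀ z : ι → Fin d → ℝ,
        (∀ q ∈ swp (GK B o K), ∃ i, Works (swp (GK B o K)) q.1 (z i)) → SeparatedBy K o N := by
    intro B ι _ N hN z hz
    exact sep_to_hyperplanes hK.compact o (HX.sep_of_works hK z hz hN)
  have hcard : Fintype.card (Fin d → Bool) ≤ 2 ^ d := by simp
  have h1 : IlluminatedBy K (2 ^ d) ∧ (¬ IlluminatedBy K (2 ^ d - 1) → IsAffineCube K) := by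
    rcases hI with ⟨B, t, ht, h⟩ | ⟨B, ι, hι, hc, z, hz⟩
    · exact ⟨hill B _ inferInstance _ hcard sg (cube_works ht h), fun _ => affineCube_of ht h⟩
    · exact ⟨hill B ι hι _ (hc.trans (Nat.sub_le _ _)) z hz, fun hn => (hn (hill B ι hι _ hc z hz)).elim⟩
  have h2 : SeparatedBy K o (2 ^ d) ∧ (¬ SeparatedBy K o (2 ^ d - 1) → IsCrossBody K o) := by
    rcases hS with ⟨B, t, ht, h⟩ | ⟨B, ι, hι, hc, z, hz⟩
    · exact ⟨hsep B _ inferInstance _ hcard sg (cross_works ht h), fun _ => crossBody_of hd ht hK.convex h⟩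
    · exact ⟨hsep B ι hι _ (hc.trans (Nat.sub_le _ _)) z hz, fun hn => (hn (hsep B ι hι _ hc z hz)).elim⟩
  exact ⟨h2.1, h2.2, h1.1, h1.2⟩

/-- The symmetries in the basis. -/
theorem symBody_of {b : Fin d → EuclideanSpace ℝ (Fin d)} (hb : LinearIndependent ℝ b)
    {K : Set (EuclideanSpace ℝ (Fin d))} {o : EuclideanSpace ℝ (Fin d)}
    (hconv : Convex ℝ K) (hcomp : IsCompact K) (hint : (interior K).Nonempty)
    (h : ∀ (σ : Equiv.Perm (Fin d)) (ε : Fin d → ℝ), (∀ i, ε i = 1 ∨ ε i = -1) → ∏ i, ε i = 1 →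
      ∀ c : Fin d → ℝ, o + ∑ i, c i • b i ∈ K → o + ∑ i, (ε i * c i) • b (σ i) ∈ K) :
    SymBody (bas hb) o K := by
  refine ⟨hconv, hcomp, hint, fun σ ε hε hp p hpK => ?_⟩
  have h1 : p = o + ∑ i, co (bas hb) o p i • b i := by
    have h2 := sum_co (bas hb) o p
    simp only [bas_apply] at h2
    rw [h2]
    abel
  have h3 := h σ ε hε hp (co (bas hb) o p) (by rw [← h1]; exact hpK)
  simp only [bas_apply]
  exact h3

/-- Type `D_d`, `d ≥ 5`. -/
theorem main_D5 (hd : 5 ≤ d) {K : Set (EuclideanSpace ℝ (Fin d))} {o : EuclideanSpace ℝ (Fin d)}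
    (hconv : Convex ℝ K) (hcomp : IsCompact K) (hint : (interior K).Nonempty) (h : SymD K o) : Good K o := by
  obtain ⟨b, hb, h⟩ := h
  have hS := symBody_of hb hconv hcomp hint h
  have hB : Body o K := ⟨hconv, hcomp, DX.cen_mem_interior (by omega) hS⟩
  have hG := DX.dual_GK (by omega) hS
  have hpow : 2 ^ d - 4 ≤ 2 ^ d - 1 := by omega
  refine good_of (by omega) hB ?_ ?_
  · rcases DX.core hd hG with ⟨t, ht⟩ | ⟨ι, hι, hc, z, hz⟩
    · exact Or.inl ⟨bas hb, t, ht.1, DX.cube_end (by omega) hS ht⟩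
    · exact Or.inr ⟨bas hb, ι, hι, hc.trans hpow, z, hz⟩
  · rcases DX.core hd (DX.dual_swp hG) with ⟨t, ht⟩ | ⟨ι, hι, hc, z, hz⟩
    · exact Or.inl ⟨bas hb, t, ht.1, DX.cross_end (by omega) hS ht⟩
    · exact Or.inr ⟨bas hb, ι, hι, hc.trans hpow, z, hz⟩

end Pool.Agent.Lib.MP_5e7226_co.RG
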