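import Pool.Agent.Lib.MP_5e7226_co.RG.Cv0

set_option autoImplicit false

/-! Strict bounds give both parts. -/

namespace Pool.Agent.Lib.MP_5e7226_co.RG

open scoped InnerProductSpace

variable {d : ℕ}

theorem good_of_strict {K : Set (EuclideanSpace ℝ (Fin d))} {o : EuclideanSpace ℝ (Fin d)} (hd : 1 ≤ d)
    (h1 : IlluminatedBy K (2 ^ d - 1)) (h2 : SeparatedBy K o (2 ^ d - 1)) : Good K o := by
  have h0 : 1 < 2 ^ d := Nat.one_lt_two_pow (by omega)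
  refine ⟨?_, fun h => (h h2).elim, ?_, fun h => (h h1).elim⟩
  · obtain ⟨w, b, hw⟩ := h2
    refine ⟨fun i => if h : (i : ℕ) < 2 ^ d - 1 then w ⟨i, h⟩ else 0,
      fun i => if h : (i : ℕ) < 2 ^ d - 1 then b ⟨i, h⟩ else 0, fun u x₀ hu hx₀ hmax => ?_⟩
    obtain ⟨i, h1, h2⟩ := hw u x₀ hu hx₀ hmax
    refine ⟨⟨i, by omega⟩, ?_, fun x hx hux => ?_⟩
    · simpa using h1
    · simpa using h2 x hx hux
  · obtain ⟨p, hp, hq⟩ := h1
    refine ⟨fun i => if h : (i : ℕ) < 2 ^ d - 1 then p ⟨i, h⟩ else p ⟨0, by omega⟩, fun i => ?_, fun q hqK => ?_⟩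
    · dsimp only
      split_ifs
      · exact hp _
      · exact hp _
    · obtain ⟨i, s, hs, h1⟩ := hq q hqK
      refine ⟨⟨i, by omega⟩, s, hs, ?_⟩
      simpa using h1

end Pool.Agent.Lib.MP_5e7226_co.RG
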