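import Pool.Agent.Lib.MP_5e7226_co.RG.Sys1
import Pool.Agent.Lib.MP_5e7226_co.RG.Ang
import Pool.Agent.Lib.MP_5e7226_co.CL.RDefs

set_option autoImplicit false

/-! From a finite irreducible reflection group to its Coxeter matrix. -/

namespace Pool.Agent.Lib.MP_5e7226_co.RG

open Finset

private theorem inj_pair {d : ℕ} {i j : Fin d} (hij : i ≠ j) : Function.Injective (![i, j] : Fin 2 → Fin d) := by
  intro k l hkl
  fin_cases k <;> fin_cases l
  · rfl
  · exact absurd hkl hij
  · exact absurd hkl.symm hij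
  · rfl

private theorem form_sum {V : Type*} [AddCommGroup V] [Module ℝ V] (B : V →ₗ[ℝ] V →ₗ[ℝ] ℝ) {d : ℕ} (v : Fin d → V)
    (c e : Fin d → ℝ) : B (∑ i, c i • v i) (∑ j, e j • v j) = ∑ i, ∑ j, c i * e j * B (v i) (v j) := by
  rw [map_sum B, LinearMap.sum_apply]
  refine sum_congr rfl fun i _ => ?_
  rw [map_smul, LinearMap.smul_apply, map_sum, smul_eq_mul, mul_sum]
  refine sum_congr rfl fun j _ => ?_
  rw [map_smul, smul_eq_mul]
  ring

theorem exists_coxeter_of_group {d : ℕ} (hd : 2 ≤ d)
    {W : Subgroup (EuclideanSpace ℝ (Fin d) ≃ₗ[ℝ] EuclideanSpace ℝ (Fin d))} [Finite W]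
    (hgen : Subgroup.closure {g | g ∈ W ∧ CL.IsReflection g} = W)
    (hirr : ∀ p : Submodule ℝ (EuclideanSpace ℝ (Fin d)), (∀ g ∈ W, ∀ x ∈ p, g x ∈ p) → p = ⊥ ∨ p = ⊤) :
    ∃ (M : Matrix (Fin d) (Fin d) ℕ) (α : Fin d → EuclideanSpace ℝ (Fin d))
      (B : EuclideanSpace ℝ (Fin d) →ₗ[ℝ] EuclideanSpace ℝ (Fin d) →ₗ[ℝ] ℝ)
      (f : EuclideanSpace ℝ (Fin d) →ₗ[ℝ] ℝ),
      CL.Cox M ∧ CL.PD M ∧ CL.Conn M ∧ LinearIndependent ℝ α ∧
        (∀ i, ∃ g ∈ W, ∀ j, g (α j) = α j + (2 * Real.cos (Real.pi / M i j)) • α i) ∧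
        CL.Frm B ∧ (∀ i j, B (α i) (α j) = CL.gram M i j) ∧ ∀ i, 0 < f (α i) := by
  classical
  obtain ⟨B, hB⟩ := exists_form W
  have hgen' : W = Subgroup.closure {g | g ∈ W ∧ IsRefl g} := hgen.symm
  have hirr' : ∀ U : Submodule ℝ (EuclideanSpace ℝ (Fin d)),
      (∀ g ∈ W, U.map (g : EuclideanSpace ℝ (Fin d) →ₗ[ℝ] EuclideanSpace ℝ (Fin d)) ≤ U) → U = ⊥ ∨ U = ⊤ := by
    intro U hU
    exact hirr U fun g hg x hx => hU g hg ⟨x, hx, rfl⟩
  have hfr : Module.finrank ℝ (EuclideanSpace ℝ (Fin d)) = d := by simp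
  have hfin := Rts_finite hB (W := W)
  have hst : ∀ r ∈ Rts B W, ∀ x ∈ Rts B W, x - (2 * B r x) • r ∈ Rts B W := fun r hr x hx =>
    Rts_stable hB hr hx
  have hneg : ∀ r ∈ Rts B W, -r ∈ Rts B W := fun r hr => Rts_neg hr
  have h1 : ∀ r ∈ Rts B W, B r r = 1 := fun r hr => hr.1
  have hspan := span_Rts hB hgen' hirr' (by rw [hfr]; exact hd)
  obtain ⟨b, f, hb, hob, hf, hfb, hpos, hnp⟩ := exists_simple_basis hB.symm hB.pos hfin hst hneg h1 hspan hfr
  -- angles
  have hang : ∀ i j, i ≠ j → ∃ m : ℕ, 2 ≤ m ∧ B (b i) (b j) = -Real.cos (Real.pi / m) := by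
    intro i j hij
    refine angles B hB.symm hst (hb i) (hb j) (h1 _ (hb i)) (h1 _ (hb j)) ?_ (hob i j hij) hB.pos ?_
    · have h2 := b.linearIndependent.comp ![i, j] (inj_pair hij)
      have h3 : (b ∘ ![i, j] : Fin 2 → EuclideanSpace ℝ (Fin d)) = ![b i, b j] := by
        funext k
        fin_cases k <;> rfl
      rw [← h3]
      exact h2
    · intro s t hst'
      have hri : b.repr (s • b i + t • b j) i = s := by
        rw [map_add, map_smul, map_smul, Finsupp.add_apply, Finsupp.smul_apply, Finsupp.smul_apply, b.repr_self,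
          b.repr_self, Finsupp.single_eq_same, Finsupp.single_apply, if_neg (fun h => hij h.symm), smul_eq_mul,
          smul_eq_mul]
        ring
      have hrj : b.repr (s • b i + t • b j) j = t := by
        rw [map_add, map_smul, map_smul, Finsupp.add_apply, Finsupp.smul_apply, Finsupp.smul_apply, b.repr_self,
          b.repr_self, Finsupp.single_eq_same, Finsupp.single_apply, if_neg hij, smul_eq_mul, smul_eq_mul]
        ring
      rcases lt_or_gt_of_ne (hf _ hst') with h | h
      · right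
        have h2 := hnp _ hst' h i
        have h3 := hnp _ hst' h j
        rw [hri] at h2
        rw [hrj] at h3
        exact ⟨h2, h3⟩
      · left
        have h2 := hpos _ hst' h i
        have h3 := hpos _ hst' h j
        rw [hri] at h2
        rw [hrj] at h3
        exact ⟨h2, h3⟩
  choose m hm2 hm using hang
  obtain ⟨M, hMd, hMo⟩ : ∃ M : Matrix (Fin d) (Fin d) ℕ, (∀ i, M i i = 1) ∧
      ∀ i j (h : i ≠ j), M i j = m i j h :=
    ⟨fun i j => if h : i = j then 1 else m i j h, fun i => dif_pos rfl, fun i j h => dif_neg h⟩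
  have hBM : ∀ i j, B (b i) (b j) = -Real.cos (Real.pi / M i j) := by
    intro i j
    by_cases hij : i = j
    · subst hij
      rw [hMd, h1 _ (hb i)]
      simp
    · rw [hMo i j hij]
      exact hm i j hij
  have hM2 : ∀ i j, i ≠ j → 2 ≤ M i j := fun i j hij => by rw [hMo i j hij]; exact hm2 i j hij
  have hM1 : ∀ i j, 1 ≤ M i j := by
    intro i j
    by_cases hij : i = j
    · subst hij
      rw [hMd]
    · exact (hM2 i j hij).trans' (by norm_num)
  have hmem : ∀ i j, Real.pi / M i j ∈ Set.Icc 0 Real.pi := by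
    intro i j
    have h2 : (1 : ℝ) ≤ M i j := by exact_mod_cast hM1 i j
    exact ⟨div_nonneg Real.pi_pos.le (by linarith), div_le_self Real.pi_pos.le h2⟩
  have hsym : ∀ i j, M i j = M j i := by
    intro i j
    have h2 : Real.cos (Real.pi / M i j) = Real.cos (Real.pi / M j i) := by
      have h3 := hBM i j
      rw [hB.symm, hBM j i] at h3
      linarith
    have h3 := Real.injOn_cos (hmem i j) (hmem j i) h2
    have hi : (0 : ℝ) < M i j := by exact_mod_cast hM1 i j
    have hj : (0 : ℝ) < M j i := by exact_mod_cast hM1 j i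
    rw [div_eq_div_iff hi.ne' hj.ne'] at h3
    have h4 := mul_left_cancel₀ Real.pi_pos.ne' h3
    exact_mod_cast h4.symm
  refine ⟨M, b, B, f, ⟨hsym, hMd, hM2⟩, ?_, ?_, b.linearIndependent, ?_, ⟨hB.symm, hB.pos⟩, hBM, hfb⟩
  · -- positive definite
    intro c hc
    have hne : ∑ i, c i • b i ≠ 0 := by
      intro h0
      apply hc
      funext i
      exact Fintype.linearIndependent_iff.1 b.linearIndependent c h0 i
    have h2 := hB.pos _ hne
    rw [form_sum B b c c] at h2
    refine lt_of_lt_of_eq h2 (sum_congr rfl fun i _ => sum_congr rfl fun j _ => ?_)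
    rw [hBM]
    unfold CL.gram
    ring
  · -- connected
    intro S hSne hSu
    by_contra hcon
    push Not at hcon
    have hS0 : ∀ i ∈ (S : Set (Fin d)), ∀ j, j ∉ (S : Set (Fin d)) → B (b i) (b j) = 0 := by
      intro i hi j hj
      rw [mem_coe] at hi hj
      have h2 := hcon i hi j hj
      have h3 := hM2 i j fun h => hj (h ▸ hi)
      have h4 : M i j = 2 := by omega
      rw [hBM, h4]
      simp
    have hmix := not_mixed hB.symm hfin hst hneg h1 hb hf hfb hpos hnp (S : Set (Fin d)) hS0
    let U : Submodule ℝ (EuclideanSpace ℝ (Fin d)) :=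
      { carrier := {x | ∀ j, j ∉ S → b.repr x j = 0}
        add_mem' := by
          intro x y hx hy j hj
          rw [map_add, Finsupp.add_apply, hx j hj, hy j hj, add_zero]
        zero_mem' := by
          intro j _
          rw [map_zero, Finsupp.zero_apply]
        smul_mem' := by
          intro r x hx j hj
          rw [map_smul, Finsupp.smul_apply, hx j hj, smul_zero] }
    have hU : ∀ x, x ∈ U ↔ ∀ j, j ∉ S → b.repr x j = 0 := fun x => Iff.rfl
    have hinv := map_le_of_roots hB hgen' U (by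
      intro r hr
      rcases hmix r hr with h | h
      · right
        intro x hx
        rw [hU] at hx
        have h4 := form_sum B b (fun i => b.repr r i) (fun j => b.repr x j)
        rw [b.sum_repr r, b.sum_repr x] at h4
        rw [h4]
        refine sum_eq_zero fun i _ => sum_eq_zero fun j _ => ?_
        by_cases hi : i ∈ S
        · rw [h i (mem_coe.2 hi), zero_mul, zero_mul]
        · by_cases hj : j ∈ S
          · rw [hB.symm, hS0 j (mem_coe.2 hj) i (fun h' => hi (mem_coe.1 h')), mul_zero]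
          · rw [hx j hj, mul_zero, zero_mul]
      · left
        rw [hU]
        intro j hj
        exact h j fun h' => hj (mem_coe.1 h'))
    rcases hirr' U hinv with h | h
    · obtain ⟨i, hi⟩ := hSne
      have h2 : b i ∈ U := by
        rw [hU]
        intro j hj
        rw [b.repr_self, Finsupp.single_apply, if_neg]
        intro h'
        exact hj (h' ▸ hi)
      rw [h, Submodule.mem_bot] at h2
      exact b.ne_zero i h2
    · obtain ⟨j, hj⟩ : ∃ j, j ∉ S := by
        by_contra hall
        push Not at hall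
        exact hSu (eq_univ_iff_forall.2 hall)
      have h2 : b j ∈ U := by rw [h]; exact Submodule.mem_top
      have h3 := (hU _).1 h2 j hj
      rw [b.repr_self, Finsupp.single_eq_same] at h3
      exact one_ne_zero h3
  · -- the simple reflections
    intro i
    obtain ⟨-, g, hg, hgx⟩ := hb i
    refine ⟨g, hg, fun j => ?_⟩
    rw [hgx, hBM i j, sub_eq_add_neg, ← neg_smul]
    congr 2
    ring

end Pool.Agent.Lib.MP_5e7226_co.RG
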