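import Mathlib

set_option autoImplicit false

/-! Roots of a finite reflection group with an invariant form; simple systems. -/

namespace Pool.Agent.Lib.MP_5e7226_co.RG

open Finset

section Form

variable {V : Type*} [AddCommGroup V] [Module ℝ V]

/-- A reflection. -/
def IsRefl (g : V ≃ₗ[ℝ] V) : Prop := ∃ (a : V) (f : V →ₗ[ℝ] ℝ), f a = 2 ∧ ∀ x, g x = x - f x • a

/-- The unit roots of `W`. -/
def Rts (B : V →ₗ[ℝ] V →ₗ[ℝ] ℝ) (W : Subgroup (V ≃ₗ[ℝ] V)) : Set V :=
  {r | B r r = 1 ∧ ∃ g ∈ W, ∀ x, g x = x - (2 * B r x) • r}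

/-- A positive definite form which is invariant under `W`. -/
structure IsForm (B : V →ₗ[ℝ] V →ₗ[ℝ] ℝ) (W : Subgroup (V ≃ₗ[ℝ] V)) : Prop where
  symm : ∀ x y, B x y = B y x
  pos : ∀ x, x ≠ 0 → 0 < B x x
  inv : ∀ g ∈ W, ∀ x y, B (g x) (g y) = B x y

variable {B : V →ₗ[ℝ] V →ₗ[ℝ] ℝ} {W : Subgroup (V ≃ₗ[ℝ] V)}

theorem root_of_refl (hB : IsForm B W) {g : V ≃ₗ[ℝ] V} (hg : g ∈ W) (h : IsRefl g) :
    ∃ r ∈ Rts B W, ∀ x, g x = x - (2 * B r x) • r := by
  obtain ⟨a, f, hfa, hgx⟩ := h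
  have ha : a ≠ 0 := by
    rintro rfl
    rw [map_zero] at hfa
    norm_num at hfa
  have haa : 0 < B a a := hB.pos a ha
  have hf : ∀ y, f y * B a a = 2 * B a y := by
    intro y
    have h1 := hB.inv g hg a y
    rw [hgx, hgx, hfa] at h1
    simp only [map_sub, map_smul, LinearMap.sub_apply, LinearMap.smul_apply, smul_eq_mul] at h1
    linarith
  obtain ⟨n, hn⟩ : ∃ n : ℝ, n = Real.sqrt (B a a) := ⟨_, rfl⟩
  have hn0 : 0 < n := by rw [hn]; exact Real.sqrt_pos.2 haa
  have hn2 : n * n = B a a := by rw [hn]; exact Real.mul_self_sqrt haa.le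
  have hr : ∀ x, g x = x - (2 * B (n⁻¹ • a) x) • (n⁻¹ • a) := by
    intro x
    rw [hgx, smul_smul]
    congr 2
    rw [map_smul, LinearMap.smul_apply, smul_eq_mul]
    have h1 := hf x
    rw [← hn2] at h1
    field_simp
    linarith
  refine ⟨n⁻¹ • a, ⟨?_, g, hg, hr⟩, hr⟩
  rw [map_smul, map_smul, LinearMap.smul_apply, smul_eq_mul, smul_eq_mul, ← hn2]
  field_simp

theorem Rts_finite [Finite W] (hB : IsForm B W) : (Rts B W).Finite := by
  have h1 : Rts B W ⊆ ⋃ g : W, {r | B r r = 1 ∧ ∀ x, (g : V ≃ₗ[ℝ] V) x = x - (2 * B r x) • r} := by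
    rintro r ⟨hr, g, hg, hgx⟩
    exact Set.mem_iUnion.2 ⟨⟨g, hg⟩, hr, hgx⟩
  refine Set.Finite.subset (Set.finite_iUnion fun g => ?_) h1
  by_cases hne : ∃ r, B r r = 1 ∧ ∀ x, (g : V ≃ₗ[ℝ] V) x = x - (2 * B r x) • r
  · obtain ⟨r, hr, hrx⟩ := hne
    refine Set.Finite.subset (Set.toFinite {r, -r}) ?_
    rintro s ⟨hs, hsx⟩
    have h2 : -r = r - (2 * B s r) • s := by
      rw [← hsx r, hrx r, hr, mul_one, two_smul]
      abel
    have h3 : r = (B s r) • s := by
      have h4 : (2 : ℝ) • r = (2 : ℝ) • ((B s r) • s) := by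
        rw [smul_smul, two_smul]
        have h5 : r + r = r - (-r) := by abel
        rw [h5, h2]
        abel
      exact smul_right_injective V (two_ne_zero : (2 : ℝ) ≠ 0) h4
    have h6 : B s r * B s r = 1 := by
      have h7 : B r r = B ((B s r) • s) ((B s r) • s) := by rw [← h3]
      rw [hr, map_smul, map_smul, LinearMap.smul_apply, smul_eq_mul, smul_eq_mul, hs, mul_one] at h7
      exact h7.symm
    rcases mul_self_eq_one_iff.1 h6 with h | h
    · left
      rw [h, one_smul] at h3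
      exact h3.symm
    · right
      rw [h, neg_one_smul] at h3
      rw [Set.mem_singleton_iff, h3, neg_neg]
  · have h2 : {r | B r r = 1 ∧ ∀ x, (g : V ≃ₗ[ℝ] V) x = x - (2 * B r x) • r} = ∅ := by
      ext r
      exact ⟨fun hr => hne ⟨r, hr⟩, fun h => h.elim⟩
    rw [h2]
    exact Set.finite_empty

theorem Rts_neg {r : V} (hr : r ∈ Rts B W) : -r ∈ Rts B W := by
  obtain ⟨h1, g, hg, hgx⟩ := hr
  refine ⟨by rw [map_neg, map_neg, LinearMap.neg_apply, neg_neg, h1], g, hg, fun x => ?_⟩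
  rw [hgx x, map_neg, LinearMap.neg_apply, mul_neg, neg_smul, smul_neg, neg_neg]

theorem Rts_stable (hB : IsForm B W) {r x : V} (hr : r ∈ Rts B W) (hx : x ∈ Rts B W) :
    x - (2 * B r x) • r ∈ Rts B W := by
  obtain ⟨h1, g, hg, hgx⟩ := hr
  obtain ⟨h2, k, hk, hkx⟩ := hx
  have hxr : B x r = B r x := hB.symm x r
  refine ⟨?_, g * k * g, W.mul_mem (W.mul_mem hg hk) hg, fun y => ?_⟩
  · rw [← hgx x]
    rw [hB.inv g hg]
    exact h2
  · have e1 : B r (x - (2 * B r x) • r) = -B r x := by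
      rw [map_sub, map_smul, smul_eq_mul, h1]
      ring
    have e2 : B (x - (2 * B r x) • r) y = B x y - 2 * B r x * B r y := by
      rw [map_sub, LinearMap.sub_apply, map_smul, LinearMap.smul_apply, smul_eq_mul]
    rw [LinearEquiv.mul_apply, LinearEquiv.mul_apply, hgx y, hkx, hgx, e2]
    simp only [map_sub, map_smul, smul_eq_mul, h1, hxr]
    module

/-- Subspaces which are compatible with all roots are invariant. -/
theorem map_le_of_roots (hB : IsForm B W) (hgen : W = Subgroup.closure {g | g ∈ W ∧ IsRefl g})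
    (U : Submodule ℝ V) (hU : ∀ r ∈ Rts B W, r ∈ U ∨ ∀ x ∈ U, B r x = 0) :
    ∀ g ∈ W, U.map (g : V →ₗ[ℝ] V) ≤ U := by
  have key : ∀ g ∈ Subgroup.closure {g | g ∈ W ∧ IsRefl g}, ∀ x, x ∈ U ↔ g x ∈ U := by
    intro g hg
    induction hg using Subgroup.closure_induction with
    | mem g hg =>
      obtain ⟨r, hr, hgx⟩ := root_of_refl hB hg.1 hg.2
      intro x
      rw [hgx x]
      rcases hU r hr with h | h
      · exact (Submodule.sub_mem_iff_left U (U.smul_mem _ h)).symm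
      · constructor
        · intro hx
          rw [h x hx, mul_zero, zero_smul, sub_zero]
          exact hx
        · intro hx
          have h1 := h _ hx
          rw [map_sub, map_smul, smul_eq_mul, hr.1, mul_one] at h1
          have h2 : B r x = 0 := by linarith
          rw [h2, mul_zero, zero_smul, sub_zero] at hx
          exact hx
    | one => intro x; rfl
    | mul g k _ _ hg hk =>
      intro x
      rw [LinearEquiv.mul_apply, ← hg, ← hk]
    | inv g _ hg =>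
      intro x
      have h1 := hg (g⁻¹ x)
      have h2 : g (g⁻¹ x) = x := by
        rw [← LinearEquiv.mul_apply, mul_inv_cancel]
        rfl
      rw [h2] at h1
      exact h1.symm
  intro g hg
  rintro _ ⟨x, hx, rfl⟩
  exact (key g (hgen ▸ hg) x).1 hx

theorem Rts_nonempty (hB : IsForm B W) (hgen : W = Subgroup.closure {g | g ∈ W ∧ IsRefl g})
    (hirr : ∀ U : Submodule ℝ V, (∀ g ∈ W, U.map (g : V →ₗ[ℝ] V) ≤ U) → U = ⊥ ∨ U = ⊤)
    (h2 : 2 ≤ Module.finrank ℝ V) : (Rts B W).Nonempty := by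
  by_contra hne
  rw [Set.not_nonempty_iff_eq_empty] at hne
  have hall : ∀ U : Submodule ℝ V, U = ⊥ ∨ U = ⊤ := fun U =>
    hirr U (map_le_of_roots hB hgen U fun r hr => by rw [hne] at hr; exact hr.elim)
  have hnt : Nontrivial V := Module.nontrivial_of_finrank_pos (R := ℝ) (by omega)
  obtain ⟨v, hv⟩ := exists_ne (0 : V)
  rcases hall (Submodule.span ℝ {v}) with h | h
  · rw [Submodule.span_singleton_eq_bot] at h
    exact hv h
  · have h3 := finrank_span_singleton (K := ℝ) hv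
    rw [h, finrank_top] at h3
    omega

theorem span_Rts (hB : IsForm B W) (hgen : W = Subgroup.closure {g | g ∈ W ∧ IsRefl g})
    (hirr : ∀ U : Submodule ℝ V, (∀ g ∈ W, U.map (g : V →ₗ[ℝ] V) ≤ U) → U = ⊥ ∨ U = ⊤)
    (h2 : 2 ≤ Module.finrank ℝ V) : Submodule.span ℝ (Rts B W) = ⊤ := by
  rcases hirr (Submodule.span ℝ (Rts B W)) (map_le_of_roots hB hgen _ fun r hr =>
    Or.inl (Submodule.subset_span hr)) with h | h
  · obtain ⟨r, hr⟩ := Rts_nonempty hB hgen hirr h2
    have h3 : r ∈ (⊥ : Submodule ℝ V) := by rw [← h]; exact Submodule.subset_span hr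
    rw [Submodule.mem_bot] at h3
    have h4 := hr.1
    rw [h3, map_zero] at h4
    simp at h4
  · exact h

end Form

section Simple

variable {V : Type*} [AddCommGroup V] [Module ℝ V]

/-- Nonnegative combinations. -/
def InCone (D : Finset V) (x : V) : Prop := ∃ c : V → ℝ, (∀ v, 0 ≤ c v) ∧ x = ∑ v ∈ D, c v • v

theorem InCone.of_mem {D : Finset V} {x : V} (h : x ∈ D) : InCone D x := by
  classical
  refine ⟨fun v => if v = x then 1 else 0, fun v => by beta_reduce; split_ifs <;> norm_num, ?_⟩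
  rw [sum_eq_single x (fun v _ hv => by beta_reduce; rw [if_neg hv, zero_smul]) (fun h' => absurd h h')]
  beta_reduce
  rw [if_pos rfl, one_smul]

theorem InCone.add {D : Finset V} {x y : V} (hx : InCone D x) (hy : InCone D y) : InCone D (x + y) := by
  obtain ⟨c, hc, rfl⟩ := hx
  obtain ⟨e, he, rfl⟩ := hy
  refine ⟨fun v => c v + e v, fun v => add_nonneg (hc v) (he v), ?_⟩
  rw [← sum_add_distrib]
  exact sum_congr rfl fun v _ => (add_smul _ _ _).symm

theorem InCone.smul {D : Finset V} {x : V} (hx : InCone D x) {r : ℝ} (hr : 0 ≤ r) : InCone D (r • x) := by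
  obtain ⟨c, hc, rfl⟩ := hx
  refine ⟨fun v => r * c v, fun v => mul_nonneg hr (hc v), ?_⟩
  rw [smul_sum]
  exact sum_congr rfl fun v _ => smul_smul _ _ _

theorem InCone.zero (D : Finset V) : InCone D (0 : V) := by
  refine ⟨fun _ => 0, fun _ => le_rfl, ?_⟩
  simp

theorem InCone.sum {ι : Type*} {D : Finset V} (s : Finset ι) (y : ι → V) (h : ∀ i ∈ s, InCone D (y i)) :
    InCone D (∑ i ∈ s, y i) := by
  classical
  induction s using Finset.induction_on with
  | empty => rw [sum_empty]; exact InCone.zero D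
  | insert a s ha ih =>
    rw [sum_insert ha]
    exact (h a (mem_insert_self a s)).add (ih fun i hi => h i (mem_insert_of_mem hi))

theorem InCone.trans {D D' : Finset V} {x : V} (hx : InCone D x) (h : ∀ v ∈ D, InCone D' v) : InCone D' x := by
  obtain ⟨c, hc, rfl⟩ := hx
  exact InCone.sum D _ fun v hv => (h v hv).smul (hc v)

theorem exists_simple_set (B : V →ₗ[ℝ] V →ₗ[ℝ] ℝ) (hs : ∀ x y, B x y = B y x) {Φ : Set V} (hfin : Φ.Finite)
    (hst : ∀ r ∈ Φ, ∀ x ∈ Φ, x - (2 * B r x) • r ∈ Φ) (hneg : ∀ r ∈ Φ, -r ∈ Φ)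
    (f : V →ₗ[ℝ] ℝ) (hf : ∀ r ∈ Φ, f r ≠ 0) :
    ∃ D : Finset V, (∀ v ∈ D, v ∈ Φ ∧ 0 < f v) ∧ (∀ r ∈ Φ, 0 < f r → InCone D r) ∧
      ∀ a ∈ D, ∀ b ∈ D, a ≠ b → B a b ≤ 0 := by
  classical
  obtain ⟨P, hP⟩ : ∃ P : Finset V, ∀ v, v ∈ P ↔ v ∈ Φ ∧ 0 < f v := by
    refine ⟨hfin.toFinset.filter fun v => 0 < f v, fun v => ?_⟩
    rw [mem_filter, Set.Finite.mem_toFinset]
  obtain ⟨D, hD, hmin⟩ := exists_min_image (P.powerset.filter fun D => ∀ r ∈ P, InCone D r) card
    ⟨P, mem_filter.2 ⟨mem_powerset_self P, fun r hr => InCone.of_mem hr⟩⟩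
  rw [mem_filter, mem_powerset] at hD
  obtain ⟨hDP, hDc⟩ := hD
  have hpos : ∀ v ∈ D, v ∈ Φ ∧ 0 < f v := fun v hv => (hP v).1 (hDP hv)
  have hN : ∀ a ∈ D, ¬ InCone (D.erase a) a := by
    intro a ha hc
    have h1 : D.erase a ∈ P.powerset.filter fun D => ∀ r ∈ P, InCone D r := by
      rw [mem_filter, mem_powerset]
      refine ⟨(erase_subset a D).trans hDP, fun r hr => (hDc r hr).trans fun v hv => ?_⟩
      by_cases hva : v = a
      · rw [hva]
        exact hc
      · exact InCone.of_mem (mem_erase.2 ⟨hva, hv⟩)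
    have h2 := hmin _ h1
    have h3 := card_erase_lt_of_mem ha
    omega
  have hfc : ∀ (c : V → ℝ) (S : Finset V), (∀ v, 0 ≤ c v) → S ⊆ D → 0 ≤ f (∑ v ∈ S, c v • v) := by
    intro c S hc hS
    rw [map_sum]
    refine sum_nonneg fun v hv => ?_
    rw [map_smul, smul_eq_mul]
    exact mul_nonneg (hc v) (hpos v (hS hv)).2.le
  -- from `r • a = b + x` in the cone of `D` to a contradiction
  have key : ∀ a ∈ D, ∀ (s : ℝ) (y : V) (c : V → ℝ), (∀ v, 0 ≤ c v) → InCone (D.erase a) y → 0 < f y →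
      s • a = y + ∑ v ∈ D, c v • v → False := by
    intro a ha s y c hc hy hfy he
    rw [← add_sum_erase D _ ha] at he
    have h1 : (s - c a) • a = y + ∑ v ∈ D.erase a, c v • v := by
      rw [sub_smul, he]
      abel
    rcases lt_or_ge (c a) s with h | h
    · have h2 : 0 < s - c a := by linarith
      apply hN a ha
      have h3 : a = (s - c a)⁻¹ • (y + ∑ v ∈ D.erase a, c v • v) := by
        rw [← h1, smul_smul, inv_mul_cancel₀ h2.ne', one_smul]
      have h4 := InCone.smul (hy.add ⟨c, hc, rfl⟩) (inv_pos.2 h2).le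
      rw [← h3] at h4
      exact h4
    · have h2 := congrArg f h1
      rw [map_smul, smul_eq_mul, map_add] at h2
      have h3 := hfc c (D.erase a) hc (erase_subset a D)
      have h4 : (s - c a) * f a ≤ 0 := mul_nonpos_of_nonpos_of_nonneg (by linarith) (hpos a ha).2.le
      linarith
  refine ⟨D, hpos, fun r hr hfr => hDc r ((hP r).2 ⟨hr, hfr⟩), ?_⟩
  intro a ha b hb hab
  by_contra hBn
  push Not at hBn
  have hmem : b - (2 * B a b) • a ∈ Φ := hst a (hpos a ha).1 b (hpos b hb).1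
  have h2B : 0 < 2 * B a b := by linarith
  rcases lt_or_gt_of_ne (hf _ hmem) with h | h
  · have h1 : -(b - (2 * B a b) • a) ∈ P := (hP _).2 ⟨hneg _ hmem, by rw [map_neg]; linarith⟩
    obtain ⟨c, hc, he⟩ := hDc _ h1
    refine key a ha (2 * B a b) b c hc (InCone.of_mem (mem_erase.2 ⟨hab.symm, hb⟩)) (hpos b hb).2 ?_
    rw [← he]
    abel
  · have h1 : b - (2 * B a b) • a ∈ P := (hP _).2 ⟨hmem, h⟩
    obtain ⟨c, hc, he⟩ := hDc _ h1
    refine key b hb 1 ((2 * B a b) • a) c hc ((InCone.of_mem (mem_erase.2 ⟨hab, ha⟩)).smul h2B.le) ?_ ?_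
    · rw [map_smul, smul_eq_mul]
      exact mul_pos h2B (hpos a ha).2
    · rw [← he, one_smul]
      abel

end Simple

end Pool.Agent.Lib.MP_5e7226_co.RG
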