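import Mathlib

set_option autoImplicit false

/-! Row C of the tetrahedral lemma: counting of the poles. -/

namespace Pool.Agent.Lib.MP_5e7226_co.RG.Tet

open MulAction

/-- The arithmetic of the three orbits. -/
theorem arith_sorted {N : ℕ} {n s : Fin 3 → ℕ} (hmul : ∀ i, s i * n i = N) (hs : ∀ i, 3 ≤ s i)
    (hn : ∀ i, 2 ≤ n i) (hsum : s 0 + s 1 + s 2 = N + 2) (h01 : n 0 ≤ n 1) (h12 : n 1 ≤ n 2) :
    n 0 = 2 ∧ n 1 = 3 ∧ (n 2 = 3 ∨ (n 2 = 4 ∧ s 2 = 6) ∨ n 2 = 5) := by
  have m0 := hmul 0
  have m1 := hmul 1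
  have m2 := hmul 2
  have s0 := hs 0
  have s1 := hs 1
  have s2 := hs 2
  have n0 := hn 0
  have n1 := hn 1
  have n2 := hn 2
  generalize n 0 = a at *
  generalize n 1 = b at *
  generalize n 2 = c at *
  generalize s 0 = x at *
  generalize s 1 = y at *
  generalize s 2 = z at *
  have ha : a = 2 := by
    by_contra h
    have h3 : 3 ≤ a := by omega
    have e0 : x * 3 ≤ N := by rw [← m0]; exact Nat.mul_le_mul_left _ h3
    have e1 : y * 3 ≤ N := by rw [← m1]; exact Nat.mul_le_mul_left _ (by omega)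
    have e2 : z * 3 ≤ N := by rw [← m2]; exact Nat.mul_le_mul_left _ (by omega)
    omega
  subst ha
  have hb2 : b ≠ 2 := by
    rintro rfl
    omega
  have hb : b = 3 := by
    by_contra h
    have e1 : y * 4 ≤ N := by rw [← m1]; exact Nat.mul_le_mul_left _ (by omega)
    have e2 : z * 4 ≤ N := by rw [← m2]; exact Nat.mul_le_mul_left _ (by omega)
    omega
  subst hb
  have hc : c ≤ 5 := by
    by_contra h
    have e2 : z * 6 ≤ N := by rw [← m2]; exact Nat.mul_le_mul_left _ (by omega)
    omega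
  refine ⟨rfl, rfl, ?_⟩
  have hc' : c = 3 ∨ c = 4 ∨ c = 5 := by omega
  rcases hc' with rfl | rfl | rfl
  · left; rfl
  · right; left
    exact ⟨rfl, by omega⟩
  · right; right; rfl

theorem arith {N : ℕ} {n s : Fin 3 → ℕ} (hmul : ∀ i, s i * n i = N) (hs : ∀ i, 3 ≤ s i)
    (hn : ∀ i, 2 ≤ n i) (hsum : s 0 + s 1 + s 2 = N + 2) :
    (∃ i, n i = 2 ∧ ∀ j, Even (n j) → j = i) ∨ (∃ i, n i = 4 ∧ s i = 6 ∧ ∀ j, n j = 4 → j = i) := by
  have hmono := Tuple.monotone_sort n
  set σ := Tuple.sort n with hσ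
  have hsum' : s (σ 0) + s (σ 1) + s (σ 2) = N + 2 := by
    have h := Equiv.sum_comp σ s
    rw [Fin.sum_univ_three, Fin.sum_univ_three] at h
    omega
  have h := arith_sorted (N := N) (n := n ∘ σ) (s := s ∘ σ) (fun i => hmul _) (fun i => hs _)
    (fun i => hn _) hsum' (hmono (by decide : (0 : Fin 3) ≤ 1)) (hmono (by decide : (1 : Fin 3) ≤ 2))
  simp only [Function.comp] at h
  obtain ⟨h0, h1, h2⟩ := h
  have hall : ∀ j, j = σ 0 ∨ j = σ 1 ∨ j = σ 2 := by
    intro j
    obtain ⟨i, rfl⟩ := σ.surjective j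
    fin_cases i <;> simp
  rcases h2 with h2 | ⟨h2, h6⟩ | h2
  · left
    refine ⟨σ 0, h0, fun j hj => ?_⟩
    rcases hall j with rfl | rfl | rfl
    · rfl
    · rw [h1] at hj; exact absurd hj (by decide)
    · rw [h2] at hj; exact absurd hj (by decide)
  · right
    refine ⟨σ 2, h2, h6, fun j hj => ?_⟩
    rcases hall j with rfl | rfl | rfl
    · omega
    · omega
    · rfl
  · left
    refine ⟨σ 0, h0, fun j hj => ?_⟩
    rcases hall j with rfl | rfl | rfl
    · rfl
    · rw [h1] at hj; exact absurd hj (by decide)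
    · rw [h2] at hj; exact absurd hj (by decide)

variable {H X : Type*} [Group H] [MulAction H X]

/-- The number of orbits is three. -/
theorem count [Finite H] [Finite X] [Nontrivial H]
    (hfix : ∀ g : H, g ≠ 1 → Nat.card (fixedBy X g) = 2)
    (hstab : ∀ x : X, 2 ≤ Nat.card (stabilizer H x))
    (horb : ∀ x : X, 3 ≤ Nat.card (orbit H x)) :
    (∃ p : X, Nat.card (stabilizer H p) = 2 ∧
      ∀ x : X, Even (Nat.card (stabilizer H x)) → x ∈ orbit H p) ∨
    (∃ p : X, Nat.card (stabilizer H p) = 4 ∧ Nat.card (orbit H p) = 6 ∧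
      ∀ x : X, Nat.card (stabilizer H x) = 4 → x ∈ orbit H p) := by
  classical
  haveI : Fintype H := Fintype.ofFinite H
  haveI : Fintype X := Fintype.ofFinite X
  set Ω := Quotient (orbitRel H X) with hΩ
  haveI : Fintype Ω := Fintype.ofFinite Ω
  set N := Nat.card H with hN
  have hN2 : 2 ≤ N := by
    rw [hN]
    exact (Finite.one_lt_card : 1 < Nat.card H)
  -- the data of the orbits
  have hmul : ∀ x : X, Nat.card (orbit H x) * Nat.card (stabilizer H x) = N := by
    intro x
    rw [hN, Nat.card_eq_fintype_card, Nat.card_eq_fintype_card, Nat.card_eq_fintype_card]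
    exact card_orbit_mul_card_stabilizer_eq_card_group H x
  have hX : Nat.card X = ∑ ω : Ω, Nat.card (orbit H ω.out) := by
    have h := card_eq_sum_card_group_div_card_stabilizer H X
    rw [Nat.card_eq_fintype_card, h]
    refine Finset.sum_congr rfl fun ω _ => ?_
    have h2 := hmul ω.out
    rw [← Nat.card_eq_fintype_card, ← Nat.card_eq_fintype_card, ← hN, ← h2]
    exact Nat.mul_div_cancel _ (by have := hstab ω.out; omega)
  have hB : Nat.card X + 2 * (N - 1) = Fintype.card Ω * N := by
    have h := sum_card_fixedBy_eq_card_orbits_mul_card_group H X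
    rw [hN, Nat.card_eq_fintype_card (α := H), ← h, ← Finset.add_sum_erase _ _ (Finset.mem_univ (1 : H))]
    congr 1
    · rw [Nat.card_eq_fintype_card]
      refine Fintype.card_congr (Equiv.symm (Equiv.subtypeUnivEquiv fun x => ?_))
      simp [mem_fixedBy]
    · rw [Finset.sum_congr rfl (g := fun _ => 2)]
      · rw [Finset.sum_const, Finset.card_erase_of_mem (Finset.mem_univ _), Finset.card_univ, smul_eq_mul]
        ring
      · intro g hg
        rw [← Nat.card_eq_fintype_card]
        exact hfix g (Finset.ne_of_mem_erase hg)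
  set k := Fintype.card Ω with hk
  have hk3 : k = 3 := by
    have hle : 2 * Nat.card X ≤ k * N := by
      rw [hX, Finset.mul_sum, hk, ← Finset.card_univ, ← smul_eq_mul, ← Finset.sum_const]
      refine Finset.sum_le_sum fun ω _ => ?_
      rw [← hmul ω.out, mul_comm]
      exact Nat.mul_le_mul_left _ (hstab _)
    have hge : 3 * k ≤ Nat.card X := by
      rw [hX, hk, ← Finset.card_univ, mul_comm, ← smul_eq_mul, ← Finset.sum_const]
      exact Finset.sum_le_sum fun ω _ => horb _
    have h4 : k < 4 := by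
      by_contra h
      have : 4 * N ≤ k * N := Nat.mul_le_mul_right _ (by omega)
      omega
    interval_cases k <;> omega
  -- enumerate
  have e : Fin 3 ≃ Ω := (Fintype.equivFinOfCardEq (hk ▸ hk3)).symm
  have hsum : Nat.card (orbit H (e 0).out) + Nat.card (orbit H (e 1).out) + Nat.card (orbit H (e 2).out) = N + 2 := by
    rw [hX, ← Equiv.sum_comp e, Fin.sum_univ_three, hk3] at hB
    omega
  have hclass : ∀ x : X, ∃ i : Fin 3, x ∈ orbit H (e i).out ∧
      Nat.card (stabilizer H x) = Nat.card (stabilizer H (e i).out) := by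
    intro x
    refine ⟨e.symm (Quotient.mk'' x), ?_⟩
    rw [Equiv.apply_symm_apply]
    have h1 : (orbitRel H X).r x (Quotient.mk'' x : Ω).out := by
      have := Quotient.mk_out (s := orbitRel H X) x
      exact (orbitRel H X).symm' this
    have h2 : x ∈ orbit H (Quotient.mk'' x : Ω).out := h1
    refine ⟨h2, ?_⟩
    have e1 := hmul x
    have e2 := hmul (Quotient.mk'' x : Ω).out
    rw [orbit_eq_iff.2 h2, ← e2] at e1
    exact Nat.eq_of_mul_eq_mul_left (by have := horb (Quotient.mk'' x : Ω).out; omega) e1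
  rcases arith (N := N) (n := fun i => Nat.card (stabilizer H (e i).out))
    (s := fun i => Nat.card (orbit H (e i).out)) (fun i => hmul _) (fun i => horb _) (fun i => hstab _) hsum with
    ⟨i, h2, hall⟩ | ⟨i, h4, h6, hall⟩
  · left
    refine ⟨(e i).out, h2, fun x hx => ?_⟩
    obtain ⟨j, hj, hjs⟩ := hclass x
    rw [hjs] at hx
    rw [← hall j hx]
    exact hj
  · right
    refine ⟨(e i).out, h4, h6, fun x hx => ?_⟩
    obtain ⟨j, hj, hjs⟩ := hclass x
    rw [hjs] at hx
    rw [← hall j hx]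
    exact hj

end Pool.Agent.Lib.MP_5e7226_co.RG.Tet
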